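import Pool.Agent.J4.H36.Queens.PEnd

set_option autoImplicit false

namespace Pool.Agent.J4.H36.Queens

open Finset

/-- No tight configuration with `γ ≥ 3`, except possibly `γ = 5`. -/
theorem Tight.main {γ δ : ℤ} {D : Finset (ℤ × ℤ)} {X Y T S : Finset ℤ}
    (t : Tight γ δ D X Y T S) (h3 : 3 ≤ γ) : γ = 1 ∨ γ = 5 := by
  have hd := t.dpos
  have hne : ((X ∪ Y ∪ (rf δ X ∪ rf δ Y)).filter (fun x => 0 < x)).Nonempty := by
    refine ⟨δ, ?_⟩
    rw [mem_filter, mem_union, mem_union]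
    exact ⟨Or.inl (Or.inl t.Xd), hd⟩
  obtain ⟨g, hgdef⟩ : ∃ g, g = ((X ∪ Y ∪ (rf δ X ∪ rf δ Y)).filter (fun x => 0 < x)).min' hne :=
    ⟨_, rfl⟩
  have hgm := ((X ∪ Y ∪ (rf δ X ∪ rf δ Y)).filter (fun x => 0 < x)).min'_mem hne
  rw [← hgdef, mem_filter, mem_union, mem_union, mem_union] at hgm
  have hmin : ∀ x, x ∈ X ∨ x ∈ Y ∨ x ∈ rf δ X ∨ x ∈ rf δ Y → 0 < x → g ≤ x := by
    intro x hx h0
    rw [hgdef]
    apply min'_le
    rw [mem_filter, mem_union, mem_union, mem_union]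
    refine ⟨?_, h0⟩
    tauto
  have G : Gap δ g X Y := by
    refine ⟨hgm.2, ?_, ?_, ?_, ?_⟩
    · intro x hx h0; exact hmin x (Or.inl hx) h0
    · intro x hx h0
      have := hmin (δ - x) (Or.inr (Or.inr (Or.inl (by rw [mem_rf, sub_sub_cancel]; exact hx))))
        (by omega)
      omega
    · intro x hx h0; exact hmin x (Or.inr (Or.inl hx)) h0
    · intro x hx h0
      have := hmin (δ - x) (Or.inr (Or.inr (Or.inr (by rw [mem_rf, sub_sub_cancel]; exact hx))))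
        (by omega)
      omega
  rcases hgm.1 with (h | h) | (h | h)
  · exact (t.swap.std G.swap h).main h3
  · exact (t.std G h).main h3
  · exact (t.refl.swap.std G.refl.swap h).main h3
  · exact (t.reflY.std G.reflY h).main h3

/-- Spencer's window argument. -/
theorem window (X Y T S : Finset ℤ) (γ : ℕ) (hT : T.card ≤ γ) (hS : S.card ≤ γ)
    (cov : ∀ x ∈ X, ∀ y ∈ Y, x - y ∈ T ∨ x + y ∈ S) {a b δ : ℤ} (ha : a ∈ X) (hb : b ∈ X)
    (hab : b = a + δ) (hδ : 0 < δ) (Y' : Finset ℤ) (hYY : Y' ⊆ Y)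
    (hY' : ∀ y ∈ Y', ∀ y' ∈ Y', y - y' < δ) (hc : γ ≤ Y'.card) :
    Y'.card = γ ∧ T.card = γ ∧ S.card = γ ∧ (∀ t ∈ T, ∃ y ∈ Y', t = a - y ∨ t = b - y) ∧
    (∀ s ∈ S, ∃ y ∈ Y', s = a + y ∨ s = b + y) ∧
    (∀ y ∈ Y', ¬ (a - y ∈ T ∧ a + y ∈ S) ∧ ¬ (b - y ∈ T ∧ b + y ∈ S)) := by
  set P := ({a, b} : Finset ℤ) ×ˢ Y' with hP
  have hab' : a ≠ b := by omega
  have cP : P.card = 2 * Y'.card := by rw [hP, card_product, card_pair hab']
  have mP : ∀ p : ℤ × ℤ, p ∈ P ↔ (p.1 = a ∨ p.1 = b) ∧ p.2 ∈ Y' := by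
    intro p
    rw [hP, mem_product, mem_insert, mem_singleton]
  set PT := P.filter (fun p => p.1 - p.2 ∈ T) with hPT
  set PS := P.filter (fun p => p.1 + p.2 ∈ S) with hPS
  have hU : PT ∪ PS = P := by
    ext p
    rw [mem_union, hPT, hPS, mem_filter, mem_filter]
    constructor
    · rintro (h | h) <;> exact h.1
    · intro h
      have h' := (mP p).1 h
      have hx : p.1 ∈ X := by rcases h'.1 with h1 | h1 <;> rw [h1] <;> assumption
      rcases cov p.1 hx p.2 (hYY h'.2) with h1 | h1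
      · exact Or.inl ⟨h, h1⟩
      · exact Or.inr ⟨h, h1⟩
  have iT : Set.InjOn (fun p : ℤ × ℤ => p.1 - p.2) P := by
    intro p hp q hq h
    have hp' := (mP p).1 hp
    have hq' := (mP q).1 hq
    have e1 := hY' _ hp'.2 _ hq'.2
    have e2 := hY' _ hq'.2 _ hp'.2
    simp only at h
    exact Prod.ext (by omega) (by omega)
  have iS : Set.InjOn (fun p : ℤ × ℤ => p.1 + p.2) P := by
    intro p hp q hq h
    have hp' := (mP p).1 hp
    have hq' := (mP q).1 hq
    have e1 := hY' _ hp'.2 _ hq'.2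
    have e2 := hY' _ hq'.2 _ hp'.2
    simp only at h
    exact Prod.ext (by omega) (by omega)
  have sT : PT ⊆ P := filter_subset _ _
  have sS : PS ⊆ P := filter_subset _ _
  have jT : (PT.image (fun p : ℤ × ℤ => p.1 - p.2)) ⊆ T := by
    intro x hx
    rw [mem_image] at hx
    obtain ⟨p, hp, rfl⟩ := hx
    rw [hPT, mem_filter] at hp
    exact hp.2
  have jS : (PS.image (fun p : ℤ × ℤ => p.1 + p.2)) ⊆ S := by
    intro x hx
    rw [mem_image] at hx
    obtain ⟨p, hp, rfl⟩ := hx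
    rw [hPS, mem_filter] at hp
    exact hp.2
  have cT : (PT.image (fun p : ℤ × ℤ => p.1 - p.2)).card = PT.card :=
    card_image_of_injOn (iT.mono (by exact_mod_cast sT))
  have cS : (PS.image (fun p : ℤ × ℤ => p.1 + p.2)).card = PS.card :=
    card_image_of_injOn (iS.mono (by exact_mod_cast sS))
  have lT := card_le_card jT
  have lS := card_le_card jS
  have hUI := card_union_add_card_inter PT PS
  rw [hU] at hUI
  rw [cT] at lT
  rw [cS] at lS
  have hI : PT ∩ PS = ∅ := by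
    rw [← card_eq_zero]
    omega
  have eT := eq_of_subset_of_card_le jT (by omega)
  have eS := eq_of_subset_of_card_le jS (by omega)
  refine ⟨by omega, by omega, by omega, ?_, ?_, ?_⟩
  · intro x hx
    rw [← eT, mem_image] at hx
    obtain ⟨p, hp, rfl⟩ := hx
    have := (mP p).1 (sT hp)
    exact ⟨p.2, this.2, by omega⟩
  · intro x hx
    rw [← eS, mem_image] at hx
    obtain ⟨p, hp, rfl⟩ := hx
    have := (mP p).1 (sS hp)
    exact ⟨p.2, this.2, by omega⟩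
  · intro y hy
    constructor
    · rintro ⟨h1, h2⟩
      have : (a, y) ∈ PT ∩ PS := by
        rw [mem_inter, hPT, hPS, mem_filter, mem_filter]
        have : (a, y) ∈ P := (mP _).2 ⟨Or.inl rfl, hy⟩
        exact ⟨⟨this, h1⟩, ⟨this, h2⟩⟩
      rw [hI] at this
      exact notMem_empty _ this
    · rintro ⟨h1, h2⟩
      have : (b, y) ∈ PT ∩ PS := by
        rw [mem_inter, hPT, hPS, mem_filter, mem_filter]
        have : (b, y) ∈ P := (mP _).2 ⟨Or.inr rfl, hy⟩
        exact ⟨⟨this, h1⟩, ⟨this, h2⟩⟩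
      rw [hI] at this
      exact notMem_empty _ this

theorem half (X Y T S : Finset ℤ) (γ : ℕ) (hT : T.card ≤ γ) (hS : S.card ≤ γ)
    (cov : ∀ x ∈ X, ∀ y ∈ Y, x - y ∈ T ∨ x + y ∈ S) {δ : ℤ} (X0 : (0 : ℤ) ∈ X) (Xd : δ ∈ X)
    (hδ : 0 < δ) (Y0 : (0 : ℤ) ∈ Y) (Yd : δ ∈ Y) (Yb : ∀ y ∈ Y, 0 ≤ y ∧ y ≤ δ)
    (hc : γ + 1 ≤ Y.card) :
    Y.card = γ + 1 ∧ T.card = γ ∧ S.card = γ ∧ (∀ t ∈ T, -δ < t ∧ t < δ) ∧
    (∀ s ∈ S, 0 < s ∧ s < 2 * δ) ∧
    (∀ y, 0 ≤ y → y ≤ δ → (y ∈ Y ↔ (-y ∈ T ∨ y ∈ S))) ∧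
    (∀ y, 0 ≤ y → y ≤ δ → ¬ (-y ∈ T ∧ y ∈ S)) ∧
    (∀ y, 0 ≤ y → y ≤ δ → (y ∈ Y ↔ (δ - y ∈ T ∨ y + δ ∈ S))) ∧
    (∀ y, 0 ≤ y → y ≤ δ → ¬ (δ - y ∈ T ∧ y + δ ∈ S)) := by
  have w1 := window X Y T S γ hT hS cov X0 Xd (by ring) hδ (Y.erase δ) (erase_subset _ _) (by
    intro y hy y' hy'
    rw [mem_erase] at hy hy'
    have := Yb y hy.2
    have := Yb y' hy'.2
    have := hy.1
    omega) (by rw [card_erase_of_mem Yd]; omega)
  have w2 := window X Y T S γ hT hS cov X0 Xd (by ring) hδ (Y.erase 0) (erase_subset _ _) (by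
    intro y hy y' hy'
    rw [mem_erase] at hy hy'
    have := Yb y hy.2
    have := Yb y' hy'.2
    have := hy'.1
    omega) (by rw [card_erase_of_mem Y0]; omega)
  obtain ⟨c1, c2, c3, a1, a2, a3⟩ := w1
  obtain ⟨_, _, _, b1, b2, b3⟩ := w2
  rw [card_erase_of_mem Yd] at c1
  have m1 : ∀ y, y ∈ Y.erase δ → y ∈ Y ∧ 0 ≤ y ∧ y < δ := by
    intro y hy
    rw [mem_erase] at hy
    have := Yb y hy.2
    exact ⟨hy.2, this.1, by have := hy.1; omega⟩
  have m2 : ∀ y, y ∈ Y.erase 0 → y ∈ Y ∧ 0 < y ∧ y ≤ δ := by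
    intro y hy
    rw [mem_erase] at hy
    have := Yb y hy.2
    exact ⟨hy.2, by have := hy.1; omega, this.2⟩
  have Tb : ∀ t ∈ T, -δ < t ∧ t < δ := by
    intro t ht
    obtain ⟨y, hy, hy'⟩ := a1 t ht
    obtain ⟨z, hz, hz'⟩ := b1 t ht
    have := m1 y hy
    have := m2 z hz
    omega
  have Sb : ∀ s ∈ S, 0 < s ∧ s < 2 * δ := by
    intro t ht
    obtain ⟨y, hy, hy'⟩ := a2 t ht
    obtain ⟨z, hz, hz'⟩ := b2 t ht
    have := m1 y hy
    have := m2 z hz
    omega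
  have yn : ∀ y, 0 ≤ y → y ≤ δ → (y ∈ Y ↔ (-y ∈ T ∨ y ∈ S)) := by
    intro y h0 h1
    constructor
    · intro h
      have := cov 0 X0 y h
      rwa [zero_sub, zero_add] at this
    · rintro (h | h)
      · have h2 := Tb _ h
        obtain ⟨z, hz, hz'⟩ := a1 _ h
        have h3 := m1 z hz
        rw [show y = z by omega]
        exact h3.1
      · by_cases h4 : y = δ
        · rw [h4]; exact Yd
        · obtain ⟨z, hz, hz'⟩ := a2 _ h
          have h3 := m1 z hz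
          rw [show y = z by omega]
          exact h3.1
  have yf : ∀ y, 0 ≤ y → y ≤ δ → (y ∈ Y ↔ (δ - y ∈ T ∨ y + δ ∈ S)) := by
    intro y h0 h1
    constructor
    · intro h
      have := cov δ Xd y h
      rwa [add_comm δ y] at this
    · rintro (h | h)
      · have h2 := Tb _ h
        obtain ⟨z, hz, hz'⟩ := b1 _ h
        have h3 := m2 z hz
        rw [show y = z by omega]
        exact h3.1
      · by_cases h4 : y = 0
        · rw [h4]; exact Y0
        · obtain ⟨z, hz, hz'⟩ := b2 _ h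
          have h3 := m2 z hz
          rw [show y = z by omega]
          exact h3.1
  refine ⟨by omega, c2, c3, Tb, Sb, yn, ?_, yf, ?_⟩
  · rintro y h0 h1 ⟨h2, h3⟩
    have h4 := (yn y h0 h1).2 (Or.inl h2)
    have h5 := Tb _ h2
    have h6 := (a3 y (by rw [mem_erase]; exact ⟨by omega, h4⟩)).1
    rw [zero_sub, zero_add] at h6
    exact h6 ⟨h2, h3⟩
  · rintro y h0 h1 ⟨h2, h3⟩
    have h4 := (yf y h0 h1).2 (Or.inl h2)
    have h5 := Tb _ h2
    have h6 := (b3 y (by rw [mem_erase]; exact ⟨by omega, h4⟩)).2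
    rw [add_comm δ y] at h6
    exact h6 ⟨h2, h3⟩

/-- The free lines. -/
noncomputable def free (D : Finset (ℤ × ℤ)) (f : ℤ × ℤ → ℤ) (a : ℤ) (γ : ℕ) : Finset ℤ :=
  Icc a (a + 2 * γ) \ D.image f

theorem mem_free {D : Finset (ℤ × ℤ)} {f : ℤ × ℤ → ℤ} {a : ℤ} {γ : ℕ} {x : ℤ} :
    x ∈ free D f a γ ↔ (a ≤ x ∧ x ≤ a + 2 * γ) ∧ ∀ q ∈ D, f q ≠ x := by
  rw [free, mem_sdiff, mem_Icc, mem_image]
  push Not
  rfl

theorem card_free {D : Finset (ℤ × ℤ)} {f : ℤ × ℤ → ℤ} {a : ℤ} {γ : ℕ} (hc : D.card = γ)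
    (hD : ∀ q ∈ D, a ≤ f q ∧ f q ≤ a + 2 * γ) :
    γ + 1 ≤ (free D f a γ).card ∧ ((free D f a γ).card = γ + 1 → Set.InjOn f D) := by
  have h1 : (free D f a γ).card = (Icc a (a + 2 * γ)).card - (D.image f).card := by
    rw [free]
    apply card_sdiff_of_subset
    intro x hx
    rw [mem_image] at hx
    obtain ⟨q, hq, rfl⟩ := hx
    rw [mem_Icc]
    exact hD q hq
  rw [Int.card_Icc] at h1
  have h2 := card_image_le (s := D) (f := f)
  refine ⟨by omega, ?_⟩
  intro h3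
  rw [← card_image_iff]
  omega

theorem build (γ : ℕ) (hγ : 1 ≤ γ) (D : Finset (ℤ × ℤ)) (hcard : D.card = γ) (a c : ℤ)
    (hD1 : ∀ q ∈ D, a ≤ q.1 ∧ q.1 ≤ a + 2 * γ) (hD2 : ∀ q ∈ D, c ≤ q.2 ∧ q.2 ≤ c + 2 * γ)
    (hdom : ∀ x y : ℤ, a ≤ x → x ≤ a + 2 * γ → c ≤ y → y ≤ c + 2 * γ →
      ∃ q ∈ D, x = q.1 ∨ y = q.2 ∨ x - y = q.1 - q.2 ∨ x + y = q.1 + q.2) (δ : ℤ)
    (X0 : (0 : ℤ) ∈ free D (fun q => q.1) a γ) (Xd : δ ∈ free D (fun q => q.1) a γ)
    (Xb : ∀ x ∈ free D (fun q => q.1) a γ, 0 ≤ x ∧ x ≤ δ)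
    (Y0 : (0 : ℤ) ∈ free D (fun q => q.2) c γ)
    (Yb : ∀ y ∈ free D (fun q => q.2) c γ, 0 ≤ y ∧ y ≤ δ) :
    Tight γ δ D (free D (fun q => q.1) a γ) (free D (fun q => q.2) c γ)
      (D.image (fun q => q.1 - q.2)) (D.image (fun q => q.1 + q.2)) := by
  obtain ⟨cX, iX⟩ := card_free hcard hD1
  obtain ⟨cY, iY⟩ := card_free hcard hD2
  set X := free D (fun q => q.1) a γ with hX
  set Y := free D (fun q => q.2) c γ with hY
  set T := D.image (fun q : ℤ × ℤ => q.1 - q.2) with hT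
  set S := D.image (fun q : ℤ × ℤ => q.1 + q.2) with hS
  have hTc : T.card ≤ γ := by rw [← hcard]; exact card_image_le
  have hSc : S.card ≤ γ := by rw [← hcard]; exact card_image_le
  have cov : ∀ x ∈ X, ∀ y ∈ Y, x - y ∈ T ∨ x + y ∈ S := by
    intro x hx y hy
    rw [hX, mem_free] at hx
    rw [hY, mem_free] at hy
    obtain ⟨q, hq, h | h | h | h⟩ := hdom x y hx.1.1 hx.1.2 hy.1.1 hy.1.2
    · exact absurd h.symm (hx.2 q hq)
    · exact absurd h.symm (hy.2 q hq)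
    · left; rw [hT, mem_image]; exact ⟨q, hq, h.symm⟩
    · right; rw [hS, mem_image]; exact ⟨q, hq, h.symm⟩
  have hδ : 0 < δ := by
    by_contra hcon
    have : X ⊆ {0} := by
      intro x hx
      have := Xb x hx
      rw [mem_singleton]; omega
    have := card_le_card this
    rw [card_singleton] at this
    omega
  have Yd : δ ∈ Y := by
    by_contra hn
    have := window X Y T S γ hTc hSc cov X0 Xd (by ring) hδ Y (Subset.refl _) (by
      intro y hy y' hy'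
      have h1 := Yb y hy
      have h2 := Yb y' hy'
      have h3 : y ≠ δ := by rintro rfl; exact hn hy
      omega) (by omega)
    have := this.1
    omega
  have hl := half X Y T S γ hTc hSc cov X0 Xd hδ Y0 Yd Yb cY
  have hr := half Y X (ng T) S γ (by rw [ng, card_image_of_injective _ neg_injective]; exact hTc)
    hSc (by
      intro y hy x hx
      rw [mem_ng, neg_sub, add_comm]
      exact cov x hx y hy) Y0 Yd hδ X0 Xd Xb cX
  obtain ⟨l1, l2, l3, l4, l5, l6, l7, l8, l9⟩ := hl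
  obtain ⟨r1, r2, r3, r4, r5, r6, r7, r8, r9⟩ := hr
  exact
    { cD := by exact_mod_cast hcard
      cX := by exact_mod_cast r1
      cY := by exact_mod_cast l1
      dpos := hδ
      dle := by
        rw [hX, mem_free] at X0 Xd
        omega
      Xb := Xb
      Yb := Yb
      X0 := X0
      Xd := Xd
      Y0 := Y0
      Yd := Yd
      Tb := l4
      Sb := l5
      xn := by
        intro x h0 h1
        have := r6 x h0 h1
        rwa [mem_ng, neg_neg] at this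
      xn' := by
        intro x h0 h1
        have := r7 x h0 h1
        rwa [mem_ng, neg_neg] at this
      xf := by
        intro x h0 h1
        have := r8 x h0 h1
        rwa [mem_ng, neg_sub] at this
      xf' := by
        intro x h0 h1
        have := r9 x h0 h1
        rwa [mem_ng, neg_sub] at this
      yn := l6
      yn' := l7
      yf := l8
      yf' := l9
      cov := cov
      iX := iX r1
      iY := iY l1
      iT := by rw [← card_image_iff, ← hT, l2, hcard]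
      iS := by rw [← card_image_iff, ← hS, l3, hcard]
      dX := by
        intro q hq h
        rw [hX, mem_free] at h
        exact h.2 q hq rfl
      dY := by
        intro q hq h
        rw [hY, mem_free] at h
        exact h.2 q hq rfl
      dT := by intro t; rw [hT, mem_image]
      dS := by intro t; rw [hS, mem_image]
      bx := by
        refine ⟨a, ?_, hD1⟩
        intro x hx
        rw [hX, mem_free] at hx
        exact hx.1
      by' := by
        refine ⟨c, ?_, hD2⟩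
        intro x hx
        rw [hY, mem_free] at hx
        exact hx.1 }

theorem main1 (γ : ℕ) (hγ : 1 ≤ γ) (D : Finset (ℤ × ℤ)) (hcard : D.card = γ)
    (hD1 : ∀ q ∈ D, 0 ≤ q.1 ∧ q.1 ≤ 2 * γ) (hD2 : ∀ q ∈ D, 0 ≤ q.2 ∧ q.2 ≤ 2 * γ)
    (hdom : ∀ x y : ℤ, 0 ≤ x → x ≤ 2 * γ → 0 ≤ y → y ≤ 2 * γ →
      ∃ q ∈ D, x = q.1 ∨ y = q.2 ∨ x - y = q.1 - q.2 ∨ x + y = q.1 + q.2) (x0 x1 y0 y1 : ℤ)
    (X0 : x0 ∈ free D (fun q => q.1) 0 γ) (X1 : x1 ∈ free D (fun q => q.1) 0 γ)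
    (Xb : ∀ x ∈ free D (fun q => q.1) 0 γ, x0 ≤ x ∧ x ≤ x1)
    (Y0 : y0 ∈ free D (fun q => q.2) 0 γ)
    (Yb : ∀ y ∈ free D (fun q => q.2) 0 γ, y0 ≤ y ∧ y ≤ y1) (hw : y1 - y0 ≤ x1 - x0) :
    γ = 1 ∨ γ = 5 := by
  set D' := D.image (fun q : ℤ × ℤ => (q.1 - x0, q.2 - y0)) with hD'
  have mD : ∀ q : ℤ × ℤ, q ∈ D' ↔ (q.1 + x0, q.2 + y0) ∈ D := by
    intro q
    rw [hD', mem_image]
    constructor
    · rintro ⟨r, hr, rfl⟩
      simpa using hr
    · intro h
      exact ⟨_, h, by simp⟩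
  have hcard' : D'.card = γ := by
    rw [hD', card_image_of_injective, hcard]
    intro a b h
    simp only [Prod.mk.injEq] at h
    exact Prod.ext (by omega) (by omega)
  have fX : ∀ x, x ∈ free D' (fun q => q.1) (-x0) γ ↔ x + x0 ∈ free D (fun q => q.1) 0 γ := by
    intro x
    rw [mem_free, mem_free]
    constructor
    · rintro ⟨h1, h2⟩
      refine ⟨by omega, ?_⟩
      intro q hq h
      exact h2 (q.1 - x0, q.2 - y0) ((mD _).2 (by simpa using hq)) (by simp only; omega)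
    · rintro ⟨h1, h2⟩
      refine ⟨by omega, ?_⟩
      intro q hq h
      exact h2 _ ((mD q).1 hq) (by simp only; omega)
  have fY : ∀ x, x ∈ free D' (fun q => q.2) (-y0) γ ↔ x + y0 ∈ free D (fun q => q.2) 0 γ := by
    intro x
    rw [mem_free, mem_free]
    constructor
    · rintro ⟨h1, h2⟩
      refine ⟨by omega, ?_⟩
      intro q hq h
      exact h2 (q.1 - x0, q.2 - y0) ((mD _).2 (by simpa using hq)) (by simp only; omega)
    · rintro ⟨h1, h2⟩
      refine ⟨by omega, ?_⟩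
      intro q hq h
      exact h2 _ ((mD q).1 hq) (by simp only; omega)
  have t := build γ hγ D' hcard' (-x0) (-y0) (by
      intro q hq
      have := hD1 _ ((mD q).1 hq)
      simp only at this
      omega) (by
      intro q hq
      have := hD2 _ ((mD q).1 hq)
      simp only at this
      omega) (by
      intro x y h1 h2 h3 h4
      obtain ⟨q, hq, h⟩ := hdom (x + x0) (y + y0) (by omega) (by omega) (by omega) (by omega)
      refine ⟨(q.1 - x0, q.2 - y0), (mD _).2 (by simpa using hq), ?_⟩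
      simp only
      omega) (x1 - x0) (by rw [fX, zero_add]; exact X0) (by rw [fX, sub_add_cancel]; exact X1) (by
      intro x hx
      have := Xb _ ((fX x).1 hx)
      omega) (by rw [fY, zero_add]; exact Y0) (by
      intro y hy
      have := Yb _ ((fY y).1 hy)
      omega)
  have h2 := t.halves.1
  by_cases h3 : 3 ≤ γ
  · have := t.main (by exact_mod_cast h3)
    omega
  · omega

/-- A dominating set of `γ` queens on the board of side `2γ+1` exists only for `γ ∈ {1, 5}`. -/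
theorem main (γ : ℕ) (D : Finset (ℤ × ℤ)) (hcard : D.card = γ)
    (hD1 : ∀ q ∈ D, 0 ≤ q.1 ∧ q.1 ≤ 2 * γ) (hD2 : ∀ q ∈ D, 0 ≤ q.2 ∧ q.2 ≤ 2 * γ)
    (hdom : ∀ x y : ℤ, 0 ≤ x → x ≤ 2 * γ → 0 ≤ y → y ≤ 2 * γ →
      ∃ q ∈ D, x = q.1 ∨ y = q.2 ∨ x - y = q.1 - q.2 ∨ x + y = q.1 + q.2) :
    γ = 1 ∨ γ = 5 := by
  have hγ : 1 ≤ γ := by
    obtain ⟨q, hq, _⟩ := hdom 0 0 le_rfl (by positivity) le_rfl (by positivity)
    have := card_pos.2 ⟨q, hq⟩
    omega
  have cX := (card_free (f := fun q => q.1) (a := 0) hcard (by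
    intro q hq; have := hD1 q hq; omega)).1
  have cY := (card_free (f := fun q => q.2) (a := 0) hcard (by
    intro q hq; have := hD2 q hq; omega)).1
  have nX : (free D (fun q => q.1) 0 γ).Nonempty := card_pos.1 (by omega)
  have nY : (free D (fun q => q.2) 0 γ).Nonempty := card_pos.1 (by omega)
  set x0 := (free D (fun q => q.1) 0 γ).min' nX with hx0
  set x1 := (free D (fun q => q.1) 0 γ).max' nX with hx1
  set y0 := (free D (fun q => q.2) 0 γ).min' nY with hy0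
  set y1 := (free D (fun q => q.2) 0 γ).max' nY with hy1
  have X0 := (free D (fun q => q.1) 0 γ).min'_mem nX
  have X1 := (free D (fun q => q.1) 0 γ).max'_mem nX
  have Y0 := (free D (fun q => q.2) 0 γ).min'_mem nY
  have Y1 := (free D (fun q => q.2) 0 γ).max'_mem nY
  have Xb : ∀ x ∈ free D (fun q => q.1) 0 γ, x0 ≤ x ∧ x ≤ x1 := fun x hx =>
    ⟨min'_le _ _ hx, le_max' _ _ hx⟩
  have Yb : ∀ y ∈ free D (fun q => q.2) 0 γ, y0 ≤ y ∧ y ≤ y1 := fun x hx =>
    ⟨min'_le _ _ hx, le_max' _ _ hx⟩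
  rcases le_total (y1 - y0) (x1 - x0) with hw | hw
  · exact main1 γ hγ D hcard hD1 hD2 hdom x0 x1 y0 y1 X0 X1 Xb Y0 Yb hw
  · have f1 : free (swD D) (fun q => q.1) 0 γ = free D (fun q => q.2) 0 γ := by
      ext x
      rw [mem_free, mem_free]
      constructor
      · rintro ⟨h1, h2⟩
        exact ⟨h1, fun q hq => h2 (q.2, q.1) (mem_swD.2 hq)⟩
      · rintro ⟨h1, h2⟩
        exact ⟨h1, fun q hq => h2 _ (mem_swD.1 hq)⟩
    have f2 : free (swD D) (fun q => q.2) 0 γ = free D (fun q => q.1) 0 γ := by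
      ext x
      rw [mem_free, mem_free]
      constructor
      · rintro ⟨h1, h2⟩
        exact ⟨h1, fun q hq => h2 (q.2, q.1) (mem_swD.2 hq)⟩
      · rintro ⟨h1, h2⟩
        exact ⟨h1, fun q hq => h2 _ (mem_swD.1 hq)⟩
    refine main1 γ hγ (swD D) ?_ ?_ ?_ ?_ y0 y1 x0 x1 ?_ ?_ ?_ ?_ ?_ hw
    · rw [swD, card_image_of_injective _ Prod.swap_injective, hcard]
    · intro q hq; exact hD2 _ (mem_swD.1 hq)
    · intro q hq; exact hD1 _ (mem_swD.1 hq)
    · intro x y h1 h2 h3 h4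
      obtain ⟨q, hq, h⟩ := hdom y x h3 h4 h1 h2
      refine ⟨(q.2, q.1), mem_swD.2 hq, ?_⟩
      simp only
      omega
    · rw [f1]; exact Y0
    · rw [f1]; exact Y1
    · rw [f1]; exact Yb
    · rw [f2]; exact X0
    · rw [f2]; exact Xb

end Pool.Agent.J4.H36.Queens
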