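import Pool.Agent.J4.H36.Queens.Sums

set_option autoImplicit false

namespace Pool.Agent.J4.H36.Queens

open Finset

/-- Odd numbers `2j+1` with `-s ≤ j < s`. -/
noncomputable def odds (s : ℕ) : Finset ℤ := (Ico (-(s : ℤ)) (s : ℤ)).image (fun j => 2 * j + 1)

theorem mem_odds {s : ℕ} {x : ℤ} :
    x ∈ odds s ↔ ∃ j : ℤ, -(s : ℤ) ≤ j ∧ j < s ∧ x = 2 * j + 1 := by
  simp only [odds, mem_image, mem_Ico]
  constructor
  · rintro ⟨j, ⟨h1, h2⟩, h3⟩; exact ⟨j, h1, h2, h3.symm⟩
  · rintro ⟨j, h1, h2, h3⟩; exact ⟨j, ⟨h1, h2⟩, h3.symm⟩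

theorem card_odds (s : ℕ) : (odds s).card = 2 * s := by
  rw [odds, card_image_of_injective]
  · simp; omega
  · intro a b h
    simp only at h
    omega

theorem sum_odds (s : ℕ) (f : ℤ → ℤ) :
    ∑ x ∈ odds s, f x = ∑ j ∈ Ico (-(s : ℤ)) (s : ℤ), f (2 * j + 1) := by
  rw [odds, sum_image]
  intro a _ b _ h
  simp only at h
  omega

/-- The structure of the even and odd diagonals. -/
theorem evenodd (E O : Finset ℤ) (κ : ℕ)
    (hc : E.card + O.card = 2 * κ + 1)
    (hcov : ∀ p q : ℤ, 2 ∣ p → ¬ 2 ∣ q → |p| + |q| ≤ 2 * κ + 1 → p ∈ E ∨ q ∈ O) :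
    ∃ r s : ℕ, r + s = κ ∧ E = mult 2 r ∧ O = odds s := by
  classical
  -- zero lies in E
  have h0 : mult 2 0 ⊆ E := by
    intro x hx
    obtain ⟨j, h1, h2, rfl⟩ := mem_mult.1 hx
    have hj : j = 0 := by push_cast at h1 h2; omega
    subst hj
    by_contra hE
    have hsub : odds (κ + 1) ⊆ O := by
      intro q hq
      obtain ⟨j, h1, h2, rfl⟩ := mem_odds.1 hq
      rcases hcov 0 (2 * j + 1) ⟨0, by ring⟩ (by omega) (by
        rw [abs_zero, zero_add, abs_le]; push_cast at h1 h2; omega) with h | h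
      · exact absurd h (by simpa using hE)
      · exact h
    have := card_le_card hsub
    rw [card_odds] at this
    omega
  have hb : ∀ r, mult 2 r ⊆ E → r ≤ κ := by
    intro r hr
    have := card_le_card hr
    rw [card_mult (by norm_num)] at this
    omega
  -- the largest r
  let P : ℕ → Prop := fun r => mult 2 r ⊆ E
  have hP0 : P 0 := h0
  obtain ⟨r, hr, hr1⟩ : ∃ r, P r ∧ ¬ P (r + 1) := by
    by_contra hcon
    push Not at hcon
    have : ∀ n, P n := by
      intro n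
      induction n with
      | zero => exact hP0
      | succ n ih => exact hcon n ih
    have := hb (κ + 1) (this _)
    omega
  have hrκ := hb r hr
  obtain ⟨s, hs⟩ : ∃ s, r + s = κ := ⟨κ - r, by omega⟩
  have hmiss : ∃ p : ℤ, p ∉ E ∧ 2 ∣ p ∧ |p| ≤ 2 * r + 2 := by
    by_contra hcon
    push Not at hcon
    apply hr1
    intro x hx
    obtain ⟨j, h1, h2, rfl⟩ := mem_mult.1 hx
    by_contra hx'
    have := hcon (2 * j) hx' ⟨j, rfl⟩
    have h3 : |2 * j| ≤ 2 * (r : ℤ) + 2 := by rw [abs_le]; push_cast at h1 h2; omega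
    omega
  obtain ⟨p, hpE, hp2, hpr⟩ := hmiss
  have hO : odds s ⊆ O := by
    intro q hq
    obtain ⟨j, h1, h2, rfl⟩ := mem_odds.1 hq
    rcases hcov p (2 * j + 1) hp2 (by omega) (by
      have : |2 * j + 1| ≤ 2 * (s : ℤ) - 1 := by rw [abs_le]; omega
      omega) with h | h
    · exact absurd h hpE
    · exact h
  have c1 := card_le_card hr
  have c2 := card_le_card hO
  rw [card_mult (by norm_num)] at c1
  rw [card_odds] at c2
  refine ⟨r, s, hs, ?_, ?_⟩
  · exact (eq_of_subset_of_card_le hr (by rw [card_mult (by norm_num)]; omega)).symm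
  · exact (eq_of_subset_of_card_le hO (by rw [card_odds]; omega)).symm

/-- The final step of the argument. -/
theorem final {ι : Type*} (D : Finset ι) (x y : ι → ℤ) (κ : ℕ) (hc : D.card = 2 * κ + 1)
    (hx : Set.InjOn x D) (hy : Set.InjOn y D)
    (ht : Set.InjOn (fun i => x i - y i) D) (hs : Set.InjOn (fun i => x i + y i) D)
    (hxb : ∀ i ∈ D, -(κ : ℤ) ≤ x i ∧ x i ≤ κ) (hyb : ∀ i ∈ D, -(κ : ℤ) ≤ y i ∧ y i ≤ κ)
    (hcov : ∀ p q : ℤ, ¬ 2 ∣ p + q → |p| + |q| ≤ 2 * κ + 1 →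
      (∃ i ∈ D, x i - y i = p) ∨ (∃ i ∈ D, x i + y i = q)) : κ = 0 ∨ κ = 2 := by
  classical
  set De := D.filter (fun i => (2 : ℤ) ∣ x i + y i) with hDe
  set Do := D.filter (fun i => ¬ (2 : ℤ) ∣ x i + y i) with hDo
  have hDD : De.card + Do.card = 2 * κ + 1 := by
    rw [← hc]; exact card_filter_add_card_filter_not _
  have hDeD : De ⊆ D := filter_subset _ _
  have hDoD : Do ⊆ D := filter_subset _ _
  have mDe : ∀ i, i ∈ De ↔ i ∈ D ∧ (2 : ℤ) ∣ x i + y i := by intro i; rw [hDe, mem_filter]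
  have mDo : ∀ i, i ∈ Do ↔ i ∈ D ∧ ¬ (2 : ℤ) ∣ x i + y i := by intro i; rw [hDo, mem_filter]
  have htE : Set.InjOn (fun i => x i - y i) De := ht.mono (by exact_mod_cast hDeD)
  have htO : Set.InjOn (fun i => x i - y i) Do := ht.mono (by exact_mod_cast hDoD)
  have hsE : Set.InjOn (fun i => x i + y i) De := hs.mono (by exact_mod_cast hDeD)
  have hsO : Set.InjOn (fun i => x i + y i) Do := hs.mono (by exact_mod_cast hDoD)
  obtain ⟨r, s, hrs, hTE, hSO⟩ := evenodd (De.image (fun i => x i - y i))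
    (Do.image (fun i => x i + y i)) κ
    (by rw [card_image_of_injOn htE, card_image_of_injOn hsO, hDD]) (by
      intro p q hp hq hpq
      rcases hcov p q (by omega) hpq with ⟨i, hi, h⟩ | ⟨i, hi, h⟩
      · left
        rw [mem_image]
        exact ⟨i, (mDe i).2 ⟨hi, by omega⟩, h⟩
      · right
        rw [mem_image]
        exact ⟨i, (mDo i).2 ⟨hi, by omega⟩, h⟩)
  obtain ⟨r', s', hrs', hSE, hTO⟩ := evenodd (De.image (fun i => x i + y i))
    (Do.image (fun i => x i - y i)) κ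
    (by rw [card_image_of_injOn hsE, card_image_of_injOn htO, hDD]) (by
      intro p q hp hq hpq
      rcases hcov q p (by omega) (by omega) with ⟨i, hi, h⟩ | ⟨i, hi, h⟩
      · right
        rw [mem_image]
        exact ⟨i, (mDo i).2 ⟨hi, by omega⟩, h⟩
      · left
        rw [mem_image]
        exact ⟨i, (mDe i).2 ⟨hi, by omega⟩, h⟩)
  have hrr : r' = r := by
    have e1 := congrArg card hTE
    have e2 := congrArg card hSE
    rw [card_image_of_injOn htE, card_mult (by norm_num)] at e1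
    rw [card_image_of_injOn hsE, card_mult (by norm_num)] at e2
    omega
  have hss : s' = s := by omega
  subst hrr hss
  have cE : (De.card : ℤ) = 2 * r' + 1 := by
    have e1 := congrArg card hTE
    rw [card_image_of_injOn htE, card_mult (by norm_num)] at e1
    exact_mod_cast e1
  have cO : (Do.card : ℤ) = 2 * s' := by
    have e1 := congrArg card hTO
    rw [card_image_of_injOn htO, card_odds] at e1
    exact_mod_cast e1
  -- sums over De, Do
  have sTE : ∀ f : ℤ → ℤ, ∑ i ∈ De, f (x i - y i)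
      = ∑ j ∈ Icc (-(r' : ℤ)) (r' : ℤ), f (2 * j) := by
    intro f
    rw [← sum_mult (by norm_num) r' f, ← hTE, sum_image htE]
  have sSE : ∀ f : ℤ → ℤ, ∑ i ∈ De, f (x i + y i)
      = ∑ j ∈ Icc (-(r' : ℤ)) (r' : ℤ), f (2 * j) := by
    intro f
    rw [← sum_mult (by norm_num) r' f, ← hSE, sum_image hsE]
  have sTO : ∀ f : ℤ → ℤ, ∑ i ∈ Do, f (x i - y i)
      = ∑ j ∈ Ico (-(s' : ℤ)) (s' : ℤ), f (2 * j + 1) := by
    intro f
    rw [← sum_odds s' f, ← hTO, sum_image htO]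
  have sSO : ∀ f : ℤ → ℤ, ∑ i ∈ Do, f (x i + y i)
      = ∑ j ∈ Ico (-(s' : ℤ)) (s' : ℤ), f (2 * j + 1) := by
    intro f
    rw [← sum_odds s' f, ← hSO, sum_image hsO]
  have hsplit : ∀ f : ι → ℤ, ∑ i ∈ D, f i = ∑ i ∈ De, f i + ∑ i ∈ Do, f i := by
    intro f
    exact (sum_filter_add_sum_filter_not D _ f).symm
  -- images of x and y
  have imx : D.image x = Icc (-(κ : ℤ)) (κ : ℤ) := by
    apply eq_of_subset_of_card_le
    · intro a ha
      obtain ⟨i, hi, rfl⟩ := mem_image.1 ha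
      rw [mem_Icc]
      exact hxb i hi
    · rw [card_image_of_injOn hx, hc]
      simp
      omega
  have imy : D.image y = Icc (-(κ : ℤ)) (κ : ℤ) := by
    apply eq_of_subset_of_card_le
    · intro a ha
      obtain ⟨i, hi, rfl⟩ := mem_image.1 ha
      rw [mem_Icc]
      exact hyb i hi
    · rw [card_image_of_injOn hy, hc]
      simp
      omega
  have sx : ∀ f : ℤ → ℤ, ∑ i ∈ D, f (x i) = ∑ j ∈ Icc (-(κ : ℤ)) (κ : ℤ), f j := by
    intro f; rw [← imx, sum_image hx]
  have sy : ∀ f : ℤ → ℤ, ∑ i ∈ D, f (y i) = ∑ j ∈ Icc (-(κ : ℤ)) (κ : ℤ), f j := by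
    intro f; rw [← imy, sum_image hy]
  -- the parallelogram identity
  have hpar : (κ : ℤ) * (κ + 1) * (2 * κ + 1)
      = 2 * r' * (r' + 1) * (2 * r' + 1) + s' * (4 * s' ^ 2 - 1) := by
    have q1 := sum_sq κ
    have q2 := sum_sq r'
    have q3 := sum_odd_sq s'
    have e1 := sx (fun a => a ^ 2)
    have e2 := sy (fun a => a ^ 2)
    have e3 := sTE (fun a => a ^ 2)
    have e4 := sSE (fun a => a ^ 2)
    have e5 := sTO (fun a => a ^ 2)
    have e6 := sSO (fun a => a ^ 2)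
    have e7 : ∑ j ∈ Icc (-(r' : ℤ)) (r' : ℤ), (2 * j) ^ 2
        = 4 * ∑ j ∈ Icc (-(r' : ℤ)) (r' : ℤ), j ^ 2 := by
      rw [mul_sum]; apply sum_congr rfl; intro j _; ring
    have e8 : 2 * (∑ i ∈ D, x i ^ 2 + ∑ i ∈ D, y i ^ 2)
        = ∑ i ∈ D, (x i - y i) ^ 2 + ∑ i ∈ D, (x i + y i) ^ 2 := by
      rw [← sum_add_distrib, ← sum_add_distrib, mul_sum]
      apply sum_congr rfl; intro j _; ring
    have e9 := hsplit (fun i => (x i - y i) ^ 2)
    have e10 := hsplit (fun i => (x i + y i) ^ 2)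
    beta_reduce at e1 e2 e3 e4 e5 e6 e9 e10
    rw [e9, e10, e3, e4, e5, e6, e1, e2, e7] at e8
    linarith
  have hκ : (κ : ℤ) = r' + s' := by exact_mod_cast hrs.symm
  have hquad : (r' : ℤ) ^ 2 + r' + s' ^ 2 = 4 * r' * s' + 2 * s' := by
    rw [hκ] at hpar
    have hz : (2 * (r' : ℤ) + 2 * s' + 1) * ((r' : ℤ) ^ 2 + r' + s' ^ 2 - 4 * r' * s' - 2 * s')
        = 0 := by
      linear_combination (-1) * hpar
    rcases mul_eq_zero.1 hz with h | h
    · exfalso; omega
    · linarith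
  -- s' is even
  obtain ⟨ν, hν⟩ : ∃ ν : ℕ, s' = 2 * ν := by
    have h1 : (2 : ℤ) ∣ (s' : ℤ) ^ 2 := by
      have h2 : (2 : ℤ) ∣ (r' : ℤ) * (r' + 1) := (Int.even_mul_succ_self _).two_dvd
      obtain ⟨c, hc⟩ := h2
      exact ⟨2 * r' * s' + s' - c, by linear_combination hquad - hc⟩
    have h3 : (2 : ℤ) ∣ (s' : ℤ) := Int.prime_two.dvd_of_dvd_pow h1
    obtain ⟨c, hc⟩ := h3
    exact ⟨c.toNat, by omega⟩
  -- c'
  obtain ⟨c, n, hcn, hcc⟩ : ∃ c n : ℕ, c + n = r' ∧ (c = n ∨ c = n + 1) := by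
    rcases Nat.even_or_odd' r' with ⟨t, ht | ht⟩
    · exact ⟨t, t, by omega, Or.inl rfl⟩
    · exact ⟨t + 1, t, by omega, Or.inr rfl⟩
  set φe : ℤ → ℤ := fun a => max (|a| - 2 * (c : ℤ)) 0 with hφe
  set φo : ℤ → ℤ := fun a => max (|a| - 2 * (ν : ℤ)) 0 with hφo
  have m1 : ∀ i, |x i| + |y i| = max |x i - y i| |x i + y i| := by
    intro i
    rcases abs_cases (x i) with h1 | h1 <;> rcases abs_cases (y i) with h2 | h2 <;>
      rcases abs_cases (x i - y i) with h3 | h3 <;>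
      rcases abs_cases (x i + y i) with h4 | h4 <;> omega
  have bE : ∀ i ∈ De, |x i| + |y i| ≤ 2 * c + (φe (x i - y i) + φe (x i + y i)) := by
    intro i _
    rw [m1, hφe]
    beta_reduce
    omega
  have bO : ∀ i ∈ Do, |x i| + |y i| ≤ 2 * ν + (φo (x i - y i) + φo (x i + y i)) := by
    intro i _
    rw [m1, hφo]
    beta_reduce
    omega
  have tE : ∑ i ∈ De, (2 * (c : ℤ) + (φe (x i - y i) + φe (x i + y i)))
      = 3 * (r' : ℤ) * (r' + 1) := by
    rw [sum_add_distrib, sum_add_distrib, sTE φe, sSE φe, sum_const, nsmul_eq_mul, cE]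
    have := sum_even_pos c n
    rw [hcn] at this
    rw [hφe]
    beta_reduce
    rw [this, ← hcn]
    push_cast
    rcases hcc with h | h <;> subst h <;> push_cast <;> ring
  have tO : ∑ i ∈ Do, (2 * (ν : ℤ) + (φo (x i - y i) + φo (x i + y i)))
      = 3 * (s' : ℤ) ^ 2 := by
    rw [sum_add_distrib, sum_add_distrib, sTO φo, sSO φo, sum_const, nsmul_eq_mul, cO]
    have := sum_odd_pos ν ν
    rw [show ν + ν = s' by omega] at this
    rw [hφo]
    beta_reduce
    rw [this, hν]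
    push_cast
    ring
  have tot : ∑ i ∈ D, (|x i| + |y i|) = 2 * (κ : ℤ) * (κ + 1) := by
    rw [sum_add_distrib]
    have e1 := sx (fun a => |a|)
    have e2 := sy (fun a => |a|)
    beta_reduce at e1 e2
    rw [e1, e2, sum_abs]
    ring
  have tsp := hsplit (fun i => |x i| + |y i|)
  beta_reduce at tsp
  have lE := sum_le_sum bE
  have lO := sum_le_sum bO
  have key : 2 * (κ : ℤ) * (κ + 1) = 3 * (r' : ℤ) * (r' + 1) + 3 * (s' : ℤ) ^ 2 := by
    rw [hκ]; linear_combination (-1) * hquad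
  have eqE : ∑ i ∈ De, (|x i| + |y i|)
      = ∑ i ∈ De, (2 * (c : ℤ) + (φe (x i - y i) + φe (x i + y i))) := by
    linarith
  have eqO : ∑ i ∈ Do, (|x i| + |y i|)
      = ∑ i ∈ Do, (2 * (ν : ℤ) + (φo (x i - y i) + φo (x i + y i))) := by
    linarith
  have pE := (sum_eq_sum_iff_of_le bE).1 eqE
  have pO := (sum_eq_sum_iff_of_le bO).1 eqO
  -- the central queens
  have zmem : (0 : ℤ) ∈ Icc (-(κ : ℤ)) (κ : ℤ) := by rw [mem_Icc]; omega
  obtain ⟨a, ha, hya⟩ : ∃ i ∈ D, y i = 0 := by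
    rw [← imy, mem_image] at zmem; exact zmem
  obtain ⟨b, hb, hxb0⟩ : ∃ i ∈ D, x i = 0 := by
    have zmem : (0 : ℤ) ∈ Icc (-(κ : ℤ)) (κ : ℤ) := by rw [mem_Icc]; omega
    rw [← imx, mem_image] at zmem; exact zmem
  have hxa : |x a| = 2 * c := by
    by_cases hpa : (2 : ℤ) ∣ x a + y a
    · have h := pE a ((mDe a).2 ⟨ha, hpa⟩)
      rw [hφe] at h
      beta_reduce at h
      rw [hya, sub_zero, add_zero, abs_zero] at h
      omega
    · exfalso
      have h := pO a ((mDo a).2 ⟨ha, hpa⟩)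
      rw [hφo] at h
      beta_reduce at h
      rw [hya, sub_zero, add_zero, abs_zero] at h
      rcases abs_cases (x a) with h1 | h1 <;> omega
  have hyb : |y b| = 2 * c := by
    by_cases hpb : (2 : ℤ) ∣ x b + y b
    · have h := pE b ((mDe b).2 ⟨hb, hpb⟩)
      rw [hφe] at h
      beta_reduce at h
      rw [hxb0, zero_sub, zero_add, abs_zero, abs_neg] at h
      omega
    · exfalso
      have h := pO b ((mDo b).2 ⟨hb, hpb⟩)
      rw [hφo] at h
      beta_reduce at h
      rw [hxb0, zero_sub, zero_add, abs_zero, abs_neg] at h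
      rcases abs_cases (y b) with h1 | h1 <;> omega
  have hc0 : c = 0 := by
    by_contra hne
    have h12 : x a = y b ∨ x a = - y b := by
      rcases abs_cases (x a) with h1 | h1 <;> rcases abs_cases (y b) with h2 | h2 <;> omega
    rcases h12 with h | h
    · have := hs ha hb (by beta_reduce; omega)
      subst this
      rw [hxb0] at hxa
      simp at hxa
      omega
    · have := ht ha hb (by beta_reduce; omega)
      subst this
      rw [hxb0] at hxa
      simp at hxa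
      omega
  have hr0 : r' = 0 := by omega
  subst hr0
  have hs2 : (s' : ℤ) * ((s' : ℤ) - 2) = 0 := by push_cast at hquad; linear_combination hquad
  rcases mul_eq_zero.1 hs2 with h | h
  · left; omega
  · right; omega

end Pool.Agent.J4.H36.Queens
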