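import Pool.Agent.J4.H36.Queens.Near

set_option autoImplicit false

namespace Pool.Agent.J4.H36.Queens

open Finset

theorem chain_card (F : Finset ℤ) {k : ℤ} (hk : 0 < k) (h0 : (0 : ℤ) ∈ F)
    (hF : ∀ i ∈ F, ∃ n : ℕ, i = n * k ∧ ∀ j : ℕ, j ≤ n → (j : ℤ) * k ∈ F) :
    ∀ i, i ∈ F ↔ ∃ j : ℕ, j < F.card ∧ i = j * k := by
  obtain ⟨J, hJ, hJ'⟩ := hF _ (F.max'_mem ⟨0, h0⟩)
  have hFe : F = (range (J + 1)).image (fun j : ℕ => (j : ℤ) * k) := by
    ext i
    rw [mem_image]
    constructor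
    · intro hi
      obtain ⟨n, hn, _⟩ := hF i hi
      have hle : i ≤ F.max' ⟨0, h0⟩ := F.le_max' i hi
      rw [hJ, hn] at hle
      have : (n : ℤ) ≤ J := le_of_mul_le_mul_right hle hk
      exact ⟨n, mem_range.2 (by omega), hn.symm⟩
    · rintro ⟨j, hj, rfl⟩
      exact hJ' j (by rw [mem_range] at hj; omega)
  have hinj : Function.Injective (fun j : ℕ => (j : ℤ) * k) := by
    intro a b hab
    have : (a : ℤ) = b := mul_right_cancel₀ hk.ne' hab
    exact_mod_cast this
  have hcard : F.card = J + 1 := by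
    conv_lhs => rw [hFe]
    rw [card_image_of_injective _ hinj, card_range]
  intro i
  rw [hcard]
  conv_lhs => rw [hFe]
  rw [mem_image]
  constructor
  · rintro ⟨j, hj, rfl⟩
    exact ⟨j, mem_range.1 hj, rfl⟩
  · rintro ⟨j, hj, rfl⟩
    exact ⟨j, mem_range.2 hj, rfl⟩

variable {γ δ g : ℤ} {D : Finset (ℤ × ℤ)} {X Y T S : Finset ℤ}

/-- If all even lines of a box of side `2γ` are free then `γ ∈ {1, 5}`. -/
theorem Tight.ap2 (t : Tight γ δ D X Y T S) (hδ : δ = 2 * γ)
    (hX : ∀ x, 0 ≤ x → x ≤ δ → 2 ∣ x → x ∈ X) (hY : ∀ y, 0 ≤ y → y ≤ δ → 2 ∣ y → y ∈ Y) :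
    γ = 1 ∨ γ = 5 := by
  obtain ⟨k1, _, _, _⟩ := t.halves
  have hd := t.dpos
  obtain ⟨κ, hκ⟩ : ∃ κ : ℕ, γ = 2 * κ + 1 := ⟨((γ - 1) / 2).toNat, by omega⟩
  have hq1 : ∀ q ∈ D, 0 ≤ q.1 ∧ q.1 ≤ δ ∧ ¬ 2 ∣ q.1 := by
    intro q hq
    obtain ⟨a, h1, h2⟩ := t.bx
    have e1 := h1 0 t.X0
    have e2 := h1 δ t.Xd
    have e3 := h2 q hq
    refine ⟨by omega, by omega, ?_⟩
    intro h
    exact t.dX q hq (hX _ (by omega) (by omega) h)
  have hq2 : ∀ q ∈ D, 0 ≤ q.2 ∧ q.2 ≤ δ ∧ ¬ 2 ∣ q.2 := by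
    intro q hq
    obtain ⟨a, h1, h2⟩ := t.by'
    have e1 := h1 0 t.Y0
    have e2 := h1 δ t.Yd
    have e3 := h2 q hq
    refine ⟨by omega, by omega, ?_⟩
    intro h
    exact t.dY q hq (hY _ (by omega) (by omega) h)
  have key := final D (fun q => (q.1 - γ) / 2) (fun q => (q.2 - γ) / 2) κ
    (by have := t.cD; omega)
    (by
      intro a ha b hb h
      have e1 := hq1 a ha
      have e2 := hq1 b hb
      refine t.iX ha hb ?_
      simp only at h ⊢
      omega)
    (by
      intro a ha b hb h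
      have e1 := hq2 a ha
      have e2 := hq2 b hb
      refine t.iY ha hb ?_
      simp only at h ⊢
      omega)
    (by
      intro a ha b hb h
      have e1 := hq1 a ha
      have e2 := hq1 b hb
      have e3 := hq2 a ha
      have e4 := hq2 b hb
      refine t.iT ha hb ?_
      simp only at h ⊢
      omega)
    (by
      intro a ha b hb h
      have e1 := hq1 a ha
      have e2 := hq1 b hb
      have e3 := hq2 a ha
      have e4 := hq2 b hb
      refine t.iS ha hb ?_
      simp only at h ⊢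
      omega)
    (by
      intro q hq
      have e1 := hq1 q hq
      omega)
    (by
      intro q hq
      have e1 := hq2 q hq
      omega)
    (by
      intro p q hpq hle
      have h1 : -γ ≤ p + q ∧ p + q ≤ γ ∧ -γ ≤ q - p ∧ q - p ≤ γ := by
        rcases abs_cases p with h1 | h1 <;> rcases abs_cases q with h2 | h2 <;> omega
      have hx : γ + p + q ∈ X := hX _ (by omega) (by omega) (by omega)
      have hy : γ + q - p ∈ Y := hY _ (by omega) (by omega) (by omega)
      rcases t.cov _ hx _ hy with h | h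
      · left
        obtain ⟨r, hr, hr'⟩ := (t.dT _).1 h
        have e1 := hq1 r hr
        have e2 := hq2 r hr
        refine ⟨r, hr, ?_⟩
        omega
      · right
        obtain ⟨r, hr, hr'⟩ := (t.dS _).1 h
        have e1 := hq1 r hr
        have e2 := hq2 r hr
        refine ⟨r, hr, ?_⟩
        omega)
  omega

/-- The natural configuration with odd step is impossible. -/
theorem Tight.k1 (t : Tight γ δ D X Y T S) {k : ℤ} (hk : 0 < k) (hodd : ¬ (2 : ℤ) ∣ k) (r : ℕ)
    (hr : 1 ≤ r) (hγ : γ = 2 * r + 1) (hT : ∀ a ∈ T, a ∈ mult k r)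
    (hS : ∀ a ∈ S, a - δ ∈ mult k r) : False := by
  obtain ⟨h, hh⟩ := t.deven
  refine kill D (fun q => q.1 - h) (fun q => q.2 - h) ?_ ?_ ?_ ?_ hk hodd r hr
    (by have := t.cD; omega) ?_ ?_
  · intro a ha b hb hab
    refine t.iX ha hb ?_
    simp only at hab ⊢
    omega
  · intro a ha b hb hab
    refine t.iY ha hb ?_
    simp only at hab ⊢
    omega
  · intro a ha b hb hab
    refine t.iT ha hb ?_
    simp only at hab ⊢
    omega
  · intro a ha b hb hab
    refine t.iS ha hb ?_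
    simp only at hab ⊢
    omega
  · intro q hq
    have := hT _ ((t.dT _).2 ⟨q, hq, rfl⟩)
    rwa [sub_sub_sub_cancel_right]
  · intro q hq
    have := hS _ ((t.dS _).2 ⟨q, hq, rfl⟩)
    rw [show q.1 - h + (q.2 - h) = q.1 + q.2 - δ by omega]
    exact this

/-- The exceptional configuration is impossible. -/
theorem Tight.k2 (t : Tight γ δ D X Y T S) {d F : ℤ} (hd : 0 < d) (hodd : ¬ (2 : ℤ) ∣ d)
    (r : ℕ) (hr : 1 ≤ r) (hγ : γ = 2 * r + 3) (hF : F = δ - (r + 1) * d)
    (hT : ∀ a ∈ T, a = F ∨ a = -F ∨ a ∈ mult d r)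
    (hS : ∀ a ∈ S, a - δ = F ∨ a - δ = -F ∨ a - δ ∈ mult d r)
    (hX : ∀ j : ℤ, 0 ≤ j → j ≤ r + 1 → j * d ∈ X ∧ δ - j * d ∈ X) : False := by
  classical
  obtain ⟨h, hh⟩ := t.deven
  set D' := D.filter (fun q => q.1 - q.2 ≠ F ∧ q.1 - q.2 ≠ -F) with hD'
  have hsub : D' ⊆ D := filter_subset _ _
  have hT' : ∀ q ∈ D', q.1 - q.2 ∈ mult d r := by
    intro q hq
    rw [hD', mem_filter] at hq
    rcases hT _ ((t.dT _).2 ⟨q, hq.1, rfl⟩) with h1 | h1 | h1
    · exact absurd h1 hq.2.1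
    · exact absurd h1 hq.2.2
    · exact h1
  have hpar : ∀ a b : ℤ, 2 * a = b * d → ∃ i, b = 2 * i ∧ a = i * d := by
    intro a b hab
    have : (2 : ℤ) ∣ b := by
      have h2 : (2 : ℤ) ∣ b * d := ⟨a, hab.symm⟩
      rcases Int.prime_two.dvd_or_dvd h2 with h | h
      · exact h
      · exact absurd h hodd
    obtain ⟨c, rfl⟩ := this
    exact ⟨c, rfl, by linarith⟩
  have hS' : ∀ q ∈ D', q.1 + q.2 - δ ∈ mult d r := by
    intro q hq
    have hqD := hsub hq
    obtain ⟨j, hj1, hj2, hj⟩ := mem_mult.1 (hT' q hq)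
    rcases hS _ ((t.dS _).2 ⟨q, hqD, rfl⟩) with h1 | h1 | h1
    · exfalso
      obtain ⟨i, hi1, hi2⟩ := hpar (δ - q.1) (r + 1 - j) (by
        rw [hF] at h1
        linear_combination (-1) * h1 - hj)
      have := (hX i (by omega) (by omega)).2
      rw [← hi2, sub_sub_cancel] at this
      exact t.dX q hqD this
    · exfalso
      obtain ⟨i, hi1, hi2⟩ := hpar q.1 (r + 1 + j) (by
        rw [hF] at h1
        linear_combination h1 + hj)
      have := (hX i (by omega) (by omega)).1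
      rw [← hi2] at this
      exact t.dX q hqD this
    · exact h1
  have hT'i : Set.InjOn (fun q : ℤ × ℤ => q.1 - q.2) D' := t.iT.mono (by exact_mod_cast hsub)
  have c1 : D'.card ≤ 2 * r + 1 := by
    rw [← card_mult hd r, ← card_image_of_injOn hT'i]
    apply card_le_card
    intro a ha
    rw [mem_image] at ha
    obtain ⟨q, hq, rfl⟩ := ha
    exact hT' q hq
  have c2 : D.card ≤ D'.card + 2 := by
    have h1 : D ⊆ D' ∪ (D.filter (fun q => q.1 - q.2 = F) ∪ D.filter (fun q => q.1 - q.2 = -F)) := by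
      intro q hq
      rw [mem_union, mem_union, hD', mem_filter, mem_filter, mem_filter]
      by_cases h1 : q.1 - q.2 = F
      · exact Or.inr (Or.inl ⟨hq, h1⟩)
      · by_cases h2 : q.1 - q.2 = -F
        · exact Or.inr (Or.inr ⟨hq, h2⟩)
        · exact Or.inl ⟨hq, h1, h2⟩
    have h2 := card_le_card h1
    have h3 := card_union_le D'
      (D.filter (fun q => q.1 - q.2 = F) ∪ D.filter (fun q => q.1 - q.2 = -F))
    have h4 := card_union_le (D.filter (fun q => q.1 - q.2 = F))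
      (D.filter (fun q => q.1 - q.2 = -F))
    have h5 : ∀ c : ℤ, (D.filter (fun q => q.1 - q.2 = c)).card ≤ 1 := by
      intro c
      rw [card_le_one]
      intro a ha b hb
      rw [mem_filter] at ha hb
      exact t.iT ha.1 hb.1 (by simp only; rw [ha.2, hb.2])
    have h6 := h5 F
    have h7 := h5 (-F)
    omega
  have hcD := t.cD
  refine kill D' (fun q => q.1 - h) (fun q => q.2 - h) ?_ ?_ ?_ ?_ hd hodd r hr
    (by omega) ?_ ?_
  · intro a ha b hb hab
    refine t.iX (hsub ha) (hsub hb) ?_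
    simp only at hab ⊢
    omega
  · intro a ha b hb hab
    refine t.iY (hsub ha) (hsub hb) ?_
    simp only at hab ⊢
    omega
  · intro a ha b hb hab
    refine t.iT (hsub ha) (hsub hb) ?_
    simp only at hab ⊢
    omega
  · intro a ha b hb hab
    refine t.iS (hsub ha) (hsub hb) ?_
    simp only at hab ⊢
    omega
  · intro q hq
    have := hT' _ hq
    rwa [sub_sub_sub_cancel_right]
  · intro q hq
    have := hS' _ hq
    rw [show q.1 - h + (q.2 - h) = q.1 + q.2 - δ by omega]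
    exact this

end Pool.Agent.J4.H36.Queens
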