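import Pool.Agent.J4.H36.Queens.Tight

set_option autoImplicit false

namespace Pool.Agent.J4.H36.Queens

open Finset

/-- The gap conditions. -/
structure Gap (δ g : ℤ) (X Y : Finset ℤ) : Prop where
  gpos : 0 < g
  gX : ∀ x ∈ X, 0 < x → g ≤ x
  gX' : ∀ x ∈ X, x < δ → x ≤ δ - g
  gY : ∀ y ∈ Y, 0 < y → g ≤ y
  gY' : ∀ y ∈ Y, y < δ → y ≤ δ - g

theorem Gap.swap {δ g : ℤ} {X Y : Finset ℤ} (G : Gap δ g X Y) : Gap δ g Y X :=
  ⟨G.gpos, G.gY, G.gY', G.gX, G.gX'⟩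

theorem Gap.refl {δ g : ℤ} {X Y : Finset ℤ} (G : Gap δ g X Y) : Gap δ g (rf δ X) Y where
  gpos := G.gpos
  gX := by
    intro x hx h
    have := G.gX' _ (mem_rf.1 hx) (by omega)
    omega
  gX' := by
    intro x hx h
    have := G.gX _ (mem_rf.1 hx) (by omega)
    omega
  gY := G.gY
  gY' := G.gY'

theorem Gap.reflY {δ g : ℤ} {X Y : Finset ℤ} (G : Gap δ g X Y) : Gap δ g X (rf δ Y) :=
  G.swap.refl.swap

variable {γ δ g : ℤ} {D : Finset (ℤ × ℤ)} {X Y T S : Finset ℤ}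

theorem Tight.mX_of_T (t : Tight γ δ D X Y T S) {a : ℤ} (ha : a ∈ T) (h0 : 0 ≤ a) : a ∈ X :=
  (t.xn a h0 (t.Tb a ha).2.le).2 (Or.inl ha)

theorem Tight.mX_of_S (t : Tight γ δ D X Y T S) {a : ℤ} (ha : a ∈ S) (h0 : a ≤ δ) : a ∈ X :=
  (t.xn a (t.Sb a ha).1.le h0).2 (Or.inr ha)

theorem Tight.mY_of_T (t : Tight γ δ D X Y T S) {a : ℤ} (ha : -a ∈ T) (h0 : 0 ≤ a) : a ∈ Y :=
  (t.yn a h0 (by have := t.Tb _ ha; omega)).2 (Or.inl ha)

theorem Tight.mY_of_S (t : Tight γ δ D X Y T S) {a : ℤ} (ha : a ∈ S) (h0 : a ≤ δ) : a ∈ Y :=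
  (t.yn a (t.Sb a ha).1.le h0).2 (Or.inr ha)

theorem Tight.nTS (t : Tight γ δ D X Y T S) {a : ℤ} (ha : a ∈ T) (hs : a ∈ S) : False :=
  t.xn' a (t.Sb a hs).1.le (t.Tb a ha).2.le ⟨ha, hs⟩

/-- The first near relation, one step. -/
theorem Tight.M1 (t : Tight γ δ D X Y T S) (G : Gap δ g X Y) (hg : g ∈ Y) {s : ℤ} (hs : s ∈ S)
    (hsd : s ≤ δ) (hn : s - g ∉ T) : (s = δ ∧ g + δ ∈ S) ∨ (s + g ∈ S ∧ s + g ≤ δ ∧ s ∉ T) := by
  have hx := t.mX_of_S hs hsd
  rcases t.cov s hx g hg with h | h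
  · exact absurd h hn
  · rcases lt_or_ge s δ with h1 | h1
    · have := G.gX' s hx h1
      exact Or.inr ⟨h, by omega, fun h' => t.nTS h' hs⟩
    · have : s = δ := le_antisymm hsd h1
      subst this
      exact Or.inl ⟨rfl, by rw [add_comm]; exact h⟩

theorem Tight.M2 (t : Tight γ δ D X Y T S) (G : Gap δ g X Y) (hg : g ∈ Y) {a : ℤ} (ha : a ∈ T)
    (h0 : 0 ≤ a) (hn : a + g ∉ S) : (a = 0 ∧ -g ∈ T) ∨ (a - g ∈ T ∧ 0 ≤ a - g ∧ a ∉ S) := by
  have hx := t.mX_of_T ha h0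
  rcases t.cov a hx g hg with h | h
  · rcases lt_or_ge 0 a with h1 | h1
    · have := G.gX a hx h1
      exact Or.inr ⟨h, by omega, fun h' => t.nTS ha h'⟩
    · have : a = 0 := le_antisymm h1 h0
      subst this
      exact Or.inl ⟨rfl, by rw [zero_sub] at h; exact h⟩
  · exact absurd h hn

theorem Tight.M1iter (t : Tight γ δ D X Y T S) (G : Gap δ g X Y) (hg : g ∈ Y) :
    ∀ N : ℕ, ∀ s : ℤ, s ∈ S → s ≤ δ → δ ≤ s + N → s - g ∉ T →
      g + δ ∈ S ∧ ∃ n : ℕ, s = δ - n * g ∧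
        ∀ j : ℕ, j ≤ n → (δ - j * g ∈ S ∧ δ - j * g - g ∉ T) := by
  intro N
  induction N with
  | zero =>
    intro s hs hsd h1 hn
    have hsδ : s = δ := by push_cast at h1; omega
    subst hsδ
    rcases t.M1 G hg hs hsd hn with ⟨_, h⟩ | ⟨_, h, _⟩
    · refine ⟨h, 0, by simp, ?_⟩
      intro j hj
      obtain rfl : j = 0 := by omega
      simp only [Nat.cast_zero, zero_mul, sub_zero]
      exact ⟨hs, hn⟩
    · have := G.gpos
      omega
  | succ N ih =>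
    intro s hs hsd h1 hn
    have hg0 := G.gpos
    rcases t.M1 G hg hs hsd hn with ⟨h2, h⟩ | ⟨h, h', h''⟩
    · subst h2
      refine ⟨h, 0, by simp, ?_⟩
      intro j hj
      obtain rfl : j = 0 := by omega
      simp only [Nat.cast_zero, zero_mul, sub_zero]
      exact ⟨hs, hn⟩
    · obtain ⟨k1, n, k2, k3⟩ := ih (s + g) h h' (by push_cast at h1; omega)
        (by rwa [add_sub_cancel_right])
      refine ⟨k1, n + 1, by push_cast; linarith, ?_⟩
      intro j hj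
      rcases Nat.lt_or_ge j (n + 1) with hj' | hj'
      · exact k3 j (by omega)
      · obtain rfl : j = n + 1 := by omega
        have : δ - ((n + 1 : ℕ) : ℤ) * g = s := by push_cast; linarith
        rw [this]
        exact ⟨hs, hn⟩

theorem Tight.M2iter (t : Tight γ δ D X Y T S) (G : Gap δ g X Y) (hg : g ∈ Y) :
    ∀ N : ℕ, ∀ a : ℤ, a ∈ T → 0 ≤ a → a ≤ N → a + g ∉ S →
      -g ∈ T ∧ ∃ n : ℕ, a = n * g ∧
        ∀ j : ℕ, j ≤ n → ((j : ℤ) * g ∈ T ∧ (j : ℤ) * g + g ∉ S) := by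
  intro N
  induction N with
  | zero =>
    intro a ha h0 h1 hn
    have haz : a = 0 := by push_cast at h1; omega
    subst haz
    rcases t.M2 G hg ha h0 hn with ⟨_, h⟩ | ⟨_, h, _⟩
    · refine ⟨h, 0, by simp, ?_⟩
      intro j hj
      obtain rfl : j = 0 := by omega
      simp only [Nat.cast_zero, zero_mul]
      exact ⟨ha, hn⟩
    · have := G.gpos
      omega
  | succ N ih =>
    intro a ha h0 h1 hn
    have hg0 := G.gpos
    rcases t.M2 G hg ha h0 hn with ⟨h2, h⟩ | ⟨h, h', h''⟩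
    · subst h2
      refine ⟨h, 0, by simp, ?_⟩
      intro j hj
      obtain rfl : j = 0 := by omega
      simp only [Nat.cast_zero, zero_mul]
      exact ⟨ha, hn⟩
    · obtain ⟨k1, n, k2, k3⟩ := ih (a - g) h h' (by push_cast at h1; omega)
        (by rwa [sub_add_cancel])
      refine ⟨k1, n + 1, by push_cast; linarith, ?_⟩
      intro j hj
      rcases Nat.lt_or_ge j (n + 1) with hj' | hj'
      · exact k3 j (by omega)
      · obtain rfl : j = n + 1 := by omega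
        have : ((n + 1 : ℕ) : ℤ) * g = a := by push_cast; linarith
        rw [this]
        exact ⟨ha, hn⟩

/-- Chain form of the first relation. -/
theorem Tight.chainS (t : Tight γ δ D X Y T S) (G : Gap δ g X Y) (hg : g ∈ Y) {s : ℤ}
    (hs : s ∈ S) (hsd : s ≤ δ) (hn : s - g ∉ T) :
      g + δ ∈ S ∧ ∃ n : ℕ, s = δ - n * g ∧
        ∀ j : ℕ, j ≤ n → (δ - j * g ∈ S ∧ δ - j * g - g ∉ T) :=
  t.M1iter G hg (δ - s).toNat s hs hsd (by omega) hn

theorem Tight.chainT (t : Tight γ δ D X Y T S) (G : Gap δ g X Y) (hg : g ∈ Y) {a : ℤ}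
    (ha : a ∈ T) (h0 : 0 ≤ a) (hn : a + g ∉ S) :
      -g ∈ T ∧ ∃ n : ℕ, a = n * g ∧
        ∀ j : ℕ, j ≤ n → ((j : ℤ) * g ∈ T ∧ (j : ℤ) * g + g ∉ S) :=
  t.M2iter G hg a.toNat a ha h0 (by omega) hn

/-- The two end types of the row `g` agree. -/
theorem Tight.type (t : Tight γ δ D X Y T S) (G : Gap δ g X Y) (hg : g ∈ Y) :
    -g ∈ T ↔ g + δ ∈ S := by
  have hg0 := G.gpos
  have hgδ : g ≤ δ := (t.Yb g hg).2
  obtain ⟨k1, _, k3, _⟩ := t.halves
  set A := T.filter (fun a => 0 ≤ a) with hA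
  set L := S.filter (fun a => a ≤ δ) with hL
  constructor
  · intro h1
    by_contra h2
    have hgS : g ∉ S := fun h => t.yn' g hg0.le hgδ ⟨h1, h⟩
    have hsub : L.image (fun s => s - g) ⊆ A.erase 0 := by
      intro x hx
      rw [mem_image] at hx
      obtain ⟨s, hs, rfl⟩ := hx
      rw [hL, mem_filter] at hs
      have hT : s - g ∈ T := by
        by_contra hn
        exact h2 (t.chainS G hg hs.1 hs.2 hn).1
      have hsX := t.mX_of_S hs.1 hs.2
      have := G.gX s hsX (t.Sb s hs.1).1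
      rw [mem_erase, hA, mem_filter]
      refine ⟨?_, hT, by omega⟩
      intro h0
      apply hgS
      rw [show g = s by omega]
      exact hs.1
    have c1 := card_le_card hsub
    have h0A : (0 : ℤ) ∈ A := by rw [hA, mem_filter]; exact ⟨t.T0, le_rfl⟩
    rw [card_image_of_injective _ (sub_left_injective), card_erase_of_mem h0A] at c1
    have : 0 < A.card := card_pos.2 ⟨0, h0A⟩
    omega
  · intro h1
    by_contra h2
    have hgT : δ - g ∉ T := fun h => t.yf' g hg0.le hgδ ⟨h, h1⟩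
    have hsub : A.image (fun s => s + g) ⊆ L.erase δ := by
      intro x hx
      rw [mem_image] at hx
      obtain ⟨a, ha, rfl⟩ := hx
      rw [hA, mem_filter] at ha
      have hS : a + g ∈ S := by
        by_contra hn
        exact h2 (t.chainT G hg ha.1 ha.2 hn).1
      have haX := t.mX_of_T ha.1 ha.2
      have := G.gX' a haX (t.Tb a ha.1).2
      rw [mem_erase, hL, mem_filter]
      refine ⟨?_, hS, by omega⟩
      intro h0
      apply hgT
      rw [show δ - g = a by omega]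
      exact ha.1
    have c1 := card_le_card hsub
    have h0A : δ ∈ L := by rw [hL, mem_filter]; exact ⟨t.Sd, le_rfl⟩
    rw [card_image_of_injective _ (add_left_injective g), card_erase_of_mem h0A] at c1
    have : 0 < L.card := card_pos.2 ⟨δ, h0A⟩
    omega

theorem Tight.gX (t : Tight γ δ D X Y T S) (G : Gap δ g X Y) (hg : g ∈ Y) :
    g ∈ X ∧ δ - g ∈ X := by
  have hg0 := G.gpos
  have hgδ : g ≤ δ := (t.Yb g hg).2
  have ht := t.type G hg
  by_cases h : -g ∈ T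
  · refine ⟨(t.xf g hg0.le hgδ).2 (Or.inr (ht.1 h)),
      (t.xf _ (by omega) (by omega)).2 (Or.inl ?_)⟩
    rw [show δ - g - δ = -g by ring]
    exact h
  · have h2 : g + δ ∉ S := fun h' => h (ht.2 h')
    have e1 : g ∈ S := ((t.yn g hg0.le hgδ).1 hg).resolve_left h
    have e2 : δ - g ∈ T := ((t.yf g hg0.le hgδ).1 hg).resolve_right h2
    exact ⟨t.mX_of_S e1 hgδ, t.mX_of_T e2 (by omega)⟩

/-- All gaps and all types agree. -/
structure Std (γ δ g : ℤ) (D : Finset (ℤ × ℤ)) (X Y T S : Finset ℤ) : Prop where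
  t : Tight γ δ D X Y T S
  G : Gap δ g X Y
  x1 : g ∈ X
  x2 : δ - g ∈ X
  y1 : g ∈ Y
  y2 : δ - g ∈ Y

theorem Tight.std (t : Tight γ δ D X Y T S) (G : Gap δ g X Y) (hg : g ∈ Y) :
    Std γ δ g D X Y T S := by
  have h1 := t.gX G hg
  have h2 := t.swap.gX G.swap h1.1
  exact ⟨t, G, h1.1, h1.2, hg, h2.2⟩

theorem Std.swap (s : Std γ δ g D X Y T S) : Std γ δ g (swD D) Y X (ng T) S :=
  ⟨s.t.swap, s.G.swap, s.y1, s.y2, s.x1, s.x2⟩

theorem Std.refl (s : Std γ δ g D X Y T S) :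
    Std γ δ g (rfD δ D) (rf δ X) Y (rf δ S) (rf δ T) :=
  ⟨s.t.refl, s.G.refl, mem_rf.2 s.x2, mem_rf.2 (by rw [sub_sub_cancel]; exact s.x1), s.y1, s.y2⟩

theorem Std.reflY (s : Std γ δ g D X Y T S) :
    Std γ δ g (swD (rfD δ (swD D))) X (rf δ Y) (ng (rf δ S)) (rf δ (ng T)) :=
  s.swap.refl.swap

theorem Std.gle (s : Std γ δ g D X Y T S) : g ≤ δ := (s.t.Yb g s.y1).2

/-- All four types agree. -/
theorem Std.types (s : Std γ δ g D X Y T S) :
    (-g ∈ T ↔ g ∈ T) ∧ (g + δ ∈ S ↔ g ∈ T) ∧ (δ - g ∈ S ↔ g ∈ T) := by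
  have h1 := s.t.type s.G s.y1
  have h2 := s.swap.t.type s.swap.G s.swap.y1
  have h3 := s.reflY.t.type s.reflY.G s.reflY.y1
  rw [mem_ng, neg_neg] at h2
  rw [mem_ng, neg_neg, mem_rf, mem_rf, mem_ng, show -(δ - (g + δ)) = g by ring] at h3
  exact ⟨h1.trans h2.symm, h2.symm, h3⟩

end Pool.Agent.J4.H36.Queens
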