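import Pool.Agent.J4.H36.Queens.ZEnd

set_option autoImplicit false

namespace Pool.Agent.J4.H36.Queens

open Finset

variable {γ δ g : ℤ} {D : Finset (ℤ × ℤ)} {X Y T S : Finset ℤ}

/-- The first case: the row `2g` is free. -/
structure Pc (γ δ g : ℤ) (D : Finset (ℤ × ℤ)) (X Y T S : Finset ℤ) : Prop
    extends Std γ δ g D X Y T S where
  gT : g ∈ T
  y3 : 2 * g ∈ Y

theorem Pc.gS (z : Pc γ δ g D X Y T S) : g ∉ S := fun h => z.t.nTS z.gT h

theorem Pc.dgS (z : Pc γ δ g D X Y T S) : δ - g ∈ S := z.toStd.types.2.2.2 z.gT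

theorem Pc.dgT (z : Pc γ δ g D X Y T S) : δ - g ∉ T := fun h => z.t.nTS h z.dgS

theorem Pc.R2 (z : Pc γ δ g D X Y T S) {x : ℤ} (hx : x ∈ X) (h0 : x ≠ 0) (h1 : x ≠ g)
    (h2 : x ≠ δ - g) (h3 : x ≠ δ) :
    (x - 2 * g ∈ T ∧ 0 ≤ x - 2 * g) ∨ (x + 2 * g ∈ S ∧ x + 2 * g ≤ δ) := by
  have t := z.t
  have hg0 := z.G.gpos
  have hb := t.Xb x hx
  have hy := t.Yb _ z.y3
  have e1 := z.G.gX x hx (by omega)
  have e2 := z.G.gX' x hx (by omega)
  rcases t.cov x hx _ z.y3 with h | h
  · left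
    refine ⟨h, ?_⟩
    by_contra hn
    have h4 : 2 * g - x ∈ Y := t.mY_of_T (by rw [neg_sub]; exact h) (by omega)
    have := z.G.gY _ h4 (by omega)
    omega
  · right
    refine ⟨h, ?_⟩
    by_contra hn
    have h4 : x + 2 * g - δ ∈ Y :=
      (t.yf _ (by omega) (by omega)).2 (Or.inr (by rw [sub_add_cancel]; exact h))
    have := z.G.gY _ h4 (by omega)
    omega

/-- Structure with explicit chains. -/
structure Ps (γ δ g : ℤ) (D : Finset (ℤ × ℤ)) (X Y T S : Finset ℤ) (p : ℕ) (P : Finset ℤ) :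
    Prop extends Pc γ δ g D X Y T S where
  p1 : 1 ≤ p
  c0 : 2 * ((p : ℤ) + P.card) = γ + 1
  hP : ∀ v, v ∈ P ↔ v ∈ T ∧ 0 ≤ v ∧ v + g ∈ S
  c1 : ∀ j : ℕ, j < p → ((j : ℤ) * g ∈ T ∧ (j : ℤ) * g + g ∉ S)
  c2 : ∀ j : ℕ, j < p → (δ - j * g ∈ S ∧ δ - j * g - g ∉ T)
  c3 : ∀ a ∈ T, 0 ≤ a → (a + g ∈ S ∨ ∃ j : ℕ, j < p ∧ a = j * g)
  c4 : ∀ s ∈ S, s ≤ δ → (s - g ∈ T ∨ ∃ j : ℕ, j < p ∧ s = δ - j * g)

theorem Pc.toPs (z : Pc γ δ g D X Y T S) : ∃ p P, Ps γ δ g D X Y T S p P := by
  have t := z.t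
  have hg0 := z.G.gpos
  obtain ⟨k1, _, k3, _⟩ := t.halves
  set C1 := T.filter (fun a => 0 ≤ a ∧ a + g ∉ S) with hC1
  set C2 := S.filter (fun s => s ≤ δ ∧ s - g ∉ T) with hC2
  set P := T.filter (fun a => 0 ≤ a ∧ a + g ∈ S) with hP
  have m1 := chain_card C1 hg0 (by
    rw [hC1, mem_filter]
    exact ⟨t.T0, le_rfl, by rw [zero_add]; exact z.gS⟩) (by
    intro i hi
    rw [hC1, mem_filter] at hi
    obtain ⟨_, n, hn1, hn2⟩ := t.chainT z.G z.y1 hi.1 hi.2.1 hi.2.2
    refine ⟨n, hn1, ?_⟩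
    intro j hj
    rw [hC1, mem_filter]
    exact ⟨(hn2 j hj).1, by positivity, (hn2 j hj).2⟩)
  have m2 := chain_card (rf δ C2) hg0 (by
    rw [mem_rf, hC2, mem_filter, sub_zero]
    exact ⟨t.Sd, le_rfl, z.dgT⟩) (by
    intro i hi
    rw [mem_rf, hC2, mem_filter] at hi
    obtain ⟨_, n, hn1, hn2⟩ := t.chainS z.G z.y1 hi.1 hi.2.1 hi.2.2
    refine ⟨n, by linarith, ?_⟩
    intro j hj
    rw [mem_rf, hC2, mem_filter]
    have : 0 ≤ (j : ℤ) * g := by positivity
    exact ⟨(hn2 j hj).1, by linarith, (hn2 j hj).2⟩)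
  rw [card_rf] at m2
  have e1 : C1.card + P.card = (T.filter (fun a => 0 ≤ a)).card := by
    rw [← card_union_of_disjoint]
    · congr 1
      ext a
      rw [mem_union, hC1, hP, mem_filter, mem_filter, mem_filter]
      constructor
      · rintro (h | h) <;> exact ⟨h.1, h.2.1⟩
      · rintro ⟨h, h'⟩
        by_cases h2 : a + g ∈ S
        · exact Or.inr ⟨h, h', h2⟩
        · exact Or.inl ⟨h, h', h2⟩
    · rw [disjoint_left]
      intro a ha hb
      rw [hC1, mem_filter] at ha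
      rw [hP, mem_filter] at hb
      exact ha.2.2 hb.2.2
  have e2 : C2.card + P.card = (S.filter (fun a => a ≤ δ)).card := by
    have : (P.image (fun a => a + g)).card = P.card :=
      card_image_of_injective _ (add_left_injective g)
    rw [← this, ← card_union_of_disjoint]
    · congr 1
      ext a
      rw [mem_union, hC2, mem_filter, mem_filter, mem_image]
      constructor
      · rintro (h | ⟨b, hb, rfl⟩)
        · exact ⟨h.1, h.2.1⟩
        · rw [hP, mem_filter] at hb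
          refine ⟨hb.2.2, ?_⟩
          have h1 := t.mX_of_T hb.1 hb.2.1
          have := z.G.gX' b h1 (t.Tb b hb.1).2
          omega
      · rintro ⟨h, h'⟩
        by_cases h2 : a - g ∈ T
        · right
          refine ⟨a - g, ?_, by ring⟩
          rw [hP, mem_filter]
          have h3 := z.G.gX a (t.mX_of_S h h') (t.Sb a h).1
          exact ⟨h2, by omega, by rw [sub_add_cancel]; exact h⟩
        · exact Or.inl ⟨h, h', h2⟩
    · rw [disjoint_left]
      intro a ha hb
      rw [hC2, mem_filter] at ha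
      rw [mem_image] at hb
      obtain ⟨b, hb, rfl⟩ := hb
      rw [hP, mem_filter] at hb
      apply ha.2.2
      rw [add_sub_cancel_right]
      exact hb.1
  have e3 : C2.card = C1.card := by omega
  rw [e3] at m2
  refine ⟨C1.card, P, { z with p1 := ?_, c0 := ?_, hP := ?_, c1 := ?_, c2 := ?_, c3 := ?_, c4 := ?_ }⟩
  · apply card_pos.2
    refine ⟨0, ?_⟩
    rw [hC1, mem_filter]
    exact ⟨t.T0, le_rfl, by rw [zero_add]; exact z.gS⟩
  · omega
  · intro v
    rw [hP, mem_filter]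
  · intro j hj
    have := (m1 (j * g)).2 ⟨j, hj, rfl⟩
    rw [hC1, mem_filter] at this
    exact ⟨this.1, this.2.2⟩
  · intro j hj
    have := (m2 (j * g)).2 ⟨j, hj, rfl⟩
    rw [mem_rf, hC2, mem_filter] at this
    exact ⟨this.1, this.2.2⟩
  · intro a ha h0
    by_cases h1 : a + g ∈ S
    · exact Or.inl h1
    · right
      exact (m1 a).1 (by rw [hC1, mem_filter]; exact ⟨ha, h0, h1⟩)
  · intro s hs h0
    by_cases h1 : s - g ∈ T
    · exact Or.inl h1
    · right
      obtain ⟨j, hj, hj'⟩ := (m2 (δ - s)).1 (by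
        rw [mem_rf, sub_sub_cancel, hC2, mem_filter]; exact ⟨hs, h0, h1⟩)
      exact ⟨j, hj, by linarith⟩

variable {p : ℕ} {P : Finset ℤ}

theorem Ps.down (z : Ps γ δ g D X Y T S p P) {v : ℤ} (hv : v ∈ P) :
    v - 2 * g ∈ P ∨ v = p * g ∨ v = (p + 1) * g ∨ v = δ - (p + 1) * g := by
  have t := z.t
  have hg0 := z.G.gpos
  have hp1 := z.p1
  obtain ⟨hT, h0, hS⟩ := (z.hP v).1 hv
  have hv0 : v ≠ 0 := by
    rintro rfl
    rw [zero_add] at hS
    exact z.gS hS
  by_cases hvg : v = g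
  · right; left
    have : p = 1 := by
      by_contra hne
      have := (z.c1 1 (by omega)).2
      apply this
      rw [hvg] at hS
      simpa using hS
    rw [this, hvg]; simp
  · have hvd : v ≠ δ - g := fun h => z.dgT (by rwa [← h])
    rcases z.R2 (t.mX_of_T hT h0) hv0 hvg hvd (by have := (t.Tb v hT).2; omega) with
      ⟨h1, h2⟩ | ⟨h1, h2⟩
    · rcases z.c3 _ h1 h2 with h3 | ⟨j, hj, hj'⟩
      · exact Or.inl ((z.hP _).2 ⟨h1, h2, h3⟩)
      · right
        have hvj : v = ((j + 2 : ℕ) : ℤ) * g := by push_cast; linarith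
        have hj2 : ¬ j + 2 < p := by
          intro hlt
          apply (z.c1 _ hlt).2
          rw [← hvj]; exact hS
        have : j + 2 = p ∨ j + 2 = p + 1 := by omega
        rcases this with h | h
        · left; rw [hvj, h]
        · right; left; rw [hvj, h]; push_cast; ring
    · rcases z.c4 _ h1 h2 with h3 | ⟨j, hj, hj'⟩
      · exfalso
        rw [show v + 2 * g - g = v + g by ring] at h3
        exact t.nTS h3 hS
      · have hj2 : ¬ j + 1 < p := by
          intro hlt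
          apply (z.c2 _ hlt).2
          rw [show δ - ((j + 1 : ℕ) : ℤ) * g - g = v by push_cast; linarith]
          exact hT
        have : j + 1 = p := by omega
        right; right; right
        rw [← this]; push_cast; linarith

theorem Ps.up (z : Ps γ δ g D X Y T S p P) {v : ℤ} (hv : v ∈ P) :
    v + 2 * g ∈ P ∨ v = p * g ∨ v = δ - (p + 1) * g ∨ v = δ - (p + 2) * g := by
  have t := z.t
  have hg0 := z.G.gpos
  have hp1 := z.p1
  obtain ⟨hT, h0, hS⟩ := (z.hP v).1 hv
  have hv0 : v ≠ 0 := by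
    rintro rfl
    rw [zero_add] at hS
    exact z.gS hS
  have hvd : v ≠ δ - g := fun h => z.dgT (by rwa [← h])
  have hvX := t.mX_of_T hT h0
  have hvle := z.G.gX' v hvX (t.Tb v hT).2
  by_cases hvg : v + g = δ - g
  · right; right; left
    have : p = 1 := by
      by_contra hne
      apply (z.c2 1 (by omega)).2
      rw [show δ - ((1 : ℕ) : ℤ) * g - g = v by push_cast; linarith]
      exact hT
    rw [this]; push_cast; linarith
  · have hX : v + g ∈ X := t.mX_of_S hS (by omega)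
    rcases z.R2 hX (by omega) (by omega) hvg (by omega) with ⟨h1, h2⟩ | ⟨h1, h2⟩
    · rcases z.c3 _ h1 h2 with h3 | ⟨j, hj, hj'⟩
      · exfalso
        rw [show v + g - 2 * g + g = v by ring] at h3
        exact t.nTS hT h3
      · have hvj : v = ((j + 1 : ℕ) : ℤ) * g := by push_cast; linarith
        have hj2 : ¬ j + 1 < p := by
          intro hlt
          apply (z.c1 _ hlt).2
          rw [← hvj]; exact hS
        have : j + 1 = p := by omega
        right; left
        rw [hvj, this]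
    · rcases z.c4 _ h1 h2 with h3 | ⟨j, hj, hj'⟩
      · left
        rw [z.hP]
        refine ⟨?_, by omega, ?_⟩
        · rwa [show v + g + 2 * g - g = v + 2 * g by ring] at h3
        · rwa [show v + 2 * g + g = v + g + 2 * g by ring]
      · have hj2 : ¬ j + 2 < p := by
          intro hlt
          apply (z.c2 _ hlt).2
          rw [show δ - ((j + 2 : ℕ) : ℤ) * g - g = v by push_cast; linarith]
          exact hT
        have : j + 2 = p ∨ j + 2 = p + 1 := by omega
        rcases this with h | h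
        · right; right; left
          rw [← h]; push_cast; linarith
        · right; right; right
          have h' : (p : ℤ) = j + 1 := by omega
          rw [h']; linarith

theorem Ps.cong (z : Ps γ δ g D X Y T S p P) : ∀ N : ℕ, ∀ v ∈ P, v ≤ N → g ∣ v ∨ g ∣ δ - v := by
  have hg0 := z.G.gpos
  intro N
  induction N with
  | zero =>
    intro v hv h1
    obtain ⟨hT, h0, hS⟩ := (z.hP v).1 hv
    have : v = 0 := by push_cast at h1; omega
    rw [this]; exact Or.inl (dvd_zero g)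
  | succ N ih =>
    intro v hv h1
    rcases z.down hv with h | h | h | h
    · rcases ih _ h (by push_cast at h1; omega) with ⟨c, hc⟩ | ⟨c, hc⟩
      · exact Or.inl ⟨c + 2, by linarith⟩
      · exact Or.inr ⟨c - 2, by linarith⟩
    · exact Or.inl ⟨p, by rw [h]; ring⟩
    · exact Or.inl ⟨p + 1, by rw [h]; ring⟩
    · exact Or.inr ⟨p + 1, by rw [h]; ring⟩

/-- Members of `X` when `g ∣ δ`. -/
theorem Ps.dvdX (z : Ps γ δ g D X Y T S p P) (hgd : g ∣ δ) {x : ℤ} (hx : x ∈ X) : g ∣ x := by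
  have t := z.t
  have hg0 := z.G.gpos
  have hPd : ∀ v ∈ P, g ∣ v := by
    intro v hv
    obtain ⟨hT, h0, hS⟩ := (z.hP v).1 hv
    rcases z.cong v.toNat v hv (by omega) with h | h
    · exact h
    · exact (dvd_sub_right hgd).1 h
  have hTd : ∀ a ∈ T, 0 ≤ a → g ∣ a := by
    intro a ha h0
    rcases z.c3 a ha h0 with h | ⟨j, _, hj⟩
    · exact hPd a ((z.hP a).2 ⟨ha, h0, h⟩)
    · exact ⟨j, by rw [hj]; ring⟩
  have hb := t.Xb x hx
  rcases (t.xn x hb.1 hb.2).1 hx with h | h
  · exact hTd x h hb.1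
  · rcases z.c4 x h hb.2 with h1 | ⟨j, _, hj⟩
    · have h2 := z.G.gX x hx (t.Sb x h).1
      obtain ⟨c, hc⟩ := hTd _ h1 (by omega)
      exact ⟨c + 1, by linarith⟩
    · obtain ⟨c, hc⟩ := hgd
      exact ⟨c - j, by rw [hj, hc]; ring⟩

theorem Pc.even (z : Pc γ δ g D X Y T S) (hgd : g ∣ δ) :
    g = 1 ∨ (g = 2 ∧ δ = 2 * γ ∧ ∀ x, 0 ≤ x → x ≤ δ → 2 ∣ x → x ∈ X) := by
  have t := z.t
  have hg0 := z.G.gpos
  have hd := t.dpos
  have hle := t.dle
  obtain ⟨p, P, z'⟩ := z.toPs
  have hX : ∀ x ∈ X, g ∣ x := fun x hx => z'.dvdX hgd hx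
  obtain ⟨c, hc⟩ := hgd
  have hc0 : 0 < c := by
    by_contra hneg
    have : g * c ≤ 0 := mul_nonpos_of_nonneg_of_nonpos hg0.le (by omega)
    omega
  have hsub : X ⊆ (Icc 0 c).image (fun i => i * g) := by
    intro x hx
    obtain ⟨i, hi⟩ := hX x hx
    have hb := t.Xb x hx
    rw [mem_image]
    refine ⟨i, ?_, by linarith⟩
    rw [mem_Icc]
    constructor
    · by_contra hneg
      have : g * i < 0 := mul_neg_of_pos_of_neg hg0 (by omega)
      omega
    · have h1 : i * g ≤ c * g := by linarith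
      exact le_of_mul_le_mul_right h1 hg0
  have hci : ((Icc 0 c).image (fun i => i * g)).card = (c + 1).toNat := by
    rw [card_image_of_injective _ (mul_left_injective₀ hg0.ne'), Int.card_Icc]
    simp
  have c1 := card_le_card hsub
  rw [hci] at c1
  have c2 := t.cX
  have hγc : γ ≤ c := by omega
  by_cases h1 : g = 1
  · exact Or.inl h1
  · right
    have h3 : g * γ ≤ g * c := mul_le_mul_of_nonneg_left hγc hg0.le
    have hg2 : g = 2 := by
      by_contra hne
      have : 3 * γ ≤ g * γ := mul_le_mul_of_nonneg_right (by omega) (by omega)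
      omega
    subst hg2
    have hδ : δ = 2 * γ := by omega
    refine ⟨rfl, hδ, ?_⟩
    have heq := eq_of_subset_of_card_le hsub (by rw [hci]; omega)
    rintro x h0 h4 ⟨i, rfl⟩
    rw [heq, mem_image]
    exact ⟨i, by rw [mem_Icc]; omega, by ring⟩

end Pool.Agent.J4.H36.Queens
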