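import Pool.Agent.J4.H36.Queens.PSub

set_option autoImplicit false

namespace Pool.Agent.J4.H36.Queens

open Finset

variable {γ δ g : ℤ} {D : Finset (ℤ × ℤ)} {X Y T S : Finset ℤ}

theorem NF.memX {m : ℕ} {ca cs : ℤ} (n : NF δ g T S m ca cs) (t : Tight γ δ D X Y T S) (x : ℤ) :
    x ∈ X ↔ (∃ j : ℕ, j + 1 < m ∧ (x = j * g ∨ x = δ - j * g)) ∨ x = ca ∨ x = cs := by
  constructor
  · intro hx
    have hb := t.Xb x hx
    rcases (t.xn x hb.1 hb.2).1 hx with h | h
    · rcases (n.fa x).1 ⟨h, hb.1⟩ with ⟨j, hj, hj'⟩ | h'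
      · exact Or.inl ⟨j, hj, Or.inl hj'⟩
      · exact Or.inr (Or.inl h')
    · rcases (n.fs x).1 ⟨h, hb.2⟩ with ⟨j, hj, hj'⟩ | h'
      · exact Or.inl ⟨j, hj, Or.inr hj'⟩
      · exact Or.inr (Or.inr h')
  · rintro (⟨j, hj, h | h⟩ | h | h)
    · have := (n.fa x).2 (Or.inl ⟨j, hj, h⟩)
      exact t.mX_of_T this.1 this.2
    · have := (n.fs x).2 (Or.inl ⟨j, hj, h⟩)
      exact t.mX_of_S this.1 this.2
    · have := (n.fa x).2 (Or.inr h)
      exact t.mX_of_T this.1 this.2
    · have := (n.fs x).2 (Or.inr h)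
      exact t.mX_of_S this.1 this.2

/-- Size bound for the gap. -/
theorem Pc.mg (z : Pc γ δ g D X Y T S) {m : ℕ} (hm : γ = 2 * m - 1) (hm2 : 2 ≤ m) {ca cs : ℤ}
    (n : NF δ g T S m ca cs) : m * g ≤ δ ∧ g ≤ 3 := by
  have t := z.t
  have hg0 := z.G.gpos
  have key : m * g ≤ δ := by
    rcases n.opt with ⟨h1, h2⟩ | ⟨h1, h2⟩ | ⟨h1, h2⟩ | ⟨h1, h2⟩
    · have h3 := (n.fa ca).2 (Or.inr rfl)
      have h4 := z.G.gX' ca (t.mX_of_T h3.1 h3.2) (t.Tb ca h3.1).2
      rw [h1] at h4
      linarith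
    · have h3 := (n.fs cs).2 (Or.inr rfl)
      rw [h2] at h3
      exact h3.2
    · have h3 := (n.fa ca).2 (Or.inr rfl)
      rw [h1] at h3
      linarith [h3.2]
    · have h3 := (n.fs cs).2 (Or.inr rfl)
      have h5 : cs ≠ δ := by
        intro h6
        apply n.na 0 (by omega)
        rw [h1, ← h6, h2]; simp
      have h4 := z.G.gX' cs (t.mX_of_S h3.1 h3.2) (by have := h3.2; omega)
      rw [h2] at h4
      linarith
  refine ⟨key, ?_⟩
  by_contra hcon
  have h1 : (m : ℤ) * 4 ≤ m * g := mul_le_mul_of_nonneg_left (by omega) (by positivity)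
  have := t.dle
  omega

theorem Pc.main (z : Pc γ δ g D X Y T S) (h3 : 3 ≤ γ) : γ = 1 ∨ γ = 5 := by
  have t := z.t
  have hg0 := z.G.gpos
  have hle := t.dle
  have hge := t.dge
  have hev := t.deven
  obtain ⟨q1, q2, q3⟩ := z.toStd.types
  by_cases hgd2 : g = 2
  · -- all even lines
    subst hgd2
    have h1 := (z.even hev).resolve_left (by norm_num)
    have h4 : 2 * 2 ∈ X := h1.2.2 _ (by norm_num) (by omega) ⟨2, by norm_num⟩
    have z2 : Pc γ δ 2 (swD D) Y X (ng T) S :=
      { z.toStd.swap with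
        gT := by rw [mem_ng]; exact q1.2 z.gT
        y3 := h4 }
    have h2 := (z2.even hev).resolve_left (by norm_num)
    exact t.ap2 h1.2.1 h1.2.2 h2.2.2
  have hgd : g = 1 ∨ ¬ g ∣ δ := by
    by_cases h : g ∣ δ
    · left
      rcases z.even h with h1 | h1
      · exact h1
      · exact absurd h1.1 hgd2
    · exact Or.inr h
  obtain ⟨m, hm⟩ : ∃ m : ℕ, γ = 2 * m - 1 := by
    have := t.halves.1
    exact ⟨_, by linarith⟩
  have hm2 : 2 ≤ m := by omega
  obtain ⟨ca, cs, n1⟩ := z.nf h3 hm hgd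
  obtain ⟨hmg, hg3⟩ := z.mg hm hm2 n1
  have hg13 : g = 1 ∨ (g = 3 ∧ ¬ (3 : ℤ) ∣ δ) := by
    rcases hgd with h | h
    · exact Or.inl h
    · right
      have h1 : g ≠ 1 := by rintro rfl; exact h (one_dvd δ)
      have h2 : g = 3 := by omega
      subst h2
      exact ⟨rfl, h⟩
  by_cases hγ5 : γ = 5
  · exact Or.inr hγ5
  exfalso
  have hm4 : 4 ≤ m := by
    by_contra hcon
    have hmm : m = 2 := by omega
    subst hmm
    have hδ : δ = 6 := by omega
    subst hδ
    have hg1 : g = 1 := by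
      rcases hg13 with h | ⟨_, h⟩
      · exact h
      · exact absurd (by norm_num) h
    subst hg1
    have hsub : ({0, 1, 2, 5, 6} : Finset ℤ) ⊆ Y := by
      intro y hy
      simp only [mem_insert, mem_singleton] at hy
      rcases hy with rfl | rfl | rfl | rfl | rfl
      · exact t.Y0
      · exact z.y1
      · exact z.y3
      · exact z.y2
      · exact t.Yd
    have h1 := card_le_card hsub
    have h2 : ({0, 1, 2, 5, 6} : Finset ℤ).card = 5 := by decide
    have := t.cY
    omega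
  have b2 : (2 * g ∈ T ∧ 0 ≤ 2 * g) := (n1.fa _).2 (Or.inl ⟨2, by omega, by push_cast; ring⟩)
  have b3 : (δ - 2 * g ∈ S ∧ δ - 2 * g ≤ δ) :=
    (n1.fs _).2 (Or.inl ⟨2, by omega, by push_cast; ring⟩)
  have z2 : Pc γ δ g (swD D) Y X (ng T) S :=
    { z.toStd.swap with
      gT := by rw [mem_ng]; exact q1.2 z.gT
      y3 := t.mX_of_T b2.1 b2.2 }
  have z3 : Pc γ δ g (swD (rfD δ (swD D))) X (rf δ Y) (ng (rf δ S)) (rf δ (ng T)) :=
    { z.toStd.reflY with
      gT := by rw [mem_ng, mem_rf, show δ - -g = g + δ by ring]; exact q2.2 z.gT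
      y3 := by rw [mem_rf]; exact t.mY_of_S b3.1 b3.2 }
  have z4 : Pc γ δ g (swD (rfD δ D)) Y (rf δ X) (ng (rf δ S)) (rf δ T) :=
    { z.toStd.refl.swap with
      gT := by rw [mem_ng, mem_rf, show δ - -g = g + δ by ring]; exact q2.2 z.gT
      y3 := by rw [mem_rf]; exact t.mX_of_S b3.1 b3.2 }
  obtain ⟨ca2, cs2, n2⟩ := z2.nf h3 hm hgd
  obtain ⟨ca3, cs3, n3⟩ := z3.nf h3 hm hgd
  obtain ⟨ca4, cs4, n4⟩ := z4.nf h3 hm hgd
  have e2 : cs2 = cs := by
    rcases (n1.fs cs2).1 ((n2.fs cs2).2 (Or.inr rfl)) with ⟨j, hj, h⟩ | h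
    · exact absurd h (n2.ns j hj)
    · exact h
  have e3 : cs3 = δ - ca2 := by
    have h1 := (n3.fs cs3).2 (Or.inr rfl)
    rw [mem_rf] at h1
    rcases (n2.fa (δ - cs3)).1 ⟨h1.1, by have := h1.2; omega⟩ with ⟨j, hj, h⟩ | h
    · exact absurd (by linarith) (n3.ns j hj)
    · linarith
  have e4 : cs4 = δ - ca := by
    have h1 := (n4.fs cs4).2 (Or.inr rfl)
    rw [mem_rf] at h1
    rcases (n1.fa (δ - cs4)).1 ⟨h1.1, by have := h1.2; omega⟩ with ⟨j, hj, h⟩ | h
    · exact absurd (by linarith) (n4.ns j hj)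
    · linarith
  have e5 : ca4 = ca3 := by
    rcases (n3.fa ca4).1 ((n4.fa ca4).2 (Or.inr rfl)) with ⟨j, hj, h⟩ | h
    · exact absurd h (n4.na j hj)
    · exact h
  subst e2 e3 e4 e5
  -- membership of special elements
  have x1 := n1.memX t
  have x2 := n2.memX z2.t
  have x3 := n3.memX z3.t
  have x4 := n4.memX z4.t
  have o1 := n1.opt
  have o2 := n2.opt
  have o3 := n3.opt
  have o4 := n4.opt
  -- arithmetic separation
  have sep : ∀ j : ℤ, 0 ≤ j → j ≤ 2 * m → δ ≠ j * g := by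
    intro j h0 h1 h2
    rcases hg13 with rfl | ⟨rfl, h⟩
    · omega
    · exact h ⟨j, by linarith⟩
  have sepm : ∀ i j : ℤ, i ≠ j → i * g ≠ j * g := by
    intro i j h1 h2
    exact h1 (mul_right_cancel₀ hg0.ne' h2)
  -- m g is neither in the first nor the last block
  have nb1 : ∀ j : ℕ, j + 1 < m → ¬ ((m : ℤ) * g = j * g ∨ (m : ℤ) * g = δ - j * g) := by
    rintro j hj (h | h)
    · exact sepm m j (by omega) h
    · exact sep (m + j) (by omega) (by omega) (by linarith)
  have nb2 : ∀ j : ℕ, j + 1 < m → ¬ (δ - (m : ℤ) * g = j * g ∨ δ - (m : ℤ) * g = δ - j * g) := by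
    rintro j hj (h | h)
    · exact sep (m + j) (by omega) (by omega) (by linarith)
    · exact sepm m j (by omega) (by linarith)
  have s1 : (m : ℤ) * g ≠ (m - 1) * g := sepm _ _ (by omega)
  have s2 : (m : ℤ) * g ≠ δ - (m - 1) * g := fun h =>
    sep (m + (m - 1)) (by omega) (by omega) (by linarith)
  have s3 : (m : ℤ) * g ≠ δ - m * g := fun h =>
    sep (m + m) (by omega) (by omega) (by linarith)
  have s4 : ((m : ℤ) - 1) * g ≠ δ - (m - 1) * g := fun h =>
    sep ((m - 1) + (m - 1)) (by omega) (by omega) (by linarith)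
  have s5 : ((m : ℤ) - 1) * g ≠ δ - m * g := fun h =>
    sep ((m - 1) + m) (by omega) (by omega) (by linarith)
  have hnat : (ca = (m - 1) * g ∧ ca2 = (m - 1) * g ∧ ca4 = (m - 1) * g ∧
      cs2 = δ - (m - 1) * g) ∨
      (ca = δ - (m - 1) * g ∧ ca2 = δ - (m - 1) * g ∧ ca4 = δ - (m - 1) * g ∧
      cs2 = (m - 1) * g) := by
    rcases o1 with ⟨h1, h2⟩ | ⟨h1, h2⟩ | ⟨h1, h2⟩ | ⟨h1, h2⟩
    · left
      have c2 : ca2 = (m - 1) * g := by
        rcases o2 with ⟨k1, k2⟩ | ⟨k1, k2⟩ | ⟨k1, k2⟩ | ⟨k1, k2⟩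
        · exact k1
        · exact k1
        · exfalso
          have : (m : ℤ) * g ∈ X := (x3 _).2 (Or.inr (Or.inr (by rw [k1]; ring)))
          rcases (x1 _).1 this with ⟨j, hj, h⟩ | h | h
          · exact nb1 j hj h
          · rw [h1] at h; exact s1 h
          · rw [h2] at h; exact s2 h
        · exfalso
          rw [h2] at k2
          exact s4 k2.symm
      have c4 : ca4 = (m - 1) * g := by
        rcases o3 with ⟨k1, k2⟩ | ⟨k1, k2⟩ | ⟨k1, k2⟩ | ⟨k1, k2⟩
        · exact k1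
        · exact k1
        · exfalso
          have : δ - (m : ℤ) * g ∈ X := (x3 _).2 (Or.inr (Or.inl (by rw [k1])))
          rcases (x1 _).1 this with ⟨j, hj, h⟩ | h | h
          · exact nb2 j hj h
          · rw [h1] at h; exact s5 h.symm
          · rw [h2] at h; exact s1 (by linarith)
        · exfalso
          rw [c2] at k2
          exact s4 (by linarith)
      exact ⟨h1, c2, c4, h2⟩
    · exfalso
      have c2 : ca2 = (m - 1) * g := by
        rcases o2 with ⟨k1, k2⟩ | ⟨k1, k2⟩ | ⟨k1, k2⟩ | ⟨k1, k2⟩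
        · exact k1
        · exact k1
        · exfalso
          rw [h2] at k2
          exact s2 k2
        · exfalso
          rw [h2] at k2
          exact s1 k2
      have : (m : ℤ) * g ∈ X := (x1 _).2 (Or.inr (Or.inr (by rw [h2])))
      rcases (x3 _).1 this with ⟨j, hj, h⟩ | h | h
      · exact nb1 j hj h
      · rcases o3 with ⟨k1, k2⟩ | ⟨k1, k2⟩ | ⟨k1, k2⟩ | ⟨k1, k2⟩
        · rw [k1] at h; exact s1 h
        · rw [k1] at h; exact s1 h
        · rw [k1] at h; exact s3 h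
        · rw [k1] at h; exact s2 h
      · rw [c2] at h
        exact s2 h
    · exfalso
      have : (m : ℤ) * g ∈ Y := (x4 _).2 (Or.inr (Or.inr (by rw [h1]; ring)))
      rcases (x2 _).1 this with ⟨j, hj, h⟩ | h | h
      · exact nb1 j hj h
      · rcases o2 with ⟨k1, k2⟩ | ⟨k1, k2⟩ | ⟨k1, k2⟩ | ⟨k1, k2⟩
        · rw [k1] at h; exact s1 h
        · rw [k1] at h; exact s1 h
        · rw [k1] at h; exact s3 h
        · rw [k1] at h; exact s2 h
      · rw [h2] at h
        exact s2 h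
    · right
      have c2 : ca2 = δ - (m - 1) * g := by
        rcases o2 with ⟨k1, k2⟩ | ⟨k1, k2⟩ | ⟨k1, k2⟩ | ⟨k1, k2⟩
        · exfalso
          rw [h2] at k2
          exact s4 k2
        · exfalso
          rw [h2] at k2
          exact s1 k2.symm
        · exfalso
          rw [h2] at k2
          exact s4 k2
        · exact k1
      have c4 : ca4 = δ - (m - 1) * g := by
        rw [c2] at o3
        rcases o3 with ⟨k1, k2⟩ | ⟨k1, k2⟩ | ⟨k1, k2⟩ | ⟨k1, k2⟩
        · exfalso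
          exact s4 (by linarith)
        · exfalso
          exact s1 (by linarith)
        · exfalso
          exact s4 (by linarith)
        · exact k1
      exact ⟨h1, c2, c4, h2⟩
  have hgodd : ¬ (2 : ℤ) ∣ g := by
    rcases hg13 with rfl | ⟨rfl, _⟩ <;> norm_num
  rcases hnat with ⟨h1, h2, h4, h5⟩ | ⟨h1, h2, h4, h5⟩
  · -- natural
    obtain ⟨r, hr⟩ : ∃ r : ℕ, m = r + 1 := ⟨m - 1, by omega⟩
    have hr' : (m : ℤ) - 1 = r := by omega
    rw [hr'] at h1 h2 h4 h5
    refine t.k1 hg0 hgodd r (by omega) (by omega) ?_ ?_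
    · intro a ha
      rw [mem_mult]
      rcases le_total 0 a with h0 | h0
      · rcases (n1.fa a).1 ⟨ha, h0⟩ with ⟨j, hj, h⟩ | h
        · exact ⟨j, by omega, by omega, by rw [h]; ring⟩
        · exact ⟨r, by omega, le_rfl, by rw [h, h1]; ring⟩
      · rcases (n2.fa (-a)).1 ⟨mem_ng.2 (by rwa [neg_neg]), by omega⟩ with ⟨j, hj, h⟩ | h
        · exact ⟨-j, by omega, by omega, by linarith⟩
        · exact ⟨-r, le_rfl, by omega, by rw [h2] at h; linarith⟩
    · intro s hs
      rw [mem_mult]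
      rcases le_total s δ with h0 | h0
      · rcases (n1.fs s).1 ⟨hs, h0⟩ with ⟨j, hj, h⟩ | h
        · exact ⟨-j, by omega, by omega, by rw [h]; ring⟩
        · exact ⟨-r, le_rfl, by omega, by rw [h, h5]; ring⟩
      · rcases (n3.fa (s - δ)).1 ⟨by
          rw [mem_ng, mem_rf, show δ - -(s - δ) = s by ring]; exact hs, by omega⟩ with ⟨j, hj, h⟩ | h
        · exact ⟨j, by omega, by omega, by rw [h]; ring⟩
        · exact ⟨r, by omega, le_rfl, by rw [h, h4]; ring⟩
  · -- exceptional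
    obtain ⟨r, hr⟩ : ∃ r : ℕ, m = r + 2 := ⟨m - 2, by omega⟩
    have hr' : (m : ℤ) - 1 = r + 1 := by omega
    rw [hr'] at h1 h2 h4 h5
    refine t.k2 (d := g) (F := δ - (r + 1) * g) hg0 hgodd r (by omega) (by omega) rfl ?_ ?_ ?_
    · intro a ha
      rw [mem_mult]
      rcases le_total 0 a with h0 | h0
      · rcases (n1.fa a).1 ⟨ha, h0⟩ with ⟨j, hj, h⟩ | h
        · right; right; exact ⟨j, by omega, by omega, by rw [h]; ring⟩
        · left; rw [h, h1]
      · rcases (n2.fa (-a)).1 ⟨mem_ng.2 (by rwa [neg_neg]), by omega⟩ with ⟨j, hj, h⟩ | h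
        · right; right; exact ⟨-j, by omega, by omega, by linarith⟩
        · right; left; rw [h2] at h; linarith
    · intro s hs
      rw [mem_mult]
      rcases le_total s δ with h0 | h0
      · rcases (n1.fs s).1 ⟨hs, h0⟩ with ⟨j, hj, h⟩ | h
        · right; right; exact ⟨-j, by omega, by omega, by rw [h]; ring⟩
        · right; left; rw [h, h5]; ring
      · rcases (n3.fa (s - δ)).1 ⟨by
          rw [mem_ng, mem_rf, show δ - -(s - δ) = s by ring]; exact hs, by omega⟩ with ⟨j, hj, h⟩ | h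
        · right; right; exact ⟨j, by omega, by omega, by rw [h]; ring⟩
        · left; rw [h, h4]
    · intro j h0 hj
      by_cases h6 : j = r + 1
      · subst h6
        constructor
        · exact (x1 _).2 (Or.inr (Or.inr h5.symm))
        · exact (x1 _).2 (Or.inr (Or.inl h1.symm))
      · constructor
        · exact (x1 _).2 (Or.inl ⟨j.toNat, by omega, Or.inl (by
            rw [show ((j.toNat : ℕ) : ℤ) = j by omega])⟩)
        · exact (x1 _).2 (Or.inl ⟨j.toNat, by omega, Or.inr (by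
            rw [show ((j.toNat : ℕ) : ℤ) = j by omega])⟩)

/-- The classification of tight configurations with a free row at the gap. -/
theorem Std.main (s : Std γ δ g D X Y T S) (h3 : 3 ≤ γ) : γ = 1 ∨ γ = 5 := by
  obtain ⟨q1, q2, q3⟩ := s.types
  by_cases hT : g ∈ T
  · by_cases y3 : 2 * g ∈ Y
    · exact Pc.main { s with gT := hT, y3 := y3 } h3
    · by_cases x3 : 2 * g ∈ X
      · refine Pc.main (D := swD D) (X := Y) (Y := X) (T := ng T) (S := S)
          { s.swap with gT := ?_, y3 := x3 } h3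
        rw [mem_ng]; exact q1.2 hT
      · by_cases y4 : δ - 2 * g ∈ Y
        · refine Pc.main (g := g) { s.reflY with gT := ?_, y3 := ?_ } h3
          · rw [mem_ng, mem_rf, show δ - -g = g + δ by ring]; exact q2.2 hT
          · rw [mem_rf]; exact y4
        · by_cases x4 : δ - 2 * g ∈ X
          · refine Pc.main (g := g) { s.refl.swap with gT := ?_, y3 := ?_ } h3
            · rw [mem_ng, mem_rf, show δ - -g = g + δ by ring]; exact q2.2 hT
            · rw [mem_rf]; exact x4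
          · exact Or.inr (Zc.main { s with gT := hT, z1 := x3, z2 := x4, z3 := y3, z4 := y4 } h3)
  · exact s.tt hT h3

end Pool.Agent.J4.H36.Queens
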