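import Pool.Agent.J4.H36.Queens.PCase

set_option autoImplicit false

namespace Pool.Agent.J4.H36.Queens

open Finset

variable {γ δ g : ℤ} {D : Finset (ℤ × ℤ)} {X Y T S : Finset ℤ} {p : ℕ} {P : Finset ℤ}

/-- When `g` does not divide `δ`, all pairs are at the two extreme positions. -/
theorem Ps.sub_ndvd (z : Ps γ δ g D X Y T S p P) (hgd : ¬ g ∣ δ) {v : ℤ} (hv : v ∈ P) :
    v = p * g ∨ v = δ - (p + 1) * g := by
  have t := z.t
  have hg0 := z.G.gpos
  have nd : ∀ v : ℤ, g ∣ v → ∀ c : ℤ, v ≠ δ - c * g := by
    rintro v ⟨e, rfl⟩ c h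
    exact hgd ⟨e + c, by linarith⟩
  have nd' : ∀ v : ℤ, g ∣ δ - v → ∀ c : ℤ, v ≠ c * g := by
    rintro v ⟨e, he⟩ c h
    exact hgd ⟨e + c, by linarith⟩
  obtain ⟨hT, h0, hS⟩ := (z.hP v).1 hv
  rcases z.cong v.toNat v hv (by omega) with hc | hc
  · left
    have lo : ∀ N : ℕ, ∀ v ∈ P, v ≤ N → g ∣ v → p * g ≤ v := by
      intro N
      induction N with
      | zero =>
        intro v hv h1 hgv
        obtain ⟨hT, h0, hS⟩ := (z.hP v).1 hv
        exfalso
        have : v = 0 := by push_cast at h1; omega
        rw [this, zero_add] at hS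
        exact z.gS hS
      | succ N ih =>
        intro v hv h1 hgv
        rcases z.down hv with h | h | h | h
        · obtain ⟨c, hc⟩ := hgv
          have := ih _ h (by push_cast at h1; omega) ⟨c - 2, by linarith⟩
          omega
        · exact h.ge
        · rw [h]; linarith
        · exact absurd h (nd v hgv _)
    have hi : ∀ N : ℕ, ∀ v ∈ P, δ ≤ v + N → g ∣ v → v ≤ p * g := by
      intro N
      induction N with
      | zero =>
        intro v hv h1 hgv
        obtain ⟨hT, h0, hS⟩ := (z.hP v).1 hv
        exfalso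
        have := (t.Tb v hT).2
        push_cast at h1; omega
      | succ N ih =>
        intro v hv h1 hgv
        rcases z.up hv with h | h | h | h
        · obtain ⟨c, hc⟩ := hgv
          have := ih _ h (by push_cast at h1; omega) ⟨c + 2, by linarith⟩
          omega
        · exact h.le
        · exact absurd h (nd v hgv _)
        · exact absurd h (nd v hgv _)
    exact le_antisymm (hi (δ - v).toNat v hv (by omega) hc) (lo v.toNat v hv (by omega) hc)
  · right
    have lo : ∀ N : ℕ, ∀ v ∈ P, v ≤ N → g ∣ δ - v → δ - (p + 1) * g ≤ v := by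
      intro N
      induction N with
      | zero =>
        intro v hv h1 hgv
        obtain ⟨hT, h0, hS⟩ := (z.hP v).1 hv
        exfalso
        have : v = 0 := by push_cast at h1; omega
        rw [this, zero_add] at hS
        exact z.gS hS
      | succ N ih =>
        intro v hv h1 hgv
        rcases z.down hv with h | h | h | h
        · obtain ⟨c, hc⟩ := hgv
          have := ih _ h (by push_cast at h1; omega) ⟨c + 2, by linarith⟩
          omega
        · exact absurd h (nd' v hgv _)
        · exact absurd h (nd' v hgv _)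
        · exact h.ge
    have hi : ∀ N : ℕ, ∀ v ∈ P, δ ≤ v + N → g ∣ δ - v → v ≤ δ - (p + 1) * g := by
      intro N
      induction N with
      | zero =>
        intro v hv h1 hgv
        obtain ⟨hT, h0, hS⟩ := (z.hP v).1 hv
        exfalso
        have := (t.Tb v hT).2
        push_cast at h1; omega
      | succ N ih =>
        intro v hv h1 hgv
        rcases z.up hv with h | h | h | h
        · obtain ⟨c, hc⟩ := hgv
          have := ih _ h (by push_cast at h1; omega) ⟨c - 2, by linarith⟩
          omega
        · exact absurd h (nd' v hgv _)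
        · exact h.le
        · rw [h]; linarith
    exact le_antisymm (hi (δ - v).toNat v hv (by omega) hc) (lo v.toNat v hv (by omega) hc)

/-- The same for `g = 1`. -/
theorem Ps.sub_one (z : Ps γ δ 1 D X Y T S p P) (h3 : 3 ≤ γ) {v : ℤ} (hv : v ∈ P) :
    v = p ∨ v = δ - p - 1 := by
  have t := z.t
  have hc1 : ∀ w : ℤ, 0 ≤ w → w < p → w ∈ T ∧ w + 1 ∉ S := by
    intro w h0 h1
    have := z.c1 w.toNat (by omega)
    rwa [show ((w.toNat : ℕ) : ℤ) * 1 = w by omega] at this
  have hc2 : ∀ w : ℤ, 0 ≤ w → w < p → δ - w ∈ S ∧ δ - w - 1 ∉ T := by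
    intro w h0 h1
    have := z.c2 w.toNat (by omega)
    rwa [show ((w.toNat : ℕ) : ℤ) * 1 = w by omega] at this
  have hrange : ∀ v ∈ P, (p : ℤ) ≤ v ∧ v ≤ δ - p - 1 := by
    intro v hv
    obtain ⟨hT, h0, hS⟩ := (z.hP v).1 hv
    have hlt := (t.Tb v hT).2
    constructor
    · by_contra hcon
      exact (hc1 v h0 (by omega)).2 hS
    · by_contra hcon
      apply (hc2 (δ - v - 1) (by omega) (by omega)).2
      rw [show δ - (δ - v - 1) - 1 = v by ring]
      exact hT
  by_contra hcon
  push Not at hcon
  obtain ⟨hr1, hr2⟩ := hrange v hv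
  have hdown : ∀ j : ℕ, (p : ℤ) ≤ v - 2 * j → v - 2 * j ∈ P := by
    intro j
    induction j with
    | zero => intro _; simpa using hv
    | succ j ih =>
      intro h1
      push_cast at h1
      have h2 := ih (by omega)
      rcases z.down h2 with h | h | h | h
      · rw [show v - 2 * ((j + 1 : ℕ) : ℤ) = v - 2 * j - 2 * 1 by push_cast; ring]
        exact h
      · omega
      · omega
      · omega
  have hup : ∀ j : ℕ, v + 2 * j ≤ δ - p - 1 → v + 2 * j ∈ P := by
    intro j
    induction j with
    | zero => intro _; simpa using hv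
    | succ j ih =>
      intro h1
      push_cast at h1
      have h2 := ih (by omega)
      rcases z.up h2 with h | h | h | h
      · rw [show v + 2 * ((j + 1 : ℕ) : ℤ) = v + 2 * j + 2 * 1 by push_cast; ring]
        exact h
      · omega
      · omega
      · omega
  have hz : ∀ w : ℤ, (p : ℤ) ≤ w → w ≤ δ - p - 1 → (2 : ℤ) ∣ w - v → w ∈ P := by
    intro w h1 h2 h4
    rcases le_total w v with h5 | h5
    · have := hdown ((v - w) / 2).toNat (by omega)
      rwa [show v - 2 * (((v - w) / 2).toNat : ℤ) = w by omega] at this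
    · have := hup ((w - v) / 2).toNat (by omega)
      rwa [show v + 2 * (((w - v) / 2).toNat : ℤ) = w by omega] at this
  have hsub : ((Icc 0 δ).erase (p : ℤ)).erase (δ - p) ⊆ X := by
    intro w hw
    rw [mem_erase, mem_erase, mem_Icc] at hw
    obtain ⟨h1, h2, h4, h5⟩ := hw
    rcases lt_or_ge w p with h6 | h6
    · exact t.mX_of_T (hc1 w h4 h6).1 h4
    · rcases lt_or_ge (δ - p) w with h7 | h7
      · have := (hc2 (δ - w) (by omega) (by omega)).1
        rw [sub_sub_cancel] at this
        exact t.mX_of_S this h5
      · by_cases h8 : (2 : ℤ) ∣ w - v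
        · have := (z.hP w).1 (hz w h6 (by omega) h8)
          exact t.mX_of_T this.1 h4
        · have := (z.hP (w - 1)).1 (hz (w - 1) (by omega) (by omega) (by omega))
          have h9 := this.2.2
          rw [sub_add_cancel] at h9
          exact t.mX_of_S h9 h5
  have c1 := card_le_card hsub
  have c2 : (Icc 0 δ).card ≤ (((Icc 0 δ).erase (p : ℤ)).erase (δ - p)).card + 2 := by
    have e1 := pred_card_le_card_erase (s := Icc 0 δ) (a := (p : ℤ))
    have e2 := pred_card_le_card_erase (s := (Icc 0 δ).erase (p : ℤ)) (a := δ - p)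
    omega
  rw [Int.card_Icc] at c2
  have := t.cX
  have := t.dge
  have := t.deven
  have := t.halves.1
  have := t.dpos
  omega

/-- Normal forms: `A` and `L` are a block and one extra element. -/
structure NF (δ g : ℤ) (T S : Finset ℤ) (m : ℕ) (ca cs : ℤ) : Prop where
  fa : ∀ a, (a ∈ T ∧ 0 ≤ a) ↔ ((∃ j : ℕ, j + 1 < m ∧ a = j * g) ∨ a = ca)
  fs : ∀ s, (s ∈ S ∧ s ≤ δ) ↔ ((∃ j : ℕ, j + 1 < m ∧ s = δ - j * g) ∨ s = cs)
  na : ∀ j : ℕ, j + 1 < m → ca ≠ j * g
  ns : ∀ j : ℕ, j + 1 < m → cs ≠ δ - j * g
  opt : (ca = (m - 1) * g ∧ cs = δ - (m - 1) * g) ∨ (ca = (m - 1) * g ∧ cs = m * g) ∨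
    (ca = δ - m * g ∧ cs = δ - (m - 1) * g) ∨ (ca = δ - (m - 1) * g ∧ cs = (m - 1) * g)

theorem Ps.nf (z : Ps γ δ g D X Y T S p P) {m : ℕ} (hm : γ = 2 * m - 1)
    (hsub : ∀ v ∈ P, v = p * g ∨ v = δ - (p + 1) * g)
    (hne : (p : ℤ) * g ≠ δ - (p + 1) * g) : ∃ ca cs, NF δ g T S m ca cs := by
  have t := z.t
  have hg0 := z.G.gpos
  have hp1 := z.p1
  have hc0 := z.c0
  have hpm : p + P.card = m := by omega
  have hjp : ∀ v ∈ P, ∀ j : ℕ, j < p → v ≠ j * g := by
    rintro v hv j hj rfl
    exact (z.c1 j hj).2 ((z.hP _).1 hv).2.2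
  have hjs : ∀ v ∈ P, ∀ j : ℕ, j < p → v + g ≠ δ - j * g := by
    intro v hv j hj h
    apply (z.c2 j hj).2
    rw [← h, add_sub_cancel_right]
    exact ((z.hP _).1 hv).1
  have hA : ∀ a, (a ∈ T ∧ 0 ≤ a) ↔ ((∃ j : ℕ, j < p ∧ a = j * g) ∨ a ∈ P) := by
    intro a
    constructor
    · rintro ⟨ha, h0⟩
      rcases z.c3 a ha h0 with h | h
      · exact Or.inr ((z.hP a).2 ⟨ha, h0, h⟩)
      · exact Or.inl h
    · rintro (⟨j, hj, rfl⟩ | h)
      · exact ⟨(z.c1 j hj).1, by positivity⟩
      · have := (z.hP a).1 h
        exact ⟨this.1, this.2.1⟩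
  have hL : ∀ s, (s ∈ S ∧ s ≤ δ) ↔ ((∃ j : ℕ, j < p ∧ s = δ - j * g) ∨ s - g ∈ P) := by
    intro s
    constructor
    · rintro ⟨hs, h0⟩
      rcases z.c4 s hs h0 with h | h
      · right
        have := z.G.gX s (t.mX_of_S hs h0) (t.Sb s hs).1
        rw [z.hP]
        exact ⟨h, by omega, by rwa [sub_add_cancel]⟩
      · exact Or.inl h
    · rintro (⟨j, hj, rfl⟩ | h)
      · have : 0 ≤ (j : ℤ) * g := by positivity
        exact ⟨(z.c2 j hj).1, by omega⟩
      · have h1 := (z.hP _).1 h
        rw [sub_add_cancel] at h1
        have h2 := z.G.gX' _ (t.mX_of_T h1.1 h1.2.1) (t.Tb _ h1.1).2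
        exact ⟨h1.2.2, by omega⟩
  by_cases e1 : (p : ℤ) * g ∈ P
  · by_cases e2 : δ - ((p : ℤ) + 1) * g ∈ P
    · -- both
      have hPe : P = {(p : ℤ) * g, δ - ((p : ℤ) + 1) * g} := by
        ext v
        rw [mem_insert, mem_singleton]
        constructor
        · exact hsub v
        · rintro (rfl | rfl)
          · exact e1
          · exact e2
      have hcP : P.card = 2 := by rw [hPe, card_pair hne]
      have hmp : m = p + 2 := by omega
      have hmp' : (m : ℤ) = p + 2 := by omega
      refine ⟨δ - (m - 1) * g, (m - 1) * g, ?_, ?_, ?_, ?_, ?_⟩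
      · intro a
        rw [hA, hPe, mem_insert, mem_singleton]
        constructor
        · rintro (⟨j, hj, h⟩ | h | h)
          · exact Or.inl ⟨j, by omega, h⟩
          · exact Or.inl ⟨p, by omega, h⟩
          · right; rw [h, hmp']; ring
        · rintro (⟨j, hj, h⟩ | h)
          · rcases Nat.lt_or_ge j p with h1 | h1
            · exact Or.inl ⟨j, h1, h⟩
            · right; left
              rw [h, show j = p by omega]
          · right; right; rw [h, hmp']; ring
      · intro s
        rw [hL, hPe, mem_insert, mem_singleton]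
        constructor
        · rintro (⟨j, hj, h⟩ | h | h)
          · exact Or.inl ⟨j, by omega, h⟩
          · right; rw [hmp']; linarith
          · exact Or.inl ⟨p, by omega, by linarith⟩
        · rintro (⟨j, hj, h⟩ | h)
          · rcases Nat.lt_or_ge j p with h1 | h1
            · exact Or.inl ⟨j, h1, h⟩
            · right; right
              rw [h, show j = p by omega]; ring
          · right; left; rw [h, hmp']; ring
      · intro j hj h
        rcases Nat.lt_or_ge j p with h1 | h1
        · apply hjp _ e2 j h1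
          rw [← h, hmp']; ring
        · apply hne
          rw [show p = j by omega, ← h, hmp', show p = j by omega]; ring
      · intro j hj h
        rcases Nat.lt_or_ge j p with h1 | h1
        · apply hjs _ e1 j h1
          rw [← h, hmp']; ring
        · apply hne
          have hjp' : (j : ℤ) = p := by omega
          rw [hjp', hmp'] at h
          linarith
      · right; right; right
        exact ⟨rfl, rfl⟩
    · -- only the first
      have hPe : P = {(p : ℤ) * g} := by
        ext v
        rw [mem_singleton]
        constructor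
        · intro hv
          rcases hsub v hv with h | h
          · exact h
          · exact absurd hv (by rw [h]; exact e2)
        · rintro rfl
          exact e1
      have hcP : P.card = 1 := by rw [hPe, card_singleton]
      have hmp : m = p + 1 := by omega
      have hmp' : (m : ℤ) = p + 1 := by omega
      refine ⟨(m - 1) * g, m * g, ?_, ?_, ?_, ?_, ?_⟩
      · intro a
        rw [hA, hPe, mem_singleton]
        constructor
        · rintro (⟨j, hj, h⟩ | h)
          · exact Or.inl ⟨j, by omega, h⟩
          · right; rw [h, hmp']; ring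
        · rintro (⟨j, hj, h⟩ | h)
          · exact Or.inl ⟨j, by omega, h⟩
          · right; rw [h, hmp']; ring
      · intro s
        rw [hL, hPe, mem_singleton]
        constructor
        · rintro (⟨j, hj, h⟩ | h)
          · exact Or.inl ⟨j, by omega, h⟩
          · right; rw [hmp']; linarith
        · rintro (⟨j, hj, h⟩ | h)
          · exact Or.inl ⟨j, by omega, h⟩
          · right; rw [h, hmp']; ring
      · intro j hj h
        apply hjp _ e1 j (by omega)
        rw [← h, hmp']; ring
      · intro j hj h
        apply hjs _ e1 j (by omega)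
        rw [← h, hmp']; ring
      · right; left
        exact ⟨rfl, rfl⟩
  · by_cases e2 : δ - ((p : ℤ) + 1) * g ∈ P
    · have hPe : P = {δ - ((p : ℤ) + 1) * g} := by
        ext v
        rw [mem_singleton]
        constructor
        · intro hv
          rcases hsub v hv with h | h
          · exact absurd hv (by rw [h]; exact e1)
          · exact h
        · rintro rfl
          exact e2
      have hcP : P.card = 1 := by rw [hPe, card_singleton]
      have hmp : m = p + 1 := by omega
      have hmp' : (m : ℤ) = p + 1 := by omega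
      refine ⟨δ - m * g, δ - (m - 1) * g, ?_, ?_, ?_, ?_, ?_⟩
      · intro a
        rw [hA, hPe, mem_singleton]
        constructor
        · rintro (⟨j, hj, h⟩ | h)
          · exact Or.inl ⟨j, by omega, h⟩
          · right; rw [h, hmp']
        · rintro (⟨j, hj, h⟩ | h)
          · exact Or.inl ⟨j, by omega, h⟩
          · right; rw [h, hmp']
      · intro s
        rw [hL, hPe, mem_singleton]
        constructor
        · rintro (⟨j, hj, h⟩ | h)
          · exact Or.inl ⟨j, by omega, h⟩
          · right; rw [hmp']; linarith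
        · rintro (⟨j, hj, h⟩ | h)
          · exact Or.inl ⟨j, by omega, h⟩
          · right; rw [h, hmp']; ring
      · intro j hj h
        apply hjp _ e2 j (by omega)
        rw [← h, hmp']
      · intro j hj h
        apply hjs _ e2 j (by omega)
        rw [← h, hmp']; ring
      · right; right; left
        exact ⟨rfl, rfl⟩
    · have hPe : P = ∅ := by
        rw [eq_empty_iff_forall_notMem]
        intro v hv
        rcases hsub v hv with h | h
        · exact e1 (by rw [← h]; exact hv)
        · exact e2 (by rw [← h]; exact hv)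
      have hcP : P.card = 0 := by rw [hPe, card_empty]
      have hmp : m = p := by omega
      have hm1 : ((m - 1 : ℕ) : ℤ) = (m : ℤ) - 1 := by omega
      refine ⟨(m - 1) * g, δ - (m - 1) * g, ?_, ?_, ?_, ?_, ?_⟩
      · intro a
        rw [hA, hPe]
        simp only [notMem_empty, or_false]
        constructor
        · rintro ⟨j, hj, h⟩
          rcases Nat.lt_or_ge (j + 1) m with h1 | h1
          · exact Or.inl ⟨j, h1, h⟩
          · right; rw [h, show (j : ℤ) = m - 1 by omega]
        · rintro (⟨j, hj, h⟩ | h)
          · exact ⟨j, by omega, h⟩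
          · exact ⟨m - 1, by omega, by rw [h, hm1]⟩
      · intro s
        rw [hL, hPe]
        simp only [notMem_empty, or_false]
        constructor
        · rintro ⟨j, hj, h⟩
          rcases Nat.lt_or_ge (j + 1) m with h1 | h1
          · exact Or.inl ⟨j, h1, h⟩
          · right; rw [h, show (j : ℤ) = m - 1 by omega]
        · rintro (⟨j, hj, h⟩ | h)
          · exact ⟨j, by omega, h⟩
          · exact ⟨m - 1, by omega, by rw [h, hm1]⟩
      · intro j hj h
        have : (m : ℤ) - 1 = j := mul_right_cancel₀ hg0.ne' h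
        omega
      · intro j hj h
        have : (m : ℤ) - 1 = j := mul_right_cancel₀ hg0.ne' (by linarith)
        omega
      · left
        exact ⟨rfl, rfl⟩

theorem Pc.nf (z : Pc γ δ g D X Y T S) (h3 : 3 ≤ γ) {m : ℕ} (hm : γ = 2 * m - 1)
    (hgd : g = 1 ∨ ¬ g ∣ δ) : ∃ ca cs, NF δ g T S m ca cs := by
  obtain ⟨p, P, z'⟩ := z.toPs
  rcases hgd with rfl | hgd
  · apply z'.nf hm
    · intro v hv
      rcases z'.sub_one h3 hv with h | h
      · left; linarith
      · right; linarith
    · have := z.t.deven
      omega
  · apply z'.nf hm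
    · intro v hv
      exact z'.sub_ndvd hgd hv
    · intro h
      exact hgd ⟨2 * p + 1, by linarith⟩

end Pool.Agent.J4.H36.Queens
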