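import Mathlib

set_option autoImplicit false

namespace Pool.Agent.J4.H36.Queens

open Finset

/-- One step for sums over a symmetric closed interval. -/
theorem sum_Icc_step (f : ℤ → ℤ) (n : ℕ) :
    ∑ i ∈ Icc (-((n : ℤ) + 1)) ((n : ℤ) + 1), f i
      = ∑ i ∈ Icc (-(n : ℤ)) (n : ℤ), f i + f ((n : ℤ) + 1) + f (-((n : ℤ) + 1)) := by
  have h : Icc (-((n : ℤ) + 1)) ((n : ℤ) + 1)
      = insert ((n : ℤ) + 1) (insert (-((n : ℤ) + 1)) (Icc (-(n : ℤ)) (n : ℤ))) := by
    ext x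
    simp only [mem_Icc, mem_insert]
    omega
  rw [h, sum_insert, sum_insert]
  · ring
  · simp only [mem_Icc]; omega
  · simp only [mem_Icc, mem_insert]; omega

/-- One step for sums over a half-open symmetric interval. -/
theorem sum_Ico_step (f : ℤ → ℤ) (n : ℕ) :
    ∑ i ∈ Ico (-((n : ℤ) + 1)) ((n : ℤ) + 1), f i
      = ∑ i ∈ Ico (-(n : ℤ)) (n : ℤ), f i + f (n : ℤ) + f (-((n : ℤ) + 1)) := by
  have h : Ico (-((n : ℤ) + 1)) ((n : ℤ) + 1)
      = insert (n : ℤ) (insert (-((n : ℤ) + 1)) (Ico (-(n : ℤ)) (n : ℤ))) := by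
    ext x
    simp only [mem_Ico, mem_insert]
    omega
  rw [h, sum_insert, sum_insert]
  · ring
  · simp only [mem_Ico]; omega
  · simp only [mem_Ico, mem_insert]; omega

theorem sum_sq (n : ℕ) :
    3 * ∑ i ∈ Icc (-(n : ℤ)) (n : ℤ), i ^ 2 = (n : ℤ) * (n + 1) * (2 * n + 1) := by
  induction n with
  | zero => simp
  | succ n ih =>
    push_cast
    rw [sum_Icc_step, mul_add, mul_add, ih]
    ring

theorem sum_abs (n : ℕ) :
    ∑ i ∈ Icc (-(n : ℤ)) (n : ℤ), |i| = (n : ℤ) * (n + 1) := by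
  induction n with
  | zero => simp
  | succ n ih =>
    push_cast
    rw [sum_Icc_step, ih, abs_neg, abs_of_nonneg (by positivity)]
    ring

theorem sum_odd_sq (s : ℕ) :
    3 * ∑ j ∈ Ico (-(s : ℤ)) (s : ℤ), (2 * j + 1) ^ 2 = 2 * (s : ℤ) * (4 * s ^ 2 - 1) := by
  induction s with
  | zero => simp
  | succ n ih =>
    push_cast
    rw [sum_Ico_step, mul_add, mul_add, ih]
    ring

/-- Sum of positive parts over even numbers. -/
theorem sum_even_pos (c n : ℕ) :
    ∑ j ∈ Icc (-((c + n : ℕ) : ℤ)) ((c + n : ℕ) : ℤ), max (|2 * j| - 2 * (c : ℤ)) 0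
      = 2 * (n : ℤ) * (n + 1) := by
  induction n with
  | zero =>
    rw [sum_eq_zero]
    · simp
    · intro j hj
      simp only [mem_Icc] at hj
      have : |2 * j| ≤ 2 * (c : ℤ) := by rw [abs_le]; push_cast at hj; omega
      exact max_eq_right (by omega)
  | succ n ih =>
    have e : ((c + (n + 1) : ℕ) : ℤ) = ((c + n : ℕ) : ℤ) + 1 := by push_cast; ring
    rw [e, sum_Icc_step, ih]
    have h1 : |2 * (((c + n : ℕ) : ℤ) + 1)| = 2 * (c : ℤ) + 2 * n + 2 := by
      rw [abs_of_nonneg (by positivity)]; push_cast; ring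
    have h2 : |2 * (-(((c + n : ℕ) : ℤ) + 1))| = 2 * (c : ℤ) + 2 * n + 2 := by
      rw [mul_neg, abs_neg, h1]
    rw [h1, h2, max_eq_left (by omega)]
    push_cast
    ring

/-- Sum of positive parts over odd numbers. -/
theorem sum_odd_pos (c n : ℕ) :
    ∑ j ∈ Ico (-((c + n : ℕ) : ℤ)) ((c + n : ℕ) : ℤ), max (|2 * j + 1| - 2 * (c : ℤ)) 0
      = 2 * (n : ℤ) ^ 2 := by
  induction n with
  | zero =>
    rw [sum_eq_zero]
    · simp
    · intro j hj
      simp only [mem_Ico] at hj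
      have : |2 * j + 1| ≤ 2 * (c : ℤ) := by rw [abs_le]; push_cast at hj; omega
      exact max_eq_right (by omega)
  | succ n ih =>
    have e : ((c + (n + 1) : ℕ) : ℤ) = ((c + n : ℕ) : ℤ) + 1 := by push_cast; ring
    rw [e, sum_Ico_step, ih]
    have h1 : |2 * (((c + n : ℕ) : ℤ)) + 1| = 2 * (c : ℤ) + 2 * n + 1 := by
      rw [abs_of_nonneg (by positivity)]; push_cast; ring
    have h2 : |2 * (-(((c + n : ℕ) : ℤ) + 1)) + 1| = 2 * (c : ℤ) + 2 * n + 1 := by
      rw [show 2 * (-(((c + n : ℕ) : ℤ) + 1)) + 1 = -(2 * (((c + n : ℕ) : ℤ)) + 1) by ring,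
        abs_neg, h1]
    rw [h1, h2, max_eq_left (by omega)]
    push_cast
    ring

/-- The multiples of `k` in `[-kr, kr]`. -/
noncomputable def mult (k : ℤ) (r : ℕ) : Finset ℤ := (Icc (-(r : ℤ)) (r : ℤ)).image (fun j => k * j)

theorem mem_mult {k : ℤ} {r : ℕ} {x : ℤ} :
    x ∈ mult k r ↔ ∃ j : ℤ, -(r : ℤ) ≤ j ∧ j ≤ r ∧ x = k * j := by
  simp only [mult, mem_image, mem_Icc]
  constructor
  · rintro ⟨j, ⟨h1, h2⟩, h3⟩; exact ⟨j, h1, h2, h3.symm⟩
  · rintro ⟨j, h1, h2, h3⟩; exact ⟨j, ⟨h1, h2⟩, h3.symm⟩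

theorem sum_mult {k : ℤ} (hk : 0 < k) (r : ℕ) (f : ℤ → ℤ) :
    ∑ x ∈ mult k r, f x = ∑ j ∈ Icc (-(r : ℤ)) (r : ℤ), f (k * j) := by
  rw [mult, sum_image]
  intro a _ b _ h
  exact mul_left_cancel₀ hk.ne' h

theorem card_mult {k : ℤ} (hk : 0 < k) (r : ℕ) : (mult k r).card = 2 * r + 1 := by
  rw [mult, card_image_of_injective]
  · simp; omega
  · intro a b h
    exact mul_left_cancel₀ hk.ne' h

theorem sum_abs_mult {k : ℤ} (hk : 0 < k) (r : ℕ) :
    ∑ x ∈ mult k r, |x| = k * (r * (r + 1)) := by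
  rw [sum_mult hk, ← sum_abs, mul_sum]
  apply sum_congr rfl
  intro j _
  rw [abs_mul, abs_of_pos hk]

theorem sum_abs_lower {ι : Type*} (D : Finset ι) (f : ι → ℤ) (hf : Set.InjOn f D)
    {k : ℤ} (hk : 0 < k) (r : ℕ) (hc : D.card = 2 * r + 1) (hd : ∀ i ∈ D, k ∣ f i) :
    k * (r * (r + 1)) ≤ ∑ i ∈ D, |f i| := by
  classical
  have h1 : ∑ i ∈ D, |f i| = ∑ u ∈ D.image f, |u| := (sum_image hf).symm
  have h2 : (D.image f).card = 2 * r + 1 := by rw [card_image_of_injOn hf, hc]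
  set U := D.image f with hU
  have hUk : ∀ u ∈ U, k ∣ u := by
    intro u hu
    rw [hU, mem_image] at hu
    obtain ⟨i, hi, rfl⟩ := hu
    exact hd i hi
  have h3 : ∑ u ∈ U ∩ mult k r, (|u| - k * r) ≤ ∑ u ∈ U, (|u| - k * r) := by
    apply sum_le_sum_of_subset_of_nonneg inter_subset_left
    intro u hu hn
    obtain ⟨j, rfl⟩ := hUk u hu
    have : ¬ (-(r : ℤ) ≤ j ∧ j ≤ r) := by
      intro ⟨ha, hb⟩
      apply hn
      rw [mem_inter]
      exact ⟨hu, mem_mult.2 ⟨j, ha, hb, rfl⟩⟩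
    have hj : (r : ℤ) < |j| := by
      by_contra hcon
      rw [not_lt, abs_le] at hcon
      exact this hcon
    rw [abs_mul, abs_of_pos hk]
    nlinarith
  have h4 : ∑ u ∈ mult k r, (|u| - k * r) ≤ ∑ u ∈ U ∩ mult k r, (|u| - k * r) := by
    have : ∑ u ∈ U ∩ mult k r, -(|u| - k * r) ≤ ∑ u ∈ mult k r, -(|u| - k * r) := by
      apply sum_le_sum_of_subset_of_nonneg inter_subset_right
      intro u hu _
      obtain ⟨j, ha, hb, rfl⟩ := mem_mult.1 hu
      have hj : |j| ≤ (r : ℤ) := abs_le.2 ⟨ha, hb⟩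
      rw [abs_mul, abs_of_pos hk]
      nlinarith
    rw [sum_neg_distrib, sum_neg_distrib] at this
    linarith
  rw [h1]
  have h5 : ∑ u ∈ mult k r, (|u| - k * r) = k * (r * (r + 1)) - (2 * r + 1) * (k * r) := by
    rw [sum_sub_distrib, sum_abs_mult hk, sum_const, card_mult hk]
    simp
  have h6 : ∑ u ∈ U, (|u| - k * r) = ∑ u ∈ U, |u| - (2 * r + 1) * (k * r) := by
    rw [sum_sub_distrib, sum_const, h2]
    simp
  linarith

theorem sum_abs_upper {ι : Type*} (D : Finset ι) (f : ι → ℤ) (hf : Set.InjOn f D)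
    {k : ℤ} (hk : 0 < k) (r : ℕ) (hd : ∀ i ∈ D, f i ∈ mult k r) :
    ∑ i ∈ D, |f i| ≤ k * (r * (r + 1)) := by
  classical
  have h1 : ∑ i ∈ D, |f i| = ∑ u ∈ D.image f, |u| := (sum_image hf).symm
  rw [h1, ← sum_abs_mult hk]
  apply sum_le_sum_of_subset_of_nonneg
  · intro u hu
    rw [mem_image] at hu
    obtain ⟨i, hi, rfl⟩ := hu
    exact hd i hi
  · intro i _ _
    positivity

/-- The first kill. -/
theorem kill {ι : Type*} (D : Finset ι) (x y : ι → ℤ)
    (hx : Set.InjOn x D) (hy : Set.InjOn y D)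
    (ht : Set.InjOn (fun i => x i - y i) D) (hs : Set.InjOn (fun i => x i + y i) D)
    {k : ℤ} (hk : 0 < k) (hodd : ¬ (2 : ℤ) ∣ k) (r : ℕ) (hr : 1 ≤ r) (hc : D.card = 2 * r + 1)
    (hT : ∀ i ∈ D, x i - y i ∈ mult k r) (hS : ∀ i ∈ D, x i + y i ∈ mult k r) : False := by
  classical
  have hpar : ∀ a b : ℤ, 2 * a = k * b → k ∣ a := by
    intro a b hab
    have : (2 : ℤ) ∣ b := by
      have h2 : (2 : ℤ) ∣ k * b := ⟨a, hab.symm⟩
      rcases Int.prime_two.dvd_or_dvd h2 with h | h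
      · exact absurd h hodd
      · exact h
    obtain ⟨c, rfl⟩ := this
    exact ⟨c, by linarith⟩
  have hxk : ∀ i ∈ D, k ∣ x i := by
    intro i hi
    obtain ⟨a, _, _, ha⟩ := mem_mult.1 (hT i hi)
    obtain ⟨b, _, _, hb⟩ := mem_mult.1 (hS i hi)
    exact hpar (x i) (a + b) (by linear_combination ha + hb)
  have hyk : ∀ i ∈ D, k ∣ y i := by
    intro i hi
    obtain ⟨a, _, _, ha⟩ := mem_mult.1 (hT i hi)
    obtain ⟨b, _, _, hb⟩ := mem_mult.1 (hS i hi)
    exact hpar (y i) (b - a) (by linear_combination hb - ha)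
  have e1 := sum_abs_lower D x hx hk r hc hxk
  have e2 := sum_abs_lower D y hy hk r hc hyk
  have e3 := sum_abs_upper D _ ht hk r hT
  have e4 := sum_abs_upper D _ hs hk r hS
  have hle : ∀ i ∈ D, |x i| + |y i| ≤ |x i - y i| + |x i + y i| := by
    intro i _
    rcases abs_cases (x i) with h1 | h1 <;> rcases abs_cases (y i) with h2 | h2 <;>
      rcases abs_cases (x i - y i) with h3 | h3 <;>
      rcases abs_cases (x i + y i) with h4 | h4 <;> omega
  have hsum : ∑ i ∈ D, (|x i| + |y i|) = ∑ i ∈ D, (|x i - y i| + |x i + y i|) := by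
    apply le_antisymm (sum_le_sum hle)
    rw [sum_add_distrib, sum_add_distrib]
    linarith
  have heq := (sum_eq_sum_iff_of_le hle).1 hsum
  have hzero : ∀ i ∈ D, x i - y i = 0 ∨ x i + y i = 0 := by
    intro i hi
    have h := heq i hi
    rcases abs_cases (x i) with h1 | h1 <;> rcases abs_cases (y i) with h2 | h2 <;>
      rcases abs_cases (x i - y i) with h3 | h3 <;>
      rcases abs_cases (x i + y i) with h4 | h4 <;> omega
  have hsub : D ⊆ D.filter (fun i => x i - y i = 0) ∪ D.filter (fun i => x i + y i = 0) := by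
    intro i hi
    rw [mem_union, mem_filter, mem_filter]
    rcases hzero i hi with h | h
    · exact Or.inl ⟨hi, h⟩
    · exact Or.inr ⟨hi, h⟩
  have c1 : (D.filter (fun i => x i - y i = 0)).card ≤ 1 := by
    rw [card_le_one]
    intro a ha b hb
    rw [mem_filter] at ha hb
    exact ht ha.1 hb.1 (by simp only; rw [ha.2, hb.2])
  have c2 : (D.filter (fun i => x i + y i = 0)).card ≤ 1 := by
    rw [card_le_one]
    intro a ha b hb
    rw [mem_filter] at ha hb
    exact hs ha.1 hb.1 (by simp only; rw [ha.2, hb.2])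
  have := card_le_card hsub
  have := card_union_le (D.filter (fun i => x i - y i = 0)) (D.filter (fun i => x i + y i = 0))
  omega

end Pool.Agent.J4.H36.Queens
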