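import Pool.Agent.J4.H36.Queens.Kills

set_option autoImplicit false

namespace Pool.Agent.J4.H36.Queens

open Finset

variable {γ δ g : ℤ} {D : Finset (ℤ × ℤ)} {X Y T S : Finset ℤ}

theorem Std.tt1 (s : Std γ δ g D X Y T S) (h : g ∉ T) {a : ℤ} (ha : a ∈ T) (h0 : 0 ≤ a) :
    a + g ∈ S ∧ a + g ≤ δ := by
  have ht := s.types
  constructor
  · by_contra hn
    exact h (ht.1.1 (s.t.chainT s.G s.y1 ha h0 hn).1)
  · have := s.G.gX' a (s.t.mX_of_T ha h0) (s.t.Tb a ha).2
    omega

theorem Std.tt2 (s : Std γ δ g D X Y T S) (h : g ∉ T) {a : ℤ} (ha : a ∈ S) (h0 : a ≤ δ) :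
    a - g ∈ T := by
  have ht := s.types
  by_contra hn
  exact h (ht.2.1.1 (s.t.chainS s.G s.y1 ha h0 hn).1)

theorem Std.tt (s : Std γ δ g D X Y T S) (h : g ∉ T) (h3 : 3 ≤ γ) : γ = 1 ∨ γ = 5 := by
  have t := s.t
  have hg0 := s.G.gpos
  have hd := t.dpos
  obtain ⟨q1, q2, q3⟩ := s.types
  have hsw : g ∉ ng T := by rw [mem_ng, q1]; exact h
  have hrY : g ∉ ng (rf δ S) := by
    rw [mem_ng, mem_rf, show δ - -g = g + δ by ring, q2]; exact h
  -- the next element of Y
  have hne : (Y.filter (fun y => g < y ∧ y < δ)).Nonempty := by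
    by_contra hcon
    rw [not_nonempty_iff_eq_empty] at hcon
    have hsub : Y ⊆ {0, g, δ} := by
      intro y hy
      rw [mem_insert, mem_insert, mem_singleton]
      by_contra hyn
      have h1 := t.Yb y hy
      have h2 : 0 < y → g ≤ y := s.G.gY y hy
      have : y ∈ Y.filter (fun y => g < y ∧ y < δ) := by
        rw [mem_filter]; exact ⟨hy, by omega⟩
      rw [hcon] at this
      exact absurd this (notMem_empty y)
    have c1 := card_le_card hsub
    have c2 : ({0, g, δ} : Finset ℤ).card ≤ 3 := card_le_three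
    have := t.cY
    omega
  set k := (Y.filter (fun y => g < y ∧ y < δ)).min' hne with hk
  have hkm := (Y.filter (fun y => g < y ∧ y < δ)).min'_mem hne
  rw [← hk, mem_filter] at hkm
  obtain ⟨hkY, hgk, hkd⟩ := hkm
  have hkmin : ∀ y ∈ Y, g < y → y < k → False := by
    intro y hy h1 h2
    have := (Y.filter (fun y => g < y ∧ y < δ)).min'_le y (by
      rw [mem_filter]; exact ⟨hy, h1, by omega⟩)
    omega
  clear_value k
  have rowk : ∀ x ∈ X, (x - k ∈ T ∧ 0 ≤ x - k) ∨ (x + k ∈ S ∧ x + k ≤ δ) ∨ x = 0 ∨ x = δ := by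
    intro x hx
    have hxb := t.Xb x hx
    rcases t.cov x hx k hkY with h1 | h1
    · by_cases h2 : 0 ≤ x - k
      · exact Or.inl ⟨h1, h2⟩
      · have h4 : k - x ∈ Y := t.mY_of_T (by rw [neg_sub]; exact h1) (by omega)
        have h5 := s.G.gY _ h4 (by omega)
        by_cases h6 : k - x = g
        · exfalso
          apply h
          rw [← q1]
          rw [show x - k = -g by omega] at h1
          exact h1
        · by_cases h7 : x = 0
          · exact Or.inr (Or.inr (Or.inl h7))
          · exact (hkmin _ h4 (by omega) (by omega)).elim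
    · by_cases h2 : x + k ≤ δ
      · exact Or.inr (Or.inl ⟨h1, h2⟩)
      · have h4 : x + k - δ ∈ Y :=
          (t.yf _ (by omega) (by omega)).2 (Or.inr (by rw [sub_add_cancel]; exact h1))
        have h5 := s.G.gY _ h4 (by omega)
        by_cases h6 : x + k - δ = g
        · exfalso
          apply h
          rw [← q2]
          rw [show g + δ = x + k by omega]
          exact h1
        · by_cases h7 : x = δ
          · exact Or.inr (Or.inr (Or.inr h7))
          · exact (hkmin _ h4 (by omega) (by omega)).elim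
  have T1 : ∀ N : ℕ, ∀ i ∈ T, 0 < i → δ ≤ i + N → ¬ (i - k ∈ T ∧ 0 ≤ i - k) → False := by
    intro N
    induction N with
    | zero =>
      intro i hi h0 h1 _
      have := (t.Tb i hi).2
      push_cast at h1
      omega
    | succ N ih =>
      intro i hi h0 h1 hn
      rcases rowk i (t.mX_of_T hi h0.le) with h2 | ⟨h2, h2'⟩ | h2 | h2
      · exact hn h2
      · have h4 := s.tt2 h h2 h2'
        refine ih (i + k - g) h4 (by omega) (by push_cast at h1; omega) ?_
        rintro ⟨h5, h6⟩
        have h7 := (s.tt1 h h5 h6).1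
        rw [show i + k - g - k + g = i by ring] at h7
        exact t.nTS hi h7
      · omega
      · have := (t.Tb i hi).2
        omega
  have T1' : ∀ i ∈ T, 0 < i → i - k ∈ T ∧ 0 ≤ i - k := by
    intro i hi h0
    by_contra hn
    exact T1 (δ - i).toNat i hi h0 (by omega) hn
  have chain : ∀ N : ℕ, ∀ i ∈ T, 0 ≤ i → i ≤ N →
      ∃ n : ℕ, i = n * k ∧ ∀ j : ℕ, j ≤ n → ((j : ℤ) * k ∈ T ∧ 0 ≤ (j : ℤ) * k) := by
    intro N
    induction N with
    | zero =>
      intro i hi h0 h1
      refine ⟨0, by push_cast at h1 ⊢; omega, ?_⟩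
      intro j hj
      obtain rfl : j = 0 := by omega
      simp only [Nat.cast_zero, zero_mul, le_refl, and_true]
      exact t.T0
    | succ N ih =>
      intro i hi h0 h1
      by_cases hi0 : i = 0
      · subst hi0
        refine ⟨0, by simp, ?_⟩
        intro j hj
        obtain rfl : j = 0 := by omega
        simp only [Nat.cast_zero, zero_mul, le_refl, and_true]
        exact t.T0
      · obtain ⟨h2, h2'⟩ := T1' i hi (by omega)
        obtain ⟨n, hn, hn'⟩ := ih (i - k) h2 h2' (by push_cast at h1; omega)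
        have hin : i = ((n + 1 : ℕ) : ℤ) * k := by push_cast; linarith
        refine ⟨n + 1, hin, ?_⟩
        intro j hj
        rcases Nat.lt_or_ge j (n + 1) with hj' | hj'
        · exact hn' j (by omega)
        · obtain rfl : j = n + 1 := by omega
          rw [← hin]
          exact ⟨hi, h0⟩
  obtain ⟨c1, _, _, _⟩ := t.halves
  set A := T.filter (fun a => 0 ≤ a) with hA
  have hk0 : 0 < k := by omega
  have hAc := chain_card A hk0 (by rw [hA, mem_filter]; exact ⟨t.T0, le_rfl⟩) (by
    intro i hi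
    rw [hA, mem_filter] at hi
    obtain ⟨n, h1, h2⟩ := chain i.toNat i hi.1 hi.2 (by omega)
    refine ⟨n, h1, ?_⟩
    intro j hj
    rw [hA, mem_filter]
    exact h2 j hj)
  obtain ⟨r, hr⟩ : ∃ r : ℕ, A.card = r + 1 := ⟨A.card - 1, by omega⟩
  have hγ : γ = 2 * r + 1 := by omega
  have hr1 : 1 ≤ r := by omega
  rw [hr] at hAc
  have hA1 : ∀ a ∈ T, 0 ≤ a → ∃ j : ℕ, j ≤ r ∧ a = j * k := by
    intro a ha h0
    obtain ⟨j, hj, hj'⟩ := (hAc a).1 (by rw [hA, mem_filter]; exact ⟨ha, h0⟩)
    exact ⟨j, by omega, hj'⟩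
  have hA2 : ∀ j : ℕ, j ≤ r → (j : ℤ) * k ∈ T := by
    intro j hj
    have := (hAc (j * k)).2 ⟨j, by omega, rfl⟩
    rw [hA, mem_filter] at this
    exact this.1
  -- δ = r k + g
  have hδ : δ = r * k + g := by
    have h1 : δ - g ∈ T := by
      rcases (t.xn (δ - g) (by have := s.gle; omega) (by omega)).1 s.x2 with h1 | h1
      · exact h1
      · exact absurd (q3.1 h1) h
    obtain ⟨j, hj, hj'⟩ := hA1 _ h1 (by have := s.gle; omega)
    have h2 := (s.tt1 h (hA2 r le_rfl) (by positivity)).2
    have h4 : (j : ℤ) * k ≤ r * k := by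
      apply mul_le_mul_of_nonneg_right _ hk0.le
      exact_mod_cast hj
    linarith
  -- symmetry of T
  have hsym : ∀ a, 0 ≤ a → (a ∈ T ↔ -a ∈ T) := by
    intro a h0
    constructor
    · intro ha
      obtain ⟨h1, h2⟩ := s.tt1 h ha h0
      have := s.swap.tt2 hsw h1 h2
      rwa [mem_ng, add_sub_cancel_right] at this
    · intro ha
      obtain ⟨h1, h2⟩ := s.swap.tt1 hsw (a := a) (mem_ng.2 ha) h0
      have := s.tt2 h h1 h2
      rwa [add_sub_cancel_right] at this
  have hTm : ∀ a ∈ T, a ∈ mult k r := by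
    intro a ha
    rw [mem_mult]
    rcases le_total 0 a with h0 | h0
    · obtain ⟨j, hj, hj'⟩ := hA1 a ha h0
      exact ⟨j, by omega, by omega, by rw [hj']; ring⟩
    · obtain ⟨j, hj, hj'⟩ := hA1 (-a) ((hsym (-a) (by omega)).2 (by rwa [neg_neg])) (by omega)
      exact ⟨-j, by omega, by omega, by linarith⟩
  have hSm : ∀ a ∈ S, a - δ ∈ mult k r := by
    intro a ha
    rw [mem_mult]
    rcases le_total a δ with h0 | h0
    · have h1 := s.tt2 h ha h0
      have h2 := s.G.gX a (t.mX_of_S ha h0) (t.Sb a ha).1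
      obtain ⟨j, hj, hj'⟩ := hA1 _ h1 (by omega)
      exact ⟨j - r, by omega, by omega, by rw [hδ]; linarith⟩
    · have h1 := s.reflY.tt1 hrY (a := a - δ)
        (by rw [mem_ng, mem_rf, show δ - -(a - δ) = a by ring]; exact ha) (by omega)
      rw [mem_rf, mem_ng, show -(δ - (a - δ + g)) = -(2 * δ - g - a) by ring] at h1
      have h2 := (hsym (2 * δ - g - a) (by omega)).2 h1.1
      obtain ⟨j, hj, hj'⟩ := hA1 _ h2 (by omega)
      exact ⟨r - j, by omega, by omega, by rw [hδ] at hj' ⊢; linarith⟩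
  by_cases hk2 : (2 : ℤ) ∣ k
  · have hg2 : (2 : ℤ) ∣ g := by
      have h1 := t.deven
      rw [hδ] at h1
      have h2 : (2 : ℤ) ∣ r * k := Dvd.dvd.mul_left hk2 _
      omega
    have hk4 : 4 ≤ k := by omega
    have hle := t.dle
    have hr1' : (1 : ℤ) ≤ r := by exact_mod_cast hr1
    have hg2' : 2 ≤ g := by omega
    have hk4' : k = 4 := by
      by_contra hne4
      have h5 : 5 ≤ k := by omega
      have h6 : (r : ℤ) * 5 ≤ r * k := mul_le_mul_of_nonneg_left h5 (by positivity)
      omega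
    subst hk4'
    have hg2'' : g = 2 := by omega
    subst hg2''
    apply t.ap2 (by omega)
    · intro x h0 h1 h2
      by_cases h4 : (4 : ℤ) ∣ x
      · obtain ⟨c, rfl⟩ := h4
        have := hA2 c.toNat (by omega)
        rw [show ((c.toNat : ℕ) : ℤ) * 4 = 4 * c by omega] at this
        exact t.mX_of_T this h0
      · have := hA2 (x / 4).toNat (by omega)
        have h5 := (s.tt1 h this (by omega))
        rw [show (((x / 4).toNat : ℕ) : ℤ) * 4 + 2 = x by omega] at h5
        exact t.mX_of_S h5.1 h5.2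
    · intro x h0 h1 h2
      by_cases h4 : (4 : ℤ) ∣ x
      · obtain ⟨c, rfl⟩ := h4
        have := hA2 c.toNat (by omega)
        rw [show ((c.toNat : ℕ) : ℤ) * 4 = 4 * c by omega] at this
        exact t.mY_of_T ((hsym _ h0).1 this) h0
      · have := hA2 (x / 4).toNat (by omega)
        have h5 := (s.tt1 h this (by omega))
        rw [show (((x / 4).toNat : ℕ) : ℤ) * 4 + 2 = x by omega] at h5
        exact t.mY_of_S h5.1 h5.2
  · exact (t.k1 hk0 hk2 r hr1 hγ hTm hSm).elim

end Pool.Agent.J4.H36.Queens
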