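import Pool.Agent.J4.H36.Queens.Final

set_option autoImplicit false

namespace Pool.Agent.J4.H36.Queens

open Finset

/-- A tight configuration in box coordinates: `D` the queens, `X`, `Y` the free columns and rows,
`T` the difference diagonals and `S` the sum diagonals. -/
structure Tight (γ δ : ℤ) (D : Finset (ℤ × ℤ)) (X Y T S : Finset ℤ) : Prop where
  cD : (D.card : ℤ) = γ
  cX : (X.card : ℤ) = γ + 1
  cY : (Y.card : ℤ) = γ + 1
  dpos : 0 < δ
  dle : δ ≤ 2 * γ
  Xb : ∀ x ∈ X, 0 ≤ x ∧ x ≤ δ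
  Yb : ∀ y ∈ Y, 0 ≤ y ∧ y ≤ δ
  X0 : (0 : ℤ) ∈ X
  Xd : δ ∈ X
  Y0 : (0 : ℤ) ∈ Y
  Yd : δ ∈ Y
  Tb : ∀ t ∈ T, -δ < t ∧ t < δ
  Sb : ∀ s ∈ S, 0 < s ∧ s < 2 * δ
  xn : ∀ x, 0 ≤ x → x ≤ δ → (x ∈ X ↔ (x ∈ T ∨ x ∈ S))
  xn' : ∀ x, 0 ≤ x → x ≤ δ → ¬ (x ∈ T ∧ x ∈ S)
  xf : ∀ x, 0 ≤ x → x ≤ δ → (x ∈ X ↔ (x - δ ∈ T ∨ x + δ ∈ S))
  xf' : ∀ x, 0 ≤ x → x ≤ δ → ¬ (x - δ ∈ T ∧ x + δ ∈ S)
  yn : ∀ y, 0 ≤ y → y ≤ δ → (y ∈ Y ↔ (-y ∈ T ∨ y ∈ S))
  yn' : ∀ y, 0 ≤ y → y ≤ δ → ¬ (-y ∈ T ∧ y ∈ S)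
  yf : ∀ y, 0 ≤ y → y ≤ δ → (y ∈ Y ↔ (δ - y ∈ T ∨ y + δ ∈ S))
  yf' : ∀ y, 0 ≤ y → y ≤ δ → ¬ (δ - y ∈ T ∧ y + δ ∈ S)
  cov : ∀ x ∈ X, ∀ y ∈ Y, x - y ∈ T ∨ x + y ∈ S
  iX : Set.InjOn (fun q : ℤ × ℤ => q.1) D
  iY : Set.InjOn (fun q : ℤ × ℤ => q.2) D
  iT : Set.InjOn (fun q : ℤ × ℤ => q.1 - q.2) D
  iS : Set.InjOn (fun q : ℤ × ℤ => q.1 + q.2) D
  dX : ∀ q ∈ D, q.1 ∉ X
  dY : ∀ q ∈ D, q.2 ∉ Y
  dT : ∀ t, t ∈ T ↔ ∃ q ∈ D, q.1 - q.2 = t
  dS : ∀ s, s ∈ S ↔ ∃ q ∈ D, q.1 + q.2 = s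
  bx : ∃ a : ℤ, (∀ x ∈ X, a ≤ x ∧ x ≤ a + 2 * γ) ∧ ∀ q ∈ D, a ≤ q.1 ∧ q.1 ≤ a + 2 * γ
  by' : ∃ a : ℤ, (∀ y ∈ Y, a ≤ y ∧ y ≤ a + 2 * γ) ∧ ∀ q ∈ D, a ≤ q.2 ∧ q.2 ≤ a + 2 * γ

/-- Negation of a finite set. -/
noncomputable def ng (F : Finset ℤ) : Finset ℤ := F.image (fun x => -x)

/-- Reflection of a finite set. -/
noncomputable def rf (δ : ℤ) (F : Finset ℤ) : Finset ℤ := F.image (fun x => δ - x)

theorem mem_ng {F : Finset ℤ} {a : ℤ} : a ∈ ng F ↔ -a ∈ F := by
  rw [ng, mem_image]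
  constructor
  · rintro ⟨b, hb, rfl⟩; rwa [neg_neg]
  · intro h; exact ⟨-a, h, neg_neg a⟩

theorem mem_rf {δ : ℤ} {F : Finset ℤ} {a : ℤ} : a ∈ rf δ F ↔ δ - a ∈ F := by
  rw [rf, mem_image]
  constructor
  · rintro ⟨b, hb, rfl⟩; rwa [sub_sub_cancel]
  · intro h; exact ⟨δ - a, h, sub_sub_cancel δ a⟩

theorem card_rf (δ : ℤ) (F : Finset ℤ) : (rf δ F).card = F.card := by
  rw [rf, card_image_of_injective]
  intro a b h
  simpa using h

/-- Swapped queens. -/
noncomputable def swD (D : Finset (ℤ × ℤ)) : Finset (ℤ × ℤ) := D.image Prod.swap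

theorem mem_swD {D : Finset (ℤ × ℤ)} {q : ℤ × ℤ} : q ∈ swD D ↔ (q.2, q.1) ∈ D := by
  rw [swD, mem_image]
  constructor
  · rintro ⟨b, hb, rfl⟩; simpa using hb
  · intro h; exact ⟨(q.2, q.1), h, rfl⟩

/-- Reflected queens. -/
noncomputable def rfD (δ : ℤ) (D : Finset (ℤ × ℤ)) : Finset (ℤ × ℤ) :=
  D.image (fun q => (δ - q.1, q.2))

theorem mem_rfD {δ : ℤ} {D : Finset (ℤ × ℤ)} {q : ℤ × ℤ} :
    q ∈ rfD δ D ↔ (δ - q.1, q.2) ∈ D := by
  rw [rfD, mem_image]
  constructor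
  · rintro ⟨b, hb, rfl⟩; simpa using hb
  · intro h; exact ⟨(δ - q.1, q.2), h, by simp⟩

theorem Tight.swap {γ δ : ℤ} {D : Finset (ℤ × ℤ)} {X Y T S : Finset ℤ}
    (t : Tight γ δ D X Y T S) : Tight γ δ (swD D) Y X (ng T) S where
  cD := by rw [swD, card_image_of_injective _ Prod.swap_injective]; exact t.cD
  cX := t.cY
  cY := t.cX
  dpos := t.dpos
  dle := t.dle
  Xb := t.Yb
  Yb := t.Xb
  X0 := t.Y0
  Xd := t.Yd
  Y0 := t.X0
  Yd := t.Xd
  Tb := by
    intro a ha
    have := t.Tb _ (mem_ng.1 ha)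
    omega
  Sb := t.Sb
  xn := by intro x h1 h2; rw [mem_ng]; exact t.yn x h1 h2
  xn' := by intro x h1 h2; rw [mem_ng]; exact t.yn' x h1 h2
  xf := by intro x h1 h2; rw [mem_ng, neg_sub]; exact t.yf x h1 h2
  xf' := by intro x h1 h2; rw [mem_ng, neg_sub]; exact t.yf' x h1 h2
  yn := by intro x h1 h2; rw [mem_ng, neg_neg]; exact t.xn x h1 h2
  yn' := by intro x h1 h2; rw [mem_ng, neg_neg]; exact t.xn' x h1 h2
  yf := by intro x h1 h2; rw [mem_ng, neg_sub]; exact t.xf x h1 h2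
  yf' := by intro x h1 h2; rw [mem_ng, neg_sub]; exact t.xf' x h1 h2
  cov := by
    intro x hx y hy
    rw [mem_ng, neg_sub, add_comm]
    exact t.cov y hy x hx
  iX := by
    intro a ha b hb h
    rw [mem_coe, mem_swD] at ha hb
    have := t.iY ha hb h
    exact Prod.ext (congrArg Prod.snd this) (congrArg Prod.fst this)
  iY := by
    intro a ha b hb h
    rw [mem_coe, mem_swD] at ha hb
    have := t.iX ha hb h
    exact Prod.ext (congrArg Prod.snd this) (congrArg Prod.fst this)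
  iT := by
    intro a ha b hb h
    rw [mem_coe, mem_swD] at ha hb
    have := t.iT ha hb (by simp only at h ⊢; omega)
    exact Prod.ext (congrArg Prod.snd this) (congrArg Prod.fst this)
  iS := by
    intro a ha b hb h
    rw [mem_coe, mem_swD] at ha hb
    have := t.iS ha hb (by simp only at h ⊢; omega)
    exact Prod.ext (congrArg Prod.snd this) (congrArg Prod.fst this)
  dX := by
    intro q hq
    exact t.dY _ (mem_swD.1 hq)
  dY := by
    intro q hq
    exact t.dX _ (mem_swD.1 hq)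
  dT := by
    intro a
    rw [mem_ng, t.dT]
    constructor
    · rintro ⟨q, hq, h⟩
      exact ⟨(q.2, q.1), mem_swD.2 hq, by simp only; omega⟩
    · rintro ⟨q, hq, h⟩
      exact ⟨(q.2, q.1), mem_swD.1 hq, by simp only; omega⟩
  dS := by
    intro a
    rw [t.dS]
    constructor
    · rintro ⟨q, hq, h⟩
      exact ⟨(q.2, q.1), mem_swD.2 hq, by simp only; omega⟩
    · rintro ⟨q, hq, h⟩
      exact ⟨(q.2, q.1), mem_swD.1 hq, by simp only; omega⟩
  bx := by
    obtain ⟨a, h1, h2⟩ := t.by'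
    exact ⟨a, h1, fun q hq => h2 _ (mem_swD.1 hq)⟩
  by' := by
    obtain ⟨a, h1, h2⟩ := t.bx
    exact ⟨a, h1, fun q hq => h2 _ (mem_swD.1 hq)⟩

theorem Tight.refl {γ δ : ℤ} {D : Finset (ℤ × ℤ)} {X Y T S : Finset ℤ}
    (t : Tight γ δ D X Y T S) : Tight γ δ (rfD δ D) (rf δ X) Y (rf δ S) (rf δ T) where
  cD := by
    rw [rfD, card_image_of_injective]
    · exact t.cD
    · intro a b h
      simp only [Prod.mk.injEq] at h
      exact Prod.ext (by omega) h.2
  cX := by rw [card_rf]; exact t.cX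
  cY := t.cY
  dpos := t.dpos
  dle := t.dle
  Xb := by
    intro x hx
    have := t.Xb _ (mem_rf.1 hx)
    omega
  Yb := t.Yb
  X0 := by rw [mem_rf, sub_zero]; exact t.Xd
  Xd := by rw [mem_rf, sub_self]; exact t.X0
  Y0 := t.Y0
  Yd := t.Yd
  Tb := by
    intro a ha
    have := t.Sb _ (mem_rf.1 ha)
    omega
  Sb := by
    intro a ha
    have := t.Tb _ (mem_rf.1 ha)
    omega
  xn := by
    intro x h1 h2
    rw [mem_rf, mem_rf, mem_rf, t.xn (δ - x) (by omega) (by omega)]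
    exact or_comm
  xn' := by
    intro x h1 h2
    rw [mem_rf, mem_rf, and_comm]
    exact t.xn' (δ - x) (by omega) (by omega)
  xf := by
    intro x h1 h2
    rw [mem_rf, mem_rf, mem_rf, t.xf (δ - x) (by omega) (by omega),
      show δ - x - δ = δ - (x + δ) by ring, show δ - x + δ = δ - (x - δ) by ring]
    exact or_comm
  xf' := by
    intro x h1 h2
    rw [mem_rf, mem_rf, and_comm, show δ - (x - δ) = δ - x + δ by ring,
      show δ - (x + δ) = δ - x - δ by ring]
    exact t.xf' (δ - x) (by omega) (by omega)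
  yn := by
    intro x h1 h2
    rw [mem_rf, mem_rf, show δ - -x = x + δ by ring, t.yf x h1 h2]
    exact or_comm
  yn' := by
    intro x h1 h2
    rw [mem_rf, mem_rf, show δ - -x = x + δ by ring, and_comm]
    exact t.yf' x h1 h2
  yf := by
    intro x h1 h2
    rw [mem_rf, mem_rf, show δ - (δ - x) = x by ring, show δ - (x + δ) = -x by ring,
      t.yn x h1 h2]
    exact or_comm
  yf' := by
    intro x h1 h2
    rw [mem_rf, mem_rf, show δ - (δ - x) = x by ring, show δ - (x + δ) = -x by ring, and_comm]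
    exact t.yn' x h1 h2
  cov := by
    intro x hx y hy
    rw [mem_rf, mem_rf, show δ - (x - y) = (δ - x) + y by ring,
      show δ - (x + y) = (δ - x) - y by ring]
    exact (t.cov _ (mem_rf.1 hx) y hy).symm
  iX := by
    intro a ha b hb h
    rw [mem_coe, mem_rfD] at ha hb
    have := t.iX ha hb (by simp only at h ⊢; omega)
    rw [Prod.ext_iff] at this
    exact Prod.ext (by simp only at this; omega) this.2
  iY := by
    intro a ha b hb h
    rw [mem_coe, mem_rfD] at ha hb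
    have := t.iY ha hb (by simp only at h ⊢; omega)
    rw [Prod.ext_iff] at this
    exact Prod.ext (by simp only at this; omega) this.2
  iT := by
    intro a ha b hb h
    rw [mem_coe, mem_rfD] at ha hb
    have := t.iS ha hb (by simp only at h ⊢; omega)
    rw [Prod.ext_iff] at this
    exact Prod.ext (by simp only at this; omega) this.2
  iS := by
    intro a ha b hb h
    rw [mem_coe, mem_rfD] at ha hb
    have := t.iT ha hb (by simp only at h ⊢; omega)
    rw [Prod.ext_iff] at this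
    exact Prod.ext (by simp only at this; omega) this.2
  dX := by
    intro q hq
    rw [mem_rf]
    exact t.dX _ (mem_rfD.1 hq)
  dY := by
    intro q hq
    exact t.dY (δ - q.1, q.2) (mem_rfD.1 hq)
  dT := by
    intro a
    rw [mem_rf, t.dS]
    constructor
    · rintro ⟨q, hq, h⟩
      exact ⟨(δ - q.1, q.2), mem_rfD.2 (by simpa using hq), by simp only; omega⟩
    · rintro ⟨q, hq, h⟩
      exact ⟨(δ - q.1, q.2), mem_rfD.1 hq, by simp only; omega⟩
  dS := by
    intro a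
    rw [mem_rf, t.dT]
    constructor
    · rintro ⟨q, hq, h⟩
      exact ⟨(δ - q.1, q.2), mem_rfD.2 (by simpa using hq), by simp only; omega⟩
    · rintro ⟨q, hq, h⟩
      exact ⟨(δ - q.1, q.2), mem_rfD.1 hq, by simp only; omega⟩
  bx := by
    obtain ⟨a, h1, h2⟩ := t.bx
    refine ⟨δ - a - 2 * γ, ?_, ?_⟩
    · intro x hx
      have := h1 _ (mem_rf.1 hx)
      omega
    · intro q hq
      have := h2 _ (mem_rfD.1 hq)
      simp only at this
      omega
  by' := by
    obtain ⟨a, h1, h2⟩ := t.by'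
    exact ⟨a, h1, fun q hq => h2 (δ - q.1, q.2) (mem_rfD.1 hq)⟩

theorem Tight.reflY {γ δ : ℤ} {D : Finset (ℤ × ℤ)} {X Y T S : Finset ℤ}
    (t : Tight γ δ D X Y T S) :
    Tight γ δ (swD (rfD δ (swD D))) X (rf δ Y) (ng (rf δ S)) (rf δ (ng T)) :=
  t.swap.refl.swap

variable {γ δ : ℤ} {D : Finset (ℤ × ℤ)} {X Y T S : Finset ℤ}

theorem Tight.T0 (t : Tight γ δ D X Y T S) : (0 : ℤ) ∈ T := by
  rcases (t.xn 0 le_rfl t.dpos.le).1 t.X0 with h | h
  · exact h
  · exact absurd (t.Sb _ h).1 (lt_irrefl _)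

theorem Tight.Sd (t : Tight γ δ D X Y T S) : δ ∈ S := by
  rcases (t.xn δ t.dpos.le le_rfl).1 t.Xd with h | h
  · exact absurd (t.Tb _ h).2 (lt_irrefl _)
  · exact h

theorem Tight.Timg (t : Tight γ δ D X Y T S) : T = D.image (fun q => q.1 - q.2) := by
  ext a; rw [t.dT, mem_image]

theorem Tight.Simg (t : Tight γ δ D X Y T S) : S = D.image (fun q => q.1 + q.2) := by
  ext a; rw [t.dS, mem_image]

theorem Tight.cT (t : Tight γ δ D X Y T S) : (T.card : ℤ) = γ := by
  rw [t.Timg, card_image_of_injOn t.iT, t.cD]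

theorem Tight.cS (t : Tight γ δ D X Y T S) : (S.card : ℤ) = γ := by
  rw [t.Simg, card_image_of_injOn t.iS, t.cD]

/-- Cardinalities of the four halves. -/
theorem Tight.halves (t : Tight γ δ D X Y T S) :
    2 * ((T.filter (fun a => 0 ≤ a)).card : ℤ) = γ + 1 ∧
    2 * ((T.filter (fun a => a ≤ 0)).card : ℤ) = γ + 1 ∧
    2 * ((S.filter (fun a => a ≤ δ)).card : ℤ) = γ + 1 ∧
    2 * ((S.filter (fun a => δ ≤ a)).card : ℤ) = γ + 1 := by
  have hd := t.dpos
  set A := T.filter (fun a => 0 ≤ a) with hA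
  set B := T.filter (fun a => a ≤ 0) with hB
  set L := S.filter (fun a => a ≤ δ) with hL
  set U := S.filter (fun a => δ ≤ a) with hU
  have h1 : X = A ∪ L := by
    ext x
    rw [mem_union, hA, hL, mem_filter, mem_filter]
    constructor
    · intro hx
      have hb := t.Xb x hx
      rcases (t.xn x hb.1 hb.2).1 hx with h | h
      · exact Or.inl ⟨h, hb.1⟩
      · exact Or.inr ⟨h, hb.2⟩
    · rintro (⟨h, h'⟩ | ⟨h, h'⟩)
      · exact (t.xn x h' (t.Tb x h).2.le).2 (Or.inl h)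
      · exact (t.xn x (t.Sb x h).1.le h').2 (Or.inr h)
  have h1d : Disjoint A L := by
    rw [disjoint_left]
    intro a ha hl
    rw [hA, mem_filter] at ha
    rw [hL, mem_filter] at hl
    exact t.xn' a ha.2 hl.2 ⟨ha.1, hl.1⟩
  have h2 : Y = ng B ∪ L := by
    ext x
    rw [mem_union, mem_ng, hB, hL, mem_filter, mem_filter]
    constructor
    · intro hx
      have hb := t.Yb x hx
      rcases (t.yn x hb.1 hb.2).1 hx with h | h
      · exact Or.inl ⟨h, by omega⟩
      · exact Or.inr ⟨h, hb.2⟩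
    · rintro (⟨h, h'⟩ | ⟨h, h'⟩)
      · exact (t.yn x (by omega) (by have := (t.Tb _ h).1; omega)).2 (Or.inl h)
      · exact (t.yn x (t.Sb x h).1.le h').2 (Or.inr h)
  have h2d : Disjoint (ng B) L := by
    rw [disjoint_left]
    intro a ha hl
    rw [mem_ng, hB, mem_filter] at ha
    rw [hL, mem_filter] at hl
    exact t.yn' a (by omega) hl.2 ⟨ha.1, hl.1⟩
  have h2c : (ng B).card = B.card := by
    rw [ng, card_image_of_injective _ neg_injective]
  have h3 : X = B.image (fun a => a + δ) ∪ U.image (fun a => a - δ) := by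
    ext x
    rw [mem_union, mem_image, mem_image]
    constructor
    · intro hx
      have hb := t.Xb x hx
      rcases (t.xf x hb.1 hb.2).1 hx with h | h
      · exact Or.inl ⟨x - δ, by rw [hB, mem_filter]; exact ⟨h, by omega⟩, by ring⟩
      · exact Or.inr ⟨x + δ, by rw [hU, mem_filter]; exact ⟨h, by omega⟩, by ring⟩
    · rintro (⟨a, ha, rfl⟩ | ⟨a, ha, rfl⟩)
      · rw [hB, mem_filter] at ha
        have := t.Tb a ha.1
        exact (t.xf _ (by omega) (by omega)).2 (Or.inl (by rw [add_sub_cancel_right]; exact ha.1))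
      · rw [hU, mem_filter] at ha
        have := t.Sb a ha.1
        exact (t.xf _ (by omega) (by omega)).2 (Or.inr (by rw [sub_add_cancel]; exact ha.1))
  have h3d : Disjoint (B.image (fun a => a + δ)) (U.image (fun a => a - δ)) := by
    rw [disjoint_left]
    intro x hx hx'
    rw [mem_image] at hx hx'
    obtain ⟨a, ha, rfl⟩ := hx
    obtain ⟨b, hb, hab⟩ := hx'
    rw [hB, mem_filter] at ha
    rw [hU, mem_filter] at hb
    have := t.Tb a ha.1
    apply t.xf' (a + δ) (by omega) (by omega)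
    rw [add_sub_cancel_right]
    refine ⟨ha.1, ?_⟩
    rw [show a + δ + δ = b by omega]
    exact hb.1
  have h4 : A ∪ B = T := by
    ext a
    rw [mem_union, hA, hB, mem_filter, mem_filter]
    constructor
    · rintro (h | h) <;> exact h.1
    · intro h
      rcases le_total 0 a with h' | h'
      · exact Or.inl ⟨h, h'⟩
      · exact Or.inr ⟨h, h'⟩
  have h5 : A ∩ B = {0} := by
    ext a
    rw [mem_inter, hA, hB, mem_filter, mem_filter, mem_singleton]
    constructor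
    · rintro ⟨⟨_, h⟩, ⟨_, h'⟩⟩; omega
    · rintro rfl; exact ⟨⟨t.T0, le_rfl⟩, ⟨t.T0, le_rfl⟩⟩
  have e1 := congrArg card h1
  rw [card_union_of_disjoint h1d] at e1
  have e2 := congrArg card h2
  rw [card_union_of_disjoint h2d, h2c] at e2
  have e3 := congrArg card h3
  rw [card_union_of_disjoint h3d, card_image_of_injective _ (add_left_injective δ),
    card_image_of_injective _ (sub_left_injective)] at e3
  have e4 := card_union_add_card_inter A B
  rw [h4, h5, card_singleton] at e4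
  have c1 := t.cX
  have c2 := t.cY
  have c3 := t.cT
  omega

/-- Twice the sum over `X`. -/
theorem Tight.sumX (t : Tight γ δ D X Y T S) :
    δ = 2 * (∑ x ∈ X, x - ∑ q ∈ D, q.1) := by
  have hd := t.dpos
  obtain ⟨k1, k2, k3, k4⟩ := t.halves
  set A := T.filter (fun a => 0 ≤ a) with hA
  set B := T.filter (fun a => a ≤ 0) with hB
  set L := S.filter (fun a => a ≤ δ) with hL
  set U := S.filter (fun a => δ ≤ a) with hU
  have h1 : X = A ∪ L := by
    ext x
    rw [mem_union, hA, hL, mem_filter, mem_filter]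
    constructor
    · intro hx
      have hb := t.Xb x hx
      rcases (t.xn x hb.1 hb.2).1 hx with h | h
      · exact Or.inl ⟨h, hb.1⟩
      · exact Or.inr ⟨h, hb.2⟩
    · rintro (⟨h, h'⟩ | ⟨h, h'⟩)
      · exact (t.xn x h' (t.Tb x h).2.le).2 (Or.inl h)
      · exact (t.xn x (t.Sb x h).1.le h').2 (Or.inr h)
  have h1d : Disjoint A L := by
    rw [disjoint_left]
    intro a ha hl
    rw [hA, mem_filter] at ha
    rw [hL, mem_filter] at hl
    exact t.xn' a ha.2 hl.2 ⟨ha.1, hl.1⟩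
  have h3 : X = B.image (fun a => a + δ) ∪ U.image (fun a => a - δ) := by
    ext x
    rw [mem_union, mem_image, mem_image]
    constructor
    · intro hx
      have hb := t.Xb x hx
      rcases (t.xf x hb.1 hb.2).1 hx with h | h
      · exact Or.inl ⟨x - δ, by rw [hB, mem_filter]; exact ⟨h, by omega⟩, by ring⟩
      · exact Or.inr ⟨x + δ, by rw [hU, mem_filter]; exact ⟨h, by omega⟩, by ring⟩
    · rintro (⟨a, ha, rfl⟩ | ⟨a, ha, rfl⟩)
      · rw [hB, mem_filter] at ha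
        have := t.Tb a ha.1
        exact (t.xf _ (by omega) (by omega)).2 (Or.inl (by rw [add_sub_cancel_right]; exact ha.1))
      · rw [hU, mem_filter] at ha
        have := t.Sb a ha.1
        exact (t.xf _ (by omega) (by omega)).2 (Or.inr (by rw [sub_add_cancel]; exact ha.1))
  have h3d : Disjoint (B.image (fun a => a + δ)) (U.image (fun a => a - δ)) := by
    rw [disjoint_left]
    intro x hx hx'
    rw [mem_image] at hx hx'
    obtain ⟨a, ha, rfl⟩ := hx
    obtain ⟨b, hb, hab⟩ := hx'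
    rw [hB, mem_filter] at ha
    rw [hU, mem_filter] at hb
    have := t.Tb a ha.1
    apply t.xf' (a + δ) (by omega) (by omega)
    rw [add_sub_cancel_right]
    refine ⟨ha.1, ?_⟩
    rw [show a + δ + δ = b by omega]
    exact hb.1
  have e1 : ∑ x ∈ X, x = ∑ x ∈ A, x + ∑ x ∈ L, x := by
    conv_lhs => rw [h1]
    exact sum_union h1d
  have e3 : ∑ x ∈ X, x = (∑ x ∈ B, x + B.card * δ) + (∑ x ∈ U, x - U.card * δ) := by
    conv_lhs => rw [h3]
    rw [sum_union h3d, sum_image (fun a _ b _ h => add_left_injective δ h),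
      sum_image (fun a _ b _ h => sub_left_injective h), sum_add_distrib, sum_sub_distrib,
      sum_const, sum_const, nsmul_eq_mul, nsmul_eq_mul]
  have e4 : ∑ x ∈ A, x + ∑ x ∈ B, x = ∑ x ∈ T, x := by
    have h4 : A ∪ B = T := by
      ext a
      rw [mem_union, hA, hB, mem_filter, mem_filter]
      constructor
      · rintro (h | h) <;> exact h.1
      · intro h
        rcases le_total 0 a with h' | h'
        · exact Or.inl ⟨h, h'⟩
        · exact Or.inr ⟨h, h'⟩
    have h5 : A ∩ B = {0} := by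
      ext a
      rw [mem_inter, hA, hB, mem_filter, mem_filter, mem_singleton]
      constructor
      · rintro ⟨⟨_, h⟩, ⟨_, h'⟩⟩; omega
      · rintro rfl; exact ⟨⟨t.T0, le_rfl⟩, ⟨t.T0, le_rfl⟩⟩
    have := sum_union_inter (s₁ := A) (s₂ := B) (f := fun x : ℤ => x)
    rw [h4, h5, sum_singleton] at this
    linarith
  have e5 : ∑ x ∈ L, x + ∑ x ∈ U, x = ∑ x ∈ S, x + δ := by
    have h4 : L ∪ U = S := by
      ext a
      rw [mem_union, hL, hU, mem_filter, mem_filter]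
      constructor
      · rintro (h | h) <;> exact h.1
      · intro h
        rcases le_total a δ with h' | h'
        · exact Or.inl ⟨h, h'⟩
        · exact Or.inr ⟨h, h'⟩
    have h5 : L ∩ U = {δ} := by
      ext a
      rw [mem_inter, hL, hU, mem_filter, mem_filter, mem_singleton]
      constructor
      · rintro ⟨⟨_, h⟩, ⟨_, h'⟩⟩; omega
      · rintro rfl; exact ⟨⟨t.Sd, le_rfl⟩, ⟨t.Sd, le_rfl⟩⟩
    have := sum_union_inter (s₁ := L) (s₂ := U) (f := fun x : ℤ => x)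
    rw [h4, h5, sum_singleton] at this
    linarith
  have e6 : ∑ x ∈ T, x = ∑ q ∈ D, q.1 - ∑ q ∈ D, q.2 := by
    rw [t.Timg, sum_image t.iT, sum_sub_distrib]
  have e7 : ∑ x ∈ S, x = ∑ q ∈ D, q.1 + ∑ q ∈ D, q.2 := by
    rw [t.Simg, sum_image t.iS, sum_add_distrib]
  have e8 : (B.card : ℤ) = U.card := by omega
  rw [e8] at e3
  linarith

theorem Tight.deven (t : Tight γ δ D X Y T S) : (2 : ℤ) ∣ δ := ⟨_, t.sumX⟩

theorem Tight.full (t : Tight γ δ D X Y T S) : ∃ a : ℤ,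
    Disjoint X (D.image (fun q => q.1)) ∧ X ∪ D.image (fun q => q.1) = Icc a (a + 2 * γ) := by
  obtain ⟨a, h1, h2⟩ := t.bx
  have hdis : Disjoint X (D.image (fun q => q.1)) := by
    rw [disjoint_left]
    intro x hx hx'
    rw [mem_image] at hx'
    obtain ⟨q, hq, rfl⟩ := hx'
    exact t.dX q hq hx
  refine ⟨a, hdis, ?_⟩
  have hg : 0 ≤ γ := by have := t.dpos; have := t.dle; omega
  apply eq_of_subset_of_card_le
  · intro x hx
    rw [mem_union, mem_image] at hx
    rw [mem_Icc]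
    rcases hx with h | ⟨q, hq, rfl⟩
    · exact h1 x h
    · exact h2 q hq
  · rw [card_union_of_disjoint hdis, card_image_of_injOn t.iX, Int.card_Icc]
    have := t.cX
    have := t.cD
    omega

theorem Tight.outer (t : Tight γ δ D X Y T S) :
    2 * γ - δ ≤ ((D.filter (fun q => q.1 < 0 ∨ δ < q.1)).card : ℤ) := by
  obtain ⟨a, hdis, hfull⟩ := t.full
  have hg := t.dpos
  have hl := t.dle
  have ha : a ≤ 0 ∧ δ ≤ a + 2 * γ := by
    have h0 : (0 : ℤ) ∈ Icc a (a + 2 * γ) := by rw [← hfull, mem_union]; exact Or.inl t.X0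
    have h1 : δ ∈ Icc a (a + 2 * γ) := by rw [← hfull, mem_union]; exact Or.inl t.Xd
    rw [mem_Icc] at h0 h1
    omega
  have hsub : Icc a (a + 2 * γ) \ Icc 0 δ
      ⊆ (D.filter (fun q => q.1 < 0 ∨ δ < q.1)).image (fun q => q.1) := by
    intro x hx
    rw [mem_sdiff, mem_Icc (a := (0 : ℤ)), ← hfull, mem_union, mem_image] at hx
    obtain ⟨h | ⟨q, hq, hqx⟩, h2⟩ := hx
    · exact absurd (t.Xb x h) h2
    · rw [mem_image]
      refine ⟨q, ?_, hqx⟩
      rw [mem_filter]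
      exact ⟨hq, by subst hqx; omega⟩
  have c1 := card_le_card hsub
  have c2 : (Icc a (a + 2 * γ) \ Icc 0 δ).card
      = (Icc a (a + 2 * γ)).card - (Icc (0 : ℤ) δ).card := by
    apply card_sdiff_of_subset
    intro x hx
    rw [mem_Icc] at hx ⊢
    omega
  have c3 := card_image_le (s := D.filter (fun q => q.1 < 0 ∨ δ < q.1)) (f := fun q => q.1)
  rw [Int.card_Icc, Int.card_Icc] at c2
  omega

theorem Tight.dge (t : Tight γ δ D X Y T S) : 3 * γ ≤ 2 * δ := by
  have h1 := t.outer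
  have h2 := t.swap.outer
  have h3 : ((swD D).filter (fun q => q.1 < 0 ∨ δ < q.1)).card
      = (D.filter (fun q => q.2 < 0 ∨ δ < q.2)).card := by
    have : (swD D).filter (fun q => q.1 < 0 ∨ δ < q.1)
        = (D.filter (fun q => q.2 < 0 ∨ δ < q.2)).image Prod.swap := by
      ext q
      rw [mem_filter, mem_swD, mem_image]
      constructor
      · rintro ⟨h, h'⟩
        exact ⟨(q.2, q.1), by rw [mem_filter]; exact ⟨h, h'⟩, rfl⟩
      · rintro ⟨p, hp, rfl⟩
        rw [mem_filter] at hp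
        exact ⟨hp.1, hp.2⟩
    rw [this, card_image_of_injective _ Prod.swap_injective]
  have h4 : Disjoint (D.filter (fun q => q.1 < 0 ∨ δ < q.1))
      (D.filter (fun q => q.2 < 0 ∨ δ < q.2)) := by
    rw [disjoint_left]
    intro q hq hq'
    rw [mem_filter] at hq hq'
    have e1 := t.Tb _ ((t.dT _).2 ⟨q, hq.1, rfl⟩)
    have e2 := t.Sb _ ((t.dS _).2 ⟨q, hq.1, rfl⟩)
    omega
  have h5 : (D.filter (fun q => q.1 < 0 ∨ δ < q.1)) ∪ (D.filter (fun q => q.2 < 0 ∨ δ < q.2))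
      ⊆ D := union_subset (filter_subset _ _) (filter_subset _ _)
  have h6 := card_le_card h5
  rw [card_union_of_disjoint h4] at h6
  have := t.cD
  omega

end Pool.Agent.J4.H36.Queens
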