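import Pool.Agent.J4.H36.Queens.ZFacts

set_option autoImplicit false

namespace Pool.Agent.J4.H36.Queens

open Finset

variable {γ δ g : ℤ} {D : Finset (ℤ × ℤ)} {X Y T S : Finset ℤ}

/-- The dichotomy. -/
theorem Zc.ab (z : Zc γ δ g D X Y T S) {k : ℤ} (hk : k ∈ T) (hgk : g < k)
    (hmin : ∀ a ∈ T, g < a → k ≤ a) {θ : ℤ} (hθ : θ ∈ T) (hkθ : k < θ) (hθk : θ ≠ δ - g - k) :
    (θ - k ∈ T ∧ δ - g - θ - k ∈ T ∧ 0 < δ - g - θ - k) ∨
    (θ - k ∉ T ∧ δ - g - θ - k ∉ T ∧ θ - k + g ∈ T ∧ θ - k - g ∈ T ∧ g < θ - k ∧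
      δ - g - θ - k + g ∈ T ∧ δ - g - θ - k - g ∈ T ∧ g < δ - g - θ - k) := by
  have hg0 := z.G.gpos
  obtain ⟨m1, m2⟩ := z.mir hθ (by omega)
  have m3 := hmin _ m1 m2
  obtain ⟨n1, n2⟩ := z.mir hk hgk
  have hQ : 0 < δ - g - θ - k := by omega
  have r1 := z.rule hθ hk (by omega) (by omega)
  have r2 := z.rule m1 hk (by omega) (by omega)
  have r3 := z.rule hθ n1 (by omega) (by omega)
  have r4 := z.rule m1 n1 (by omega) (by omega)
  rw [show δ - θ - k = δ - g - θ - k + g by ring] at r1
  rw [show δ - (δ - g - θ) - k = θ - k + g by ring] at r2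
  have r3' : δ - g - θ - k ∈ T ∨ θ - k - g ∈ T := by
    rcases r3 with h | h
    · left
      have := z.symm' h
      rwa [show -(θ - (δ - g - k)) = δ - g - θ - k by ring] at this
    · right
      have := z.symm' h
      rwa [show -(δ - θ - (δ - g - k)) = θ - k - g by ring] at this
  have r4' : θ - k ∈ T ∨ δ - g - θ - k - g ∈ T := by
    rcases r4 with h | h
    · left
      have := z.symm' h
      rwa [show -(δ - g - θ - (δ - g - k)) = θ - k by ring] at this
    · right
      have := z.symm' h
      rwa [show -(δ - (δ - g - θ) - (δ - g - k)) = δ - g - θ - k - g by ring] at this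
  by_cases hP : θ - k ∈ T
  · left
    refine ⟨hP, ?_, hQ⟩
    rcases r2 with h | h
    · exact h
    · exact absurd h (z.disj hP (by omega))
  · by_cases hQT : δ - g - θ - k ∈ T
    · exfalso
      rcases r1 with h | h
      · exact hP h
      · exact z.disj hQT hQ h
    · right
      have p1 := r2.resolve_left hQT
      have p2 := r3'.resolve_left hQT
      have p3 := r1.resolve_left hP
      have p4 := r4'.resolve_left hP
      refine ⟨hP, hQT, p1, p2, ?_, p3, p4, ?_⟩
      · by_contra hle
        rcases lt_or_ge (θ - k) g with h | h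
        · have h1 := z.symm' p2
          have h2 := z.gap h1 (by omega)
          omega
        · apply hP
          rw [show θ - k = g by omega]
          exact z.gT
      · by_contra hle
        rcases lt_or_ge (δ - g - θ - k) g with h | h
        · have h1 := z.symm' p4
          have h2 := z.gap h1 (by omega)
          omega
        · apply hQT
          rw [show δ - g - θ - k = g by omega]
          exact z.gT

/-- First subcase: the second element is `2k`. -/
theorem Zc.case1 (z : Zc γ δ g D X Y T S) {k : ℤ} (hk : k ∈ T) (hgk : g < k)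
    (hmin : ∀ a ∈ T, g < a → k ≤ a) (h2k : 2 * k ∈ T)
    (hmin2 : ∀ a ∈ T, k < a → 2 * k ≤ a) (hlast : 2 * k ≠ δ - g - k) : False := by
  have t := z.t
  have hg0 := z.G.gpos
  have hk2g : k ≠ 2 * g := fun h => z.n2g (by rwa [← h])
  have claim : ∀ N : ℕ, ∀ θ : ℤ, θ ≤ N → θ ∈ T → g < θ → θ ≠ δ - g - k →
      ∃ j : ℕ, 1 ≤ j ∧ θ = j * k ∧ ∀ i : ℕ, 1 ≤ i → i ≤ j → (i : ℤ) * k ∈ T := by
    intro N
    induction N with
    | zero => intro θ h1 _ h2 _; push_cast at h1; omega
    | succ N ih =>
      intro θ h1 hθ hgθ hθk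
      by_cases hθ1 : θ = k
      · refine ⟨1, le_rfl, by rw [hθ1]; simp, ?_⟩
        intro i hi hi'
        obtain rfl : i = 1 := by omega
        simpa using hk
      · have hkθ : k < θ := by have := hmin θ hθ hgθ; omega
        have h2θ := hmin2 θ hθ hkθ
        obtain ⟨m1, m2⟩ := z.mir hθ hgθ
        have m3 := hmin _ m1 m2
        rcases z.ab hk hgk hmin hθ hkθ hθk with ⟨h3, _⟩ | ⟨h3, h4, h5, h6, h7, h8, h9, h10⟩
        · obtain ⟨j, hj1, hj2, hj3⟩ := ih (θ - k) (by push_cast at h1; omega) h3 (by omega)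
            (by omega)
          have hθj : θ = ((j + 1 : ℕ) : ℤ) * k := by push_cast; linarith
          refine ⟨j + 1, by omega, hθj, ?_⟩
          intro i hi hi'
          rcases Nat.lt_or_ge i (j + 1) with h | h
          · exact hj3 i hi (by omega)
          · obtain rfl : i = j + 1 := by omega
            rw [← hθj]; exact hθ
        · exfalso
          obtain ⟨j, hj1, hj2, hj3⟩ := ih (θ - k + g) (by push_cast at h1; omega) h5 (by omega)
            (by omega)
          have h11 := z.gap h6 (by omega)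
          by_cases h12 : θ - k - g = g
          · -- the exceptional possibility
            have h13 : 3 * g = j * k := by linarith
            have hj : j = 2 := by
              have hkg : k ≤ 2 * g := by omega
              by_contra hj
              have hj' : j = 1 ∨ 3 ≤ j := by omega
              rcases hj' with rfl | hj'
              · simp at h13; omega
              · have : (3 : ℤ) * k ≤ j * k := by
                  apply mul_le_mul_of_nonneg_right _ (by omega)
                  exact_mod_cast hj'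
                omega
            subst hj
            push_cast at h13
            have h14 := z.disj h8 (by omega)
            obtain ⟨m4, m5⟩ := z.mir h2k (by omega)
            apply h14
            rw [show δ - g - θ - k + g + g = δ - g - 2 * k by omega]
            exact m4
          · obtain ⟨j', hj1', hj2', hj3'⟩ := ih (θ - k - g) (by push_cast at h1; omega) h6
              (by omega) (by omega)
            have h13 : 2 * g = ((j : ℤ) - j') * k := by linarith
            have h14 : (j : ℤ) - j' = 1 ∨ (j : ℤ) - j' ≤ 0 ∨ 2 ≤ (j : ℤ) - j' := by omega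
            rcases h14 with h14 | h14 | h14
            · rw [h14] at h13; omega
            · have : ((j : ℤ) - j') * k ≤ 0 := mul_nonpos_of_nonpos_of_nonneg h14 (by omega)
              omega
            · have : (2 : ℤ) * k ≤ ((j : ℤ) - j') * k := mul_le_mul_of_nonneg_right h14 (by omega)
              omega
  have claim' : ∀ θ : ℤ, θ ∈ T → g < θ → θ ≠ δ - g - k →
      ∃ j : ℕ, 1 ≤ j ∧ θ = j * k ∧ ∀ i : ℕ, 1 ≤ i → i ≤ j → (i : ℤ) * k ∈ T := by
    intro θ h1 h2 h3
    exact claim θ.toNat θ (by omega) h1 h2 h3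
  obtain ⟨m1, m2⟩ := z.mir h2k (by omega)
  obtain ⟨m3, m4⟩ := z.mir hk hgk
  obtain ⟨j, hj1, hj2, hj3⟩ := claim' _ m1 m2 (by omega)
  have hδ : δ = (j + 2) * k + g := by linarith
  have hall : ∀ i : ℕ, 1 ≤ i → i ≤ j + 1 → (i : ℤ) * k ∈ T := by
    intro i hi hi'
    rcases Nat.lt_or_ge i (j + 1) with h | h
    · exact hj3 i hi (by omega)
    · obtain rfl : i = j + 1 := by omega
      rw [show ((j + 1 : ℕ) : ℤ) * k = δ - g - k by push_cast; linarith]
      exact m3
  have hcl : ∀ a ∈ T, g < a → ∃ i : ℕ, 1 ≤ i ∧ i ≤ j + 1 ∧ a = i * k := by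
    intro a ha hga
    by_cases h : a = δ - g - k
    · exact ⟨j + 1, by omega, le_rfl, by push_cast; linarith⟩
    · obtain ⟨i, hi1, hi2, _⟩ := claim' a ha hga h
      refine ⟨i, hi1, ?_, hi2⟩
      have h1 := z.mir ha hga
      have h2 := hmin _ h1.1 h1.2
      by_contra hlt
      have : ((j : ℤ) + 2) * k ≤ i * k := by
        apply mul_le_mul_of_nonneg_right _ (by omega)
        have : j + 2 ≤ i := by omega
        exact_mod_cast this
      omega
  -- cardinality
  have hk0 : 0 < k := by omega
  obtain ⟨c1, _, _, _⟩ := t.halves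
  have hAe : T.filter (fun a => 0 ≤ a)
      = insert 0 (insert g ((Icc 1 (j + 1)).image (fun i : ℕ => (i : ℤ) * k))) := by
    ext a
    rw [mem_filter, mem_insert, mem_insert, mem_image]
    constructor
    · rintro ⟨ha, h0⟩
      by_cases h1 : a = 0
      · exact Or.inl h1
      · have h2 := z.gap ha (by omega)
        by_cases h3 : a = g
        · exact Or.inr (Or.inl h3)
        · obtain ⟨i, hi1, hi2, hi3⟩ := hcl a ha (by omega)
          exact Or.inr (Or.inr ⟨i, by rw [mem_Icc]; exact ⟨hi1, hi2⟩, hi3.symm⟩)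
    · rintro (rfl | rfl | ⟨i, hi, rfl⟩)
      · exact ⟨t.T0, le_rfl⟩
      · exact ⟨z.gT, hg0.le⟩
      · rw [mem_Icc] at hi
        exact ⟨hall i hi.1 hi.2, by positivity⟩
  have hgt : ∀ i : ℕ, 1 ≤ i → k ≤ (i : ℤ) * k := by
    intro i hi
    have : (1 : ℤ) * k ≤ i * k := by
      apply mul_le_mul_of_nonneg_right _ hk0.le
      exact_mod_cast hi
    linarith
  have hcard : (T.filter (fun a => 0 ≤ a)).card = j + 3 := by
    rw [hAe, card_insert_of_notMem, card_insert_of_notMem, card_image_of_injective]
    · simp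
    · intro a b hab
      have : (a : ℤ) = b := mul_right_cancel₀ hk0.ne' hab
      exact_mod_cast this
    · rw [mem_image]
      rintro ⟨i, hi, hi'⟩
      rw [mem_Icc] at hi
      have := hgt i hi.1
      omega
    · rw [mem_insert, mem_image]
      rintro (h | ⟨i, hi, hi'⟩)
      · omega
      · rw [mem_Icc] at hi
        have := hgt i hi.1
        omega
  rw [hcard] at c1
  push_cast at c1
  have hγ : γ = 2 * ((j : ℤ) + 1) + 3 := by linarith
  have hle := t.dle
  have hev := t.deven
  have hk3 : k = 3 := by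
    have h5 : ¬ 5 ≤ k := by
      intro h5
      have : ((j : ℤ) + 2) * 5 ≤ ((j : ℤ) + 2) * k := mul_le_mul_of_nonneg_left h5 (by positivity)
      omega
    have h4 : k ≠ 4 := by
      rintro rfl
      omega
    have h2 : k ≠ 2 := by
      rintro rfl
      omega
    omega
  subst hk3
  have hS : ∀ a ∈ T, a = g ∨ a = -g ∨ a ∈ mult 3 (j + 1) := by
    have hpos : ∀ a ∈ T, 0 ≤ a → a = g ∨ a = -g ∨ a ∈ mult 3 (j + 1) := by
      intro a ha h0
      by_cases h1 : a = 0
      · right; right; rw [mem_mult]; exact ⟨0, by omega, by omega, by omega⟩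
      · have h2 := z.gap ha (by omega)
        by_cases h3 : a = g
        · exact Or.inl h3
        · obtain ⟨i, hi1, hi2, hi3⟩ := hcl a ha (by omega)
          right; right; rw [mem_mult]; exact ⟨i, by omega, by omega, by omega⟩
    intro a ha
    rcases le_total 0 a with h0 | h0
    · exact hpos a ha h0
    · rcases hpos (-a) (z.symm' ha) (by omega) with h | h | h
      · right; left; omega
      · left; omega
      · right; right
        rw [mem_mult] at h ⊢
        obtain ⟨i, hi1, hi2, hi3⟩ := h
        exact ⟨-i, by omega, by omega, by omega⟩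
  refine t.k2 (d := 3) (F := g) (by norm_num) (by norm_num) (j + 1) (by omega)
    (by push_cast; linarith) (by push_cast; linarith) hS (fun a ha => hS _ (z.ST ha)) ?_
  intro i hi0 hi1
  have hmem : ∀ i : ℤ, 1 ≤ i → i ≤ j + 1 → i * 3 ∈ T := by
    intro i h1 h2
    have := hall i.toNat (by omega) (by omega)
    rwa [show ((i.toNat : ℕ) : ℤ) = i by omega] at this
  by_cases hi2 : i = 0
  · subst hi2
    rw [zero_mul, sub_zero]
    exact ⟨t.X0, t.Xd⟩
  · by_cases hi3 : i = j + 2
    · subst hi3
      constructor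
      · rw [show ((j : ℤ) + 2) * 3 = δ - g by linarith]; exact z.x2
      · rw [show δ - ((j : ℤ) + 2) * 3 = g by linarith]; exact z.x1
    · have h1 := hmem i (by omega) (by push_cast at hi1; omega)
      refine ⟨t.mX_of_T h1 (by omega), ?_⟩
      have h2 := (t.Tb _ h1).2
      refine (t.xf _ (by omega) (by omega)).2 (Or.inl ?_)
      rw [show δ - i * 3 - δ = -(i * 3) by ring]
      exact z.symm' h1

/-- Second subcase: `k = 3g`, second element `5g`. -/
theorem Zc.case2 (z : Zc γ δ g D X Y T S) (hk : 3 * g ∈ T)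
    (hmin : ∀ a ∈ T, g < a → 3 * g ≤ a) (h5 : 5 * g ∈ T) (_hlast : 5 * g ≠ δ - g - 3 * g) :
    False := by
  have t := z.t
  have hg0 := z.G.gpos
  -- the odd multiples
  have hex : ∃ i : ℕ, 2 ≤ i ∧ (2 * (i : ℤ) + 1) * g = δ - g - 3 * g := by
    by_contra hcon
    push Not at hcon
    have : ∀ i : ℕ, 2 ≤ i → (2 * (i : ℤ) - 3) * g ∈ T ∧ (2 * (i : ℤ) - 1) * g ∈ T ∧
        (2 * (i : ℤ) + 1) * g ∈ T := by
      intro i hi
      induction i, hi using Nat.le_induction with
      | base =>
        push_cast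
        norm_num
        exact ⟨z.gT, hk, h5⟩
      | succ i hi ih =>
        obtain ⟨h1, h2, h3⟩ := ih
        have hi' : (2 : ℤ) ≤ i := by exact_mod_cast hi
        have e1 : 0 < (2 * (i : ℤ) - 3) * g := by nlinarith
        have e2 : (2 * (i : ℤ) + 1) * g = (2 * (i : ℤ) - 3) * g + 4 * g := by ring
        have h4 := hcon i hi
        have h6 : (2 * (i : ℤ) + 1) * g - 3 * g ∉ T := by
          rw [show (2 * (i : ℤ) + 1) * g - 3 * g = (2 * (i : ℤ) - 3) * g + g by ring]
          exact z.disj h1 e1
        rcases z.ab hk (by omega) hmin h3 (by omega) h4 with ⟨h7, _⟩ | ⟨_, _, _, _, _, h8, _, h10⟩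
        · exact absurd h7 h6
        · obtain ⟨m1, m2⟩ := z.mir h8 (by omega)
          refine ⟨?_, ?_, ?_⟩
          · rw [show (2 * ((i + 1 : ℕ) : ℤ) - 3) * g = (2 * (i : ℤ) - 1) * g by push_cast; ring]
            exact h2
          · rw [show (2 * ((i + 1 : ℕ) : ℤ) - 1) * g = (2 * (i : ℤ) + 1) * g by push_cast; ring]
            exact h3
          · rw [show (2 * ((i + 1 : ℕ) : ℤ) + 1) * g
              = δ - g - (δ - g - (2 * (i : ℤ) + 1) * g - 3 * g + g) by push_cast; ring]
            exact m1
    have h1 := (this (δ.toNat + 2) (by omega)).2.2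
    have h2 := (t.Tb _ h1).2
    have h3 : δ ≤ 2 * ((δ.toNat + 2 : ℕ) : ℤ) + 1 := by push_cast; omega
    have h4 : (2 * ((δ.toNat + 2 : ℕ) : ℤ) + 1) * 1 ≤ (2 * ((δ.toNat + 2 : ℕ) : ℤ) + 1) * g :=
      mul_le_mul_of_nonneg_left (by omega) (by positivity)
    omega
  obtain ⟨i, hi, hi'⟩ := hex
  have hδ : δ = (2 * (i : ℤ) + 5) * g := by linarith
  have hgev : (2 : ℤ) ∣ g := by
    have h1 := t.deven
    rw [hδ] at h1
    rcases Int.prime_two.dvd_or_dvd h1 with h | h
    · omega
    · exact h
  have hgd : g ∣ δ := ⟨2 * (i : ℤ) + 5, by rw [hδ]; ring⟩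
  have hmul : ∀ N : ℕ, ∀ θ : ℤ, θ ≤ N → θ ∈ T → 0 < θ → g ∣ θ := by
    intro N
    induction N with
    | zero => intro θ h1 _ h2; push_cast at h1; omega
    | succ N ih =>
      intro θ h1 hθ h0
      have h2 := z.gap hθ h0
      by_cases h3 : θ = g
      · rw [h3]
      · by_cases h4 : θ = 3 * g
        · exact ⟨3, by linarith⟩
        · by_cases h6 : θ = δ - g - 3 * g
          · rw [h6, hδ]; exact ⟨2 * (i : ℤ) + 5 - 1 - 3, by ring⟩
          · have h7 := hmin θ hθ (by omega)
            rcases z.ab hk (by omega) hmin hθ (by omega) h6 with ⟨h8, _⟩ | ⟨_, _, h8, _⟩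
            · have := ih _ (by push_cast at h1; omega) h8 (by omega)
              obtain ⟨c, hc⟩ := this
              exact ⟨c + 3, by linarith⟩
            · have := ih _ (by push_cast at h1; omega) h8 (by omega)
              obtain ⟨c, hc⟩ := this
              exact ⟨c + 2, by linarith⟩
  have hmulT : ∀ a ∈ T, g ∣ a := by
    intro a ha
    rcases lt_trichotomy 0 a with h | h | h
    · exact hmul a.toNat a (by omega) ha h
    · rw [← h]; exact dvd_zero g
    · have := hmul (-a).toNat (-a) (by omega) (z.symm' ha) (by omega)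
      rwa [dvd_neg] at this
  have hmulX : ∀ x ∈ X, g ∣ x := by
    intro x hx
    have hb := t.Xb x hx
    rcases (t.xn x hb.1 hb.2).1 hx with h | h
    · exact hmulT x h
    · have := hmulT _ (z.ST h)
      have := dvd_add this hgd
      rwa [sub_add_cancel] at this
  -- counting
  have hsub : X ⊆ ((Icc 0 (2 * (i : ℤ) + 5)).image (fun c => c * g)).erase (2 * g) := by
    intro x hx
    obtain ⟨c, hc⟩ := hmulX x hx
    have hb := t.Xb x hx
    rw [mem_erase, mem_image]
    refine ⟨fun h => z.z1 (by rwa [← h]), c, ?_, by linarith⟩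
    rw [mem_Icc]
    constructor
    · by_contra hneg
      have : g * c < 0 := mul_neg_of_pos_of_neg hg0 (by omega)
      omega
    · have h1 : c * g ≤ (2 * (i : ℤ) + 5) * g := by rw [← hδ]; linarith
      exact le_of_mul_le_mul_right h1 hg0
  have c1 := card_le_card hsub
  have h2m : (2 * g) ∈ (Icc 0 (2 * (i : ℤ) + 5)).image (fun c => c * g) := by
    rw [mem_image]
    exact ⟨2, by rw [mem_Icc]; omega, rfl⟩
  rw [card_erase_of_mem h2m, card_image_of_injective _ (mul_left_injective₀ hg0.ne'),
    Int.card_Icc] at c1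
  have c2 := t.cX
  have c3 : γ + 1 ≤ 2 * (i : ℤ) + 5 := by omega
  have h1 : (2 * (i : ℤ) + 5) * 2 ≤ (2 * (i : ℤ) + 5) * g :=
    mul_le_mul_of_nonneg_left (by omega) (by positivity)
  have := t.dle
  omega

end Pool.Agent.J4.H36.Queens
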