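import Pool.Agent.J4.H36.Queens.ZCore

set_option autoImplicit false

namespace Pool.Agent.J4.H36.Queens

open Finset

variable {γ δ g : ℤ} {D : Finset (ℤ × ℤ)} {X Y T S : Finset ℤ}

theorem sum_Icc14 (a : ℤ) (f : ℤ → ℤ) :
    ∑ x ∈ Icc a (a + 2 * 7), f x = ∑ i ∈ range 15, f (a + i) := by
  have : Icc a (a + 2 * 7) = (range 15).image (fun i : ℕ => a + (i : ℤ)) := by
    ext x
    rw [mem_Icc, mem_image]
    constructor
    · intro h
      exact ⟨(x - a).toNat, by rw [mem_range]; omega, by omega⟩
    · rintro ⟨i, hi, rfl⟩
      rw [mem_range] at hi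
      omega
  rw [this, sum_image]
  intro i _ j _ h
  simp only at h
  omega

theorem Tight.sumD (t : Tight 7 δ D X Y T S) {h q : ℤ} (hδ : δ = 2 * h)
    (hT : ∑ a ∈ T, a = 0) (hS : ∑ a ∈ S, (a - δ) = 0) (hX : ∑ x ∈ X, x = 8 * h)
    (hX2 : ∑ x ∈ X, (x - h) ^ 2 = 2 * q) : ∑ p ∈ D, (p.1 - h) ^ 2 = 280 - 2 * q := by
  obtain ⟨a, hdis, hfull⟩ := t.full
  have e1 : ∑ p ∈ D, p.1 - ∑ p ∈ D, p.2 = 0 := by
    rw [← hT, t.Timg, sum_image t.iT, sum_sub_distrib]
  have e2 : ∑ p ∈ D, p.1 + ∑ p ∈ D, p.2 - 7 * δ = 0 := by
    rw [← hS, sum_sub_distrib, sum_const]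
    have := t.cS
    rw [nsmul_eq_mul, this]
    conv_rhs => rw [t.Simg]
    rw [sum_image t.iS, sum_add_distrib]
  have e3 : ∑ x ∈ Icc a (a + 2 * 7), x = 15 * h := by
    rw [← hfull, sum_union hdis, hX, sum_image t.iX]
    linarith
  rw [sum_Icc14] at e3
  simp only [sum_range_succ, sum_range_zero] at e3
  push_cast at e3
  have ha : a = h - 7 := by linarith
  have e4 : ∑ x ∈ Icc a (a + 2 * 7), (x - h) ^ 2 = 280 := by
    rw [sum_Icc14, ha]
    simp only [sum_range_succ, sum_range_zero]
    push_cast
    ring
  rw [← hfull, sum_union hdis, hX2, sum_image t.iX] at e4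
  linarith

/-- The case of two elements beyond `g`. -/
theorem Zc.four (z : Zc γ δ g D X Y T S) {k : ℤ} (hk : k ∈ T) (hgk : g < k)
    (hmin : ∀ a ∈ T, g < a → k ≤ a) (hne : k ≠ δ - g - k)
    (hcl : ∀ a ∈ T, g < a → a = k ∨ a = δ - g - k) : False := by
  have t := z.t
  have hg0 := z.G.gpos
  obtain ⟨m1, m2⟩ := z.mir hk hgk
  have m3 := hmin _ m1 m2
  obtain ⟨h, hh⟩ := t.deven
  obtain ⟨l, hl⟩ : ∃ l, l = δ - g - k := ⟨_, rfl⟩
  rw [← hl] at m1 m2 m3 hne hcl
  have hdl : l ≠ k + g := by
    intro h1
    apply z.disj hk (by omega)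
    rw [← h1]; exact m1
  have hT : T = {0, g, -g, k, -k, l, -l} := by
    have hpos : ∀ a ∈ T, 0 ≤ a → a = 0 ∨ a = g ∨ a = k ∨ a = l := by
      intro a ha h0
      by_cases h1 : a = 0
      · exact Or.inl h1
      · have h2 := z.gap ha (by omega)
        by_cases h3 : a = g
        · exact Or.inr (Or.inl h3)
        · exact Or.inr (Or.inr (hcl a ha (by omega)))
    ext a
    simp only [mem_insert, mem_singleton]
    constructor
    · intro ha
      rcases le_total 0 a with h0 | h0
      · have := hpos a ha h0
        omega
      · have := hpos (-a) (z.symm' ha) (by omega)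
        omega
    · rintro (rfl | rfl | rfl | rfl | rfl | rfl | rfl)
      · exact t.T0
      · exact z.gT
      · exact z.symm' z.gT
      · exact hk
      · exact z.symm' hk
      · exact m1
      · exact z.symm' m1
  have sT : ∀ f : ℤ → ℤ, ∑ a ∈ T, f a = f 0 + f g + f (-g) + f k + f (-k) + f l + f (-l) := by
    intro f
    rw [hT, sum_insert, sum_insert, sum_insert, sum_insert, sum_insert, sum_insert,
      sum_singleton]
    · ring
    all_goals
      simp only [mem_insert, mem_singleton]
      omega
  have hγ : γ = 7 := by
    have h1 := t.cT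
    have h2 := sT (fun _ => 1)
    rw [sum_const, nsmul_eq_mul, mul_one, h1] at h2
    linarith
  subst hγ
  have hST : S = T.image (fun a => a + δ) := by
    apply eq_of_subset_of_card_le
    · intro a ha
      rw [mem_image]
      exact ⟨a - δ, z.ST ha, by ring⟩
    · rw [card_image_of_injective _ (add_left_injective δ)]
      have h1 := t.cT
      have h2 := t.cS
      omega
  have sS : ∀ f : ℤ → ℤ, ∑ a ∈ S, f (a - δ) = ∑ a ∈ T, f a := by
    intro f
    rw [hST, sum_image (fun a _ b _ h => add_left_injective δ h)]
    apply sum_congr rfl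
    intro a _
    rw [add_sub_cancel_right]
  have hX : X = {0, g, k, l, δ, δ - g, δ - k, δ - l} := by
    ext x
    simp only [mem_insert, mem_singleton]
    constructor
    · intro hx
      have hb := t.Xb x hx
      have h1 : x ∈ T ∨ x - δ ∈ T := by
        rcases (t.xn x hb.1 hb.2).1 hx with h1 | h1
        · exact Or.inl h1
        · exact Or.inr (z.ST h1)
      rw [hT] at h1
      simp only [mem_insert, mem_singleton] at h1
      omega
    · have hTX : ∀ a ∈ T, 0 ≤ a → δ - a ∈ X := by
        intro a ha h0
        have h1 := (t.Tb a ha).2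
        refine (t.xf _ (by omega) (by omega)).2 (Or.inl ?_)
        rw [show δ - a - δ = -a by ring]
        exact z.symm' ha
      rintro (rfl | rfl | rfl | rfl | rfl | rfl | rfl | rfl)
      · exact t.X0
      · exact t.mX_of_T z.gT (by omega)
      · exact t.mX_of_T hk (by omega)
      · exact t.mX_of_T m1 (by omega)
      · exact t.Xd
      · exact hTX _ z.gT (by omega)
      · exact hTX _ hk (by omega)
      · exact hTX _ m1 (by omega)
  have hY : Y = X := by
    ext y
    constructor
    · intro hy
      have hb := t.Yb y hy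
      rcases (t.yn y hb.1 hb.2).1 hy with h1 | h1
      · exact t.mX_of_T ((z.sym hb.1).2 h1) hb.1
      · exact t.mX_of_S h1 hb.2
    · intro hy
      have hb := t.Xb y hy
      rcases (t.xn y hb.1 hb.2).1 hy with h1 | h1
      · exact t.mY_of_T (z.symm' h1) hb.1
      · exact t.mY_of_S h1 hb.2
  have sX : ∀ f : ℤ → ℤ, ∑ a ∈ X, f a
      = f 0 + f g + f k + f l + f δ + f (δ - g) + f (δ - k) + f (δ - l) := by
    intro f
    rw [hX, sum_insert, sum_insert, sum_insert, sum_insert, sum_insert, sum_insert, sum_insert,
      sum_singleton]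
    · ring
    all_goals
      simp only [mem_insert, mem_singleton]
      omega
  have sngT : ∑ a ∈ ng T, a = 0 := by
    rw [ng, sum_image (fun a _ b _ h => neg_injective h), sum_neg_distrib]
    rw [sT (fun a => a)]
    ring
  have a1 : ∑ p ∈ D, (p.1 - h) ^ 2 = 280 - 2 * (g ^ 2 + k ^ 2 + l ^ 2) := by
    apply t.sumD hh
    · rw [sT (fun a => a)]; ring
    · rw [sS (fun a => a), sT (fun a => a)]; ring
    · rw [sX (fun a => a)]; linarith
    · rw [sX (fun a => (a - h) ^ 2)]
      have : l = 2 * h - g - k := by omega
      rw [this, hh]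
      ring
  have a2 : ∑ p ∈ swD D, (p.1 - h) ^ 2 = 280 - 2 * (g ^ 2 + k ^ 2 + l ^ 2) := by
    apply t.swap.sumD hh sngT
    · rw [sS (fun a => a), sT (fun a => a)]; ring
    · rw [hY, sX (fun a => a)]; linarith
    · rw [hY, sX (fun a => (a - h) ^ 2)]
      have : l = 2 * h - g - k := by omega
      rw [this, hh]
      ring
  rw [swD, sum_image (fun a _ b _ h => Prod.swap_injective h)] at a2
  have a3 : ∑ p ∈ D, (p.1 - p.2) ^ 2 = 2 * (g ^ 2 + k ^ 2 + l ^ 2) := by
    have := sT (fun a => a ^ 2)
    rw [t.Timg, sum_image t.iT] at this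
    rw [this]
    ring
  have a4 : ∑ p ∈ D, (p.1 + p.2 - δ) ^ 2 = 2 * (g ^ 2 + k ^ 2 + l ^ 2) := by
    have := sS (fun a => a ^ 2)
    rw [sT, t.Simg, sum_image t.iS] at this
    rw [this]
    ring
  have a5 : 2 * (∑ p ∈ D, (p.1 - h) ^ 2 + ∑ p ∈ D, (p.swap.1 - h) ^ 2)
      = ∑ p ∈ D, (p.1 - p.2) ^ 2 + ∑ p ∈ D, (p.1 + p.2 - δ) ^ 2 := by
    rw [← sum_add_distrib, ← sum_add_distrib, mul_sum]
    apply sum_congr rfl
    intro p _
    rw [Prod.fst_swap, hh]
    ring
  rw [a1, a2, a3, a4] at a5
  omega

/-- The second case is impossible unless `γ = 5`. -/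
theorem Zc.main (z : Zc γ δ g D X Y T S) (h3 : 3 ≤ γ) : γ = 5 := by
  have t := z.t
  have hg0 := z.G.gpos
  by_cases hne : (T.filter (fun a => g < a)).Nonempty
  · obtain ⟨k, hkdef⟩ : ∃ k, k = (T.filter (fun a => g < a)).min' hne := ⟨_, rfl⟩
    have hkm := (T.filter (fun a => g < a)).min'_mem hne
    rw [← hkdef, mem_filter] at hkm
    obtain ⟨hk, hgk⟩ := hkm
    have hmin : ∀ a ∈ T, g < a → k ≤ a := by
      intro a ha hga
      rw [hkdef]
      exact (T.filter (fun a => g < a)).min'_le a (by rw [mem_filter]; exact ⟨ha, hga⟩)
    clear hkdef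
    obtain ⟨m1, m2⟩ := z.mir hk hgk
    by_cases hex : ∃ a ∈ T, g < a ∧ a ≠ k ∧ a ≠ δ - g - k
    · exfalso
      obtain ⟨b, hb, hgb, hbk, hbl⟩ := hex
      have hne2 : (T.filter (fun a => k < a)).Nonempty := by
        refine ⟨b, ?_⟩
        rw [mem_filter]
        have := hmin b hb hgb
        exact ⟨hb, by omega⟩
      obtain ⟨θ, hθdef⟩ : ∃ θ, θ = (T.filter (fun a => k < a)).min' hne2 := ⟨_, rfl⟩
      have hθm := (T.filter (fun a => k < a)).min'_mem hne2
      rw [← hθdef, mem_filter] at hθm
      obtain ⟨hθ, hkθ⟩ := hθm
      have hmin2 : ∀ a ∈ T, k < a → θ ≤ a := by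
        intro a ha hga
        rw [hθdef]
        exact (T.filter (fun a => k < a)).min'_le a (by rw [mem_filter]; exact ⟨ha, hga⟩)
      clear hθdef
      have hθl : θ ≠ δ - g - k := by
        intro h1
        have h2 := hmin2 b hb (by have := hmin b hb hgb; omega)
        obtain ⟨m3, m4⟩ := z.mir hb hgb
        have := hmin _ m3 m4
        omega
      have htri : ∀ a ∈ T, 0 < a → a < θ → a = g ∨ a = k := by
        intro a ha h0 h1
        have h2 := z.gap ha h0
        by_cases h4 : a = g
        · exact Or.inl h4
        · right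
          have h5 := hmin a ha (by omega)
          by_contra h6
          have := hmin2 a ha (by omega)
          omega
      rcases z.ab hk hgk hmin hθ hkθ hθl with ⟨h4, _⟩ | ⟨h4, _, h5, h6, h7, _⟩
      · rcases htri _ h4 (by omega) (by omega) with h8 | h8
        · have := z.disj hk (by omega)
          apply this
          rw [show k + g = θ by omega]; exact hθ
        · have hθ2 : θ = 2 * k := by omega
          subst hθ2
          exact z.case1 hk hgk hmin hθ hmin2 hθl
      · have h8 : θ - k + g = k := by
          rcases htri _ h5 (by omega) (by omega) with h8 | h8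
          · omega
          · exact h8
        have h9 : θ - k - g = g := by
          rcases htri _ h6 (by omega) (by omega) with h9 | h9
          · exact h9
          · omega
        have hk3 : k = 3 * g := by omega
        subst hk3
        have hθ5 : θ = 5 * g := by omega
        subst hθ5
        exact z.case2 hk hmin hθ hθl
    · push Not at hex
      by_cases hkl : k = δ - g - k
      · -- three elements
        have hT : T ⊆ {0, g, -g, k, -k} := by
          have hpos : ∀ a ∈ T, 0 ≤ a → a = 0 ∨ a = g ∨ a = k := by
            intro a ha h0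
            by_cases h1 : a = 0
            · exact Or.inl h1
            · have h2 := z.gap ha (by omega)
              by_cases h3 : a = g
              · exact Or.inr (Or.inl h3)
              · right; right
                by_contra h4
                have := hex a ha (by omega) h4
                omega
          intro a ha
          simp only [mem_insert, mem_singleton]
          rcases le_total 0 a with h0 | h0
          · have := hpos a ha h0
            omega
          · have := hpos (-a) (z.symm' ha) (by omega)
            omega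
        have hT' : ({0, g, -g, k, -k} : Finset ℤ) ⊆ T := by
          intro a ha
          simp only [mem_insert, mem_singleton] at ha
          rcases ha with rfl | rfl | rfl | rfl | rfl
          · exact t.T0
          · exact z.gT
          · exact z.symm' z.gT
          · exact hk
          · exact z.symm' hk
        have h1 := Subset.antisymm hT hT'
        have h2 := t.cT
        rw [h1, card_insert_of_notMem, card_insert_of_notMem, card_insert_of_notMem,
          card_insert_of_notMem, card_singleton] at h2
        · push_cast at h2; omega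
        all_goals
          simp only [mem_insert, mem_singleton]
          omega
      · exfalso
        refine z.four hk hgk hmin hkl ?_
        intro a ha hga
        by_contra hcon
        push Not at hcon
        exact hcon.2 (hex a ha hga hcon.1)
  · -- no element beyond g
    exfalso
    have hno : ∀ a ∈ T, a ≤ g := by
      intro a ha
      by_contra hcon
      exact hne ⟨a, by rw [mem_filter]; exact ⟨ha, by omega⟩⟩
    have hpos : ∀ a ∈ T, 0 ≤ a → a = 0 ∨ a = g := by
      intro a ha h0
      by_cases h1 : a = 0
      · exact Or.inl h1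
      · have h2 := z.gap ha (by omega)
        have := hno a ha
        omega
    have hT : T ⊆ {0, g, -g} := by
      intro a ha
      simp only [mem_insert, mem_singleton]
      rcases le_total 0 a with h0 | h0
      · have := hpos a ha h0
        omega
      · have := hpos (-a) (z.symm' ha) (by omega)
        omega
    have h1 := card_le_card hT
    have h2 : ({0, g, -g} : Finset ℤ).card ≤ 3 := card_le_three
    have h4 := t.cT
    have hγ : γ = 3 := by omega
    have h5 := t.dle
    have h6 := t.dge
    have h7 := t.deven
    have hδ : δ = 6 := by omega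
    subst hγ hδ
    have h8 : g ≤ 3 := by
      have := z.G.gX' g z.x1 (by
        by_contra hcon
        have : g = 6 := by have := z.gle; omega
        have h9 := (t.Tb g z.gT).2
        omega)
      omega
    have hcX := t.cX
    have hXs : X ⊆ {0, g, 6 - g, 6} := by
      intro x hx
      have hb := t.Xb x hx
      simp only [mem_insert, mem_singleton]
      rcases (t.xn x hb.1 hb.2).1 hx with h9 | h9
      · have := hpos x h9 hb.1
        omega
      · have := hpos _ (z.symm' (z.ST h9)) (by omega)
        omega
    have hc1 := card_le_card hXs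
    have hg3 : g ≠ 3 := by
      rintro rfl
      have : ({0, 3, 6 - 3, 6} : Finset ℤ).card = 3 := by decide
      omega
    have hg2 : g ≠ 2 := by
      rintro rfl
      apply z.z1
      have := z.x2
      norm_num at this ⊢
      exact this
    have hg1 : g = 1 := by omega
    subst hg1
    refine t.k1 (k := 1) (by norm_num) (by norm_num) 1 le_rfl (by norm_num) ?_ ?_
    · intro a ha
      have := hT ha
      simp only [mem_insert, mem_singleton] at this
      rw [mem_mult]
      exact ⟨a, by push_cast; omega, by push_cast; omega, by ring⟩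
    · intro a ha
      have := hT (z.ST ha)
      simp only [mem_insert, mem_singleton] at this
      rw [mem_mult]
      exact ⟨a - 6, by push_cast; omega, by push_cast; omega, by ring⟩

end Pool.Agent.J4.H36.Queens
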