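import Pool.Agent.J4.H36.Queens.TT

set_option autoImplicit false

namespace Pool.Agent.J4.H36.Queens

open Finset

variable {γ δ g : ℤ} {D : Finset (ℤ × ℤ)} {X Y T S : Finset ℤ}

/-- The second case: no free line at distance `2g` from a side. -/
structure Zc (γ δ g : ℤ) (D : Finset (ℤ × ℤ)) (X Y T S : Finset ℤ) : Prop
    extends Std γ δ g D X Y T S where
  gT : g ∈ T
  z1 : 2 * g ∉ X
  z2 : δ - 2 * g ∉ X
  z3 : 2 * g ∉ Y
  z4 : δ - 2 * g ∉ Y

theorem Zc.swap' (z : Zc γ δ g D X Y T S) : Zc γ δ g (swD D) Y X (ng T) S :=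
  { z.toStd.swap with
    gT := by rw [mem_ng]; exact z.toStd.types.1.2 z.gT
    z1 := z.z3
    z2 := z.z4
    z3 := z.z1
    z4 := z.z2 }

theorem Zc.refl' (z : Zc γ δ g D X Y T S) :
    Zc γ δ g (rfD δ D) (rf δ X) Y (rf δ S) (rf δ T) :=
  { z.toStd.refl with
    gT := by rw [mem_rf]; exact z.toStd.types.2.2.2 z.gT
    z1 := by rw [mem_rf]; exact z.z2
    z2 := by rw [mem_rf, sub_sub_cancel]; exact z.z1
    z3 := z.z3
    z4 := z.z4 }

theorem Zc.reflY' (z : Zc γ δ g D X Y T S) :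
    Zc γ δ g (swD (rfD δ (swD D))) X (rf δ Y) (ng (rf δ S)) (rf δ (ng T)) :=
  z.swap'.refl'.swap'

theorem Zc.gS (z : Zc γ δ g D X Y T S) : g ∉ S := fun h => z.t.nTS z.gT h

theorem Zc.dgS (z : Zc γ δ g D X Y T S) : δ - g ∈ S := z.toStd.types.2.2.2 z.gT

theorem Zc.dgT (z : Zc γ δ g D X Y T S) : δ - g ∉ T := fun h => z.t.nTS h z.dgS

theorem Zc.f1 (z : Zc γ δ g D X Y T S) {a : ℤ} (ha : a ∈ T) (hg : g < a) :
    a + g ∈ S ∧ a + g < δ - g := by
  have t := z.t
  have hg0 := z.G.gpos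
  have haX := t.mX_of_T ha (by omega)
  have h1 := z.G.gX' a haX (t.Tb a ha).2
  have h2 : a ≠ δ - g := fun h => z.dgT (by rwa [← h])
  have h3 : a ≠ δ - 2 * g := fun h => z.z2 (by rwa [← h])
  have h4 : a + g ∈ S := by
    by_contra hn
    obtain ⟨_, n, hn1, hn2⟩ := t.chainT z.G z.y1 ha (by omega) hn
    have hn0 : 2 ≤ n := by
      by_contra hlt
      have : n = 0 ∨ n = 1 := by omega
      rcases this with rfl | rfl
      · simp at hn1; omega
      · simp at hn1; omega
    have := (hn2 2 hn0).1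
    exact z.z1 (t.mX_of_T (by simpa using this) (by omega))
  refine ⟨h4, ?_⟩
  have h5 := t.mX_of_S h4 (by omega)
  have h6 := z.G.gX' _ h5 (by omega)
  omega

theorem Zc.f2 (z : Zc γ δ g D X Y T S) {s : ℤ} (hs : s ∈ S) (hg : s < δ - g) :
    s - g ∈ T ∧ g < s - g := by
  have t := z.t
  have hg0 := z.G.gpos
  have hsX := t.mX_of_S hs (by omega)
  have h1 := z.G.gX s hsX (t.Sb s hs).1
  have h2 : s ≠ g := fun h => z.gS (by rwa [← h])
  have h3 : s ≠ 2 * g := fun h => z.z1 (by rwa [← h])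
  have h4 : s - g ∈ T := by
    by_contra hn
    obtain ⟨_, n, hn1, hn2⟩ := t.chainS z.G z.y1 hs (by omega) hn
    have hn0 : 2 ≤ n := by
      by_contra hlt
      have : n = 0 ∨ n = 1 := by omega
      rcases this with rfl | rfl
      · simp at hn1; omega
      · simp at hn1; omega
    have := (hn2 2 hn0).1
    exact z.z2 (t.mX_of_S (by simpa using this) (by omega))
  refine ⟨h4, ?_⟩
  have h5 := t.mX_of_T h4 (by omega)
  have h6 := z.G.gX _ h5 (by omega)
  omega

theorem Zc.sym (z : Zc γ δ g D X Y T S) {a : ℤ} (h0 : 0 ≤ a) : a ∈ T ↔ -a ∈ T := by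
  have t := z.t
  have hg0 := z.G.gpos
  have q := z.toStd.types
  have key : ∀ {D : Finset (ℤ × ℤ)} {X Y T S : Finset ℤ}, Zc γ δ g D X Y T S →
      a ∈ T → -a ∈ T := by
    intro D X Y T S z ha
    have q := z.toStd.types
    by_cases ha0 : a = 0
    · subst ha0; simpa using ha
    · by_cases hag : a = g
      · subst hag; exact q.1.2 z.gT
      · have h1 := z.G.gX a (z.t.mX_of_T ha h0) (by omega)
        obtain ⟨h2, h3⟩ := z.f1 ha (by omega)
        have := (z.swap'.f2 h2 h3).1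
        rwa [mem_ng, add_sub_cancel_right] at this
  constructor
  · exact key z
  · intro h
    have := key z.swap' (mem_ng.2 h)
    rwa [mem_ng, neg_neg] at this

theorem Zc.symm' (z : Zc γ δ g D X Y T S) {a : ℤ} (h : a ∈ T) : -a ∈ T := by
  rcases le_total 0 a with h0 | h0
  · exact (z.sym h0).1 h
  · exact (z.sym (a := -a) (by omega)).2 (by rwa [neg_neg])

/-- Upper sum diagonals. -/
theorem Zc.up1 (z : Zc γ δ g D X Y T S) {a : ℤ} (h : a + δ ∈ S) (hg : g < a) :
    δ - g - a ∈ T ∧ g < δ - g - a := by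
  have h1 := z.reflY'.f1 (a := a) (by rw [mem_ng, mem_rf, show δ - -a = a + δ by ring]; exact h) hg
  rw [mem_rf, mem_ng, show -(δ - (a + g)) = -(δ - g - a) by ring] at h1
  have := z.symm' h1.1
  rw [neg_neg] at this
  exact ⟨this, by omega⟩

theorem Zc.up2 (z : Zc γ δ g D X Y T S) {a : ℤ} (h : δ - g - a ∈ T) (hg : g < δ - g - a) :
    a + δ ∈ S ∧ g < a := by
  have h0 := z.f1 h hg
  have h1 := z.reflY'.f2 (s := a + g)
    (by rw [mem_rf, mem_ng, show -(δ - (a + g)) = -(δ - g - a) by ring]; exact z.symm' h)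
    (by omega)
  rw [mem_ng, mem_rf, show δ - -(a + g - g) = a + δ by ring] at h1
  exact ⟨h1.1, by omega⟩

theorem Zc.mir_aux (z : Zc γ δ g D X Y T S) : ∀ N : ℕ, ∀ a : ℤ, a ≤ N →
    ((a ∈ T ∧ g < a) ↔ (δ - g - a ∈ T ∧ g < δ - g - a)) := by
  have t := z.t
  have hg0 := z.G.gpos
  intro N
  induction N with
  | zero =>
    intro a ha
    push_cast at ha
    constructor
    · rintro ⟨_, h⟩; omega
    · rintro ⟨h1, h2⟩
      have := (z.up2 h1 h2).2
      omega
  | succ N ih =>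
    intro a ha
    constructor
    · rintro ⟨h1, h2⟩
      have h3 := t.mX_of_T h1 (by omega)
      have h4 := (t.Tb a h1).2
      have h5 := z.G.gX' a h3 h4
      have h6 : a ≠ δ - g := fun h => z.dgT (by rwa [← h])
      rcases (t.xf a (by omega) (by omega)).1 h3 with h7 | h7
      · exfalso
        have h8 := z.symm' h7
        rw [neg_sub] at h8
        have h9 := (ih (a - g) (by push_cast at ha; omega)).2
          ⟨by rw [show δ - g - (a - g) = δ - a by ring]; exact h8, by omega⟩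
        have h10 := (z.f1 h9.1 h9.2).1
        rw [sub_add_cancel] at h10
        exact t.nTS h1 h10
      · exact z.up1 h7 h2
    · rintro ⟨h1, h2⟩
      obtain ⟨h3, h4⟩ := z.up2 h1 h2
      have h5 : a ∈ X := (t.xf a (by omega) (by omega)).2 (Or.inr h3)
      rcases (t.xn a (by omega) (by omega)).1 h5 with h6 | h6
      · exact ⟨h6, h4⟩
      · exfalso
        have h7 := z.f2 h6 (by omega)
        have h8 := (ih (a - g) (by push_cast at ha; omega)).1 h7
        rw [show δ - g - (a - g) = δ - a by ring] at h8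
        have h9 := z.symm' h8.1
        rw [neg_sub] at h9
        exact t.xf' a (by omega) (by omega) ⟨h9, h3⟩

theorem Zc.mir (z : Zc γ δ g D X Y T S) {a : ℤ} (ha : a ∈ T) (hg : g < a) :
    δ - g - a ∈ T ∧ g < δ - g - a :=
  (z.mir_aux a.toNat a (by omega)).1 ⟨ha, hg⟩

theorem Zc.ST (z : Zc γ δ g D X Y T S) {s : ℤ} (hs : s ∈ S) : s - δ ∈ T := by
  have t := z.t
  have hg0 := z.G.gpos
  rcases le_total s δ with h | h
  · by_cases h1 : s = δ
    · rw [h1, sub_self]; exact t.T0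
    · by_cases h2 : s = δ - g
      · rw [h2, show δ - g - δ = -g by ring]; exact z.symm' z.gT
      · have h3 := z.G.gX' s (t.mX_of_S hs h) (by omega)
        obtain ⟨h4, h5⟩ := z.f2 hs (by omega)
        have h6 := z.symm' (z.mir h4 h5).1
        rwa [show -(δ - g - (s - g)) = s - δ by ring] at h6
  · by_cases h1 : s = δ
    · rw [h1, sub_self]; exact t.T0
    · have h2 : s - δ ∈ X := (t.xf _ (by omega) (by have := (t.Sb s hs).2; omega)).2
        (Or.inr (by rwa [sub_add_cancel]))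
      have h3 := z.G.gX _ h2 (by omega)
      by_cases h4 : s - δ = g
      · rw [h4]; exact z.gT
      · obtain ⟨h5, h6⟩ := z.up1 (a := s - δ) (by rwa [sub_add_cancel]) (by omega)
        have h7 := (z.mir h5 h6).1
        rwa [show δ - g - (δ - g - (s - δ)) = s - δ by ring] at h7

theorem Zc.rule (z : Zc γ δ g D X Y T S) {a b : ℤ} (ha : a ∈ T) (hb : b ∈ T) (ha0 : 0 ≤ a)
    (hb0 : 0 ≤ b) : a - b ∈ T ∨ δ - a - b ∈ T := by
  rcases z.t.cov a (z.t.mX_of_T ha ha0) b (z.t.mY_of_T (z.symm' hb) hb0) with h | h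
  · exact Or.inl h
  · right
    have := z.symm' (z.ST h)
    rwa [show -(a + b - δ) = δ - a - b by ring] at this

theorem Zc.n2g (z : Zc γ δ g D X Y T S) : 2 * g ∉ T := fun h =>
  z.z1 (z.t.mX_of_T h (by have := z.G.gpos; omega))

theorem Zc.disj (z : Zc γ δ g D X Y T S) {a : ℤ} (ha : a ∈ T) (ha0 : 0 < a) : a + g ∉ T := by
  intro h
  have h1 := z.G.gX a (z.t.mX_of_T ha ha0.le) ha0
  by_cases h2 : a = g
  · exact z.n2g (by rw [two_mul]; rwa [h2] at h)
  · exact z.t.nTS h (z.f1 ha (by omega)).1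

theorem Zc.gap (z : Zc γ δ g D X Y T S) {a : ℤ} (ha : a ∈ T) (ha0 : 0 < a) : g ≤ a :=
  z.G.gX a (z.t.mX_of_T ha ha0.le) ha0

end Pool.Agent.J4.H36.Queens
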